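import Pool.Agent.Lib.UR.AllB
import Pool.Agent.Lib.UR.MAll

/-! The blocks of the project ur that are used in the project pn, without hypotheses. -/

namespace Pool.Agent.Lib.PN

open Pool.Agent.Lib.UR Pool.Agent.Lib.UR.M

theorem uBM : St_BM := by
  have hSET : St_SET := st_SET st_DIM
  have hHSU : St_HSU := st_HSU st_GPO hSET (st_NOE st_MON st_POL st_TRC st_ALG)
  have hHSL : St_HSL := st_HSL hSET st_MON
  have hFD : St_FD := st_FD st_EXC hHSU
  have hRES : St_RES := st_RES UR.st_GAU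
  have hUPP : St_UPP := st_UPP st_DIM hFD hRES
  exact st_BM st_EXC (st_SYM st_UNQ) st_DIM (st_THR st_EXC hFD hHSU hHSL)
    (st_S1 st_ASY st_DIM hHSU hHSL hUPP)
    (st_S2 st_ASY hFD (st_S2A st_DIM hFD hHSL hRES) (st_S2B st_DIM hFD hHSU hUPP))
    (st_S3 st_ASY hHSU st_LEX st_VAL) (st_CRV hHSU hHSL st_LSC) st_ANA (st_B1 st_LSC)

theorem uJDG : St_JDG := st_JDG

theorem uTRF : St_TRF :=
  st_trf st_dom st_hts st_int st_red (st_mm (st_mm0 (st_def st_con) st_sem st_cnt st_exp st_arc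
    st_bpf (st_bub st_walk)))

theorem uRCN : St_RCN := st_rcn st_nul

theorem uDSC : St_DSC := st_dsc

theorem uHT0 : St_HT0 := st_ht0

end Pool.Agent.Lib.PN
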