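import Pool.Agent.Lib.PN.ABlue
import Pool.Agent.Lib.PN.Ext

/-! Project pn: the canonical class is pseudo-effective on every subvariety. -/

open MvPolynomial Set

noncomputable section

namespace Pool.Agent.Lib.PN

open Pool.Agent.Lib.MP_7fcda1_ag Pool.Agent.Lib.UR Pool.Agent.Lib.UR.M

namespace X45

variable {L τ τ' : Type} [Field L] [Algebra ℂ L]

theorem gen_mono {y : τ → L} {w : τ' → L} (h : Gen ℂ y) (hw : ∀ j, y j ∈ range w) : Gen ℂ w :=
  eq_top_iff.2 (h.ge.trans (IntermediateField.adjoin.mono _ _ _ (range_subset_iff.2 hw)))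

theorem exists_dim [Finite τ] {y : τ → L} (h : Gen ℂ y) : ∃ m, Dim ℂ L m := by
  have : Algebra.IsAlgebraic (Algebra.adjoin ℂ (range y)) L := by
    rw [← IntermediateField.isAlgebraic_adjoin_iff_top, show IntermediateField.adjoin ℂ
      (range y) = ⊤ from h, Algebra.isAlgebraic_iff_isIntegral]
    exact Algebra.isIntegral_of_surjective fun x => ⟨⟨x, trivial⟩, rfl⟩
  obtain ⟨t, ht, hb⟩ := exists_isTranscendenceBasis_subset (R := ℂ) (range y)
  have := ((finite_range y).subset ht).fintype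
  exact ⟨_, _, hb.comp_equiv (Fintype.equivFin t).symm⟩

theorem ne_bot_of_dim [Finite τ] {y : τ → L} (h : Gen ℂ y) (d : Dim ℂ L 0)
    {U V : Submodule ℂ L} (h1 : (1 : L) ∈ U) : cl U / V ≠ ⊥ := by
  have := Dim.finite h d
  refine ne_bot_of_one (Submodule.mem_div_iff_forall_mul_mem.2 fun v _ => ?_)
  obtain ⟨c, rfl⟩ := (IsAlgClosed.algebraMap_bijective_of_isIntegral (k := ℂ) (K := L)).2 v
  rw [one_mul, Algebra.algebraMap_eq_smul_one]
  exact le_cl _ (U.smul_mem c h1)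

end X45

open X45

theorem st_BIG (hMOR : St_MOR) : St_BIG := by
  intro ρ n e Λ _ G hA hR L _ _ y i I S δ T₀ N₀ h1 hg hz hc hb
  by_contra hn
  push Not at hn
  obtain ⟨m, hm⟩ := exists_dim hg
  have h0 : y i ≠ 0 := h1 ▸ one_ne_zero
  rcases m with _ | m
  · exact ne_bot_of_dim hg hm (one_mem_pow (one_mem_sys _) _) (hn 1 one_pos)
  obtain ⟨κ, K, _, _, _, _, _, _, _, σ, h⟩ := uBM ℂ L _ _ _ (qK n y i) m 1 N₀
    (gen_mono hg fun j => ⟨(T₀, j), by rw [mul_div_mul_left _ _ hb, h1, div_one]⟩)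
    (gen_mono hg fun j => ⟨Fin.cons j fun _ => i, by
      rw [qK, Fin.prod_univ_succ]
      simp [h1]⟩) hm hn
  have ev : ∀ p : Pol (ρ + n), aeval (fun j => σ (y j)) p = σ (aeval y p) := fun p =>
    (comp_aeval_apply _ σ p).symm
  obtain ⟨g1, g2⟩ := uJDG κ K _ _ (fun j => σ (y j)) (fun T => σ (aeval y (bm G I T))) T₀ i n
    ((map_ne_zero σ).2 hb) ((map_ne_zero σ).2 h0)
  have e1 : (fun o => σ (opt (fun p : Ix ρ n × Fin (ρ + n + 1) => aeval y (bm G I p.1) * y p.2 /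
      (aeval y (bm G I T₀) * y i)) o)) = opt fun p : Ix ρ n × Fin (ρ + n + 1) =>
      σ (aeval y (bm G I p.1)) * σ (y p.2) / (σ (aeval y (bm G I T₀)) * σ (y i)) := by
    funext o
    cases o <;> simp [opt]
  have e2 : (fun o => σ (opt (qK n y i) o)) = opt (qK n (fun j => σ (y j)) i) := by
    funext o
    cases o <;> simp [opt, qK]
  rw [e1, e2, g1, g2] at h
  have k := hMOR ρ n e Λ G hA hR κ K (fun j => σ (y j)) I S δ
    (Function.ne_iff.2 ⟨i, (map_ne_zero σ).2 h0⟩) (fun l => by rw [ev, hz, map_zero])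
    ⟨by rw [ev]; exact (map_ne_zero σ).2 hc.min, by rw [ev]; exact (map_ne_zero σ).2 hc.del,
      hc.mem⟩
  simp only [ev] at k
  push_cast at h
  linarith

end Pool.Agent.Lib.PN
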