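import Pool.Agent.Lib.PN.ABlue

/-! Project pn: one common denominator for all products of finitely many integral elements. -/

open Set Submodule

noncomputable section

namespace Pool.Agent.Lib.PN

open Pool.Agent.Lib.UR

namespace X90

variable {k L : Type} [Field k] [Field L] [Algebra k L]

theorem int_eq {V V' : Submodule k L} {x : L} (hx : x ∈ cl V) (hV : V ≤ V') (hx' : x ∈ V') :
    ∃ m, x ^ (m + 1) ∈ V * V' ^ m := by
  by_contra hne
  have hx0 : x ≠ 0 := by
    rintro rfl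
    exact hne ⟨0, by simp⟩
  have up : ∀ {y : L} {m : ℕ} (j : ℕ), y * x ^ m ∈ V' ^ m → y * x ^ (m + j) ∈ V' ^ (m + j) :=
    fun j h => by
      rw [pow_add, pow_add, ← mul_assoc]
      exact mul_mem_mul h (pow_mem_pow _ hx' j)
  have up' : ∀ {y : L} {m : ℕ} (j : ℕ), y * x ^ (m + 1) ∈ V * V' ^ m →
      y * x ^ (m + j + 1) ∈ V * V' ^ (m + j) := fun {y m} j h => by
    rw [show y * x ^ (m + j + 1) = y * x ^ (m + 1) * x ^ j by ring, pow_add V', ← mul_assoc]
    exact mul_mem_mul h (pow_mem_pow _ hx' j)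
  let S : Subring L :=
    { carrier := {y | ∃ m, y * x ^ m ∈ V' ^ m}
      mul_mem' := fun {y z} ⟨m, hm⟩ ⟨m', hm'⟩ => ⟨m + m', by
        rw [show y * z * x ^ (m + m') = y * x ^ m * (z * x ^ m') by ring, pow_add V']
        exact mul_mem_mul hm hm'⟩
      one_mem' := ⟨0, by simp [one_eq_span]⟩
      add_mem' := fun {y z} ⟨m, hm⟩ ⟨m', hm'⟩ => ⟨m + m', by
        rw [add_mul]
        exact add_mem (up m' hm) (by rw [add_comm m m']; exact up m hm')⟩
      zero_mem' := ⟨0, by simp⟩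
      neg_mem' := fun {y} ⟨m, hm⟩ => ⟨m, by rw [neg_mul]; exact neg_mem hm⟩ }
  let I : Ideal S :=
    { carrier := {y | ∃ m, (y : L) * x ^ (m + 1) ∈ V * V' ^ m}
      add_mem' := fun {y z} ⟨m, hm⟩ ⟨m', hm'⟩ => ⟨m + m', by
        rw [Subring.coe_add, add_mul]
        exact add_mem (up' m' hm) (by rw [add_comm m m']; exact up' m hm')⟩
      zero_mem' := ⟨0, by simp⟩
      smul_mem' := fun s y ⟨m, hm⟩ => by
        obtain ⟨m', hm'⟩ := s.2
        refine ⟨m + m', ?_⟩
        rw [smul_eq_mul, Subring.coe_mul,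
          show (s : L) * y * x ^ (m + m' + 1) = y * x ^ (m + 1) * (s * x ^ m') by ring,
          pow_add V', ← mul_assoc]
        exact mul_mem_mul hm hm' }
  have hI : I ≠ ⊤ := fun h => by
    obtain ⟨m, hm⟩ := (Ideal.eq_top_iff_one I).1 h
    exact hne ⟨m, by simpa using hm⟩
  obtain ⟨O, h1, h2⟩ := Ideal.image_subset_nonunits_valuationSubring I hI
  obtain ⟨u, hu, hv⟩ := hx O fun c => h1 (show algebraMap k L c ∈ S from ⟨0, by simp⟩)
  have e : u / x * x ^ (0 + 1) = u := by rw [zero_add, pow_one, div_mul_cancel₀ _ hx0]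
  have hS : u / x ∈ S := ⟨0 + 1, by rw [e]; simpa using hV hu⟩
  have hlt := h2 ⟨⟨u / x, hS⟩, ⟨0, by rw [e]; simpa using hu⟩, rfl⟩
  have hlt' : O.valuation (u / x) < 1 := (O.mem_nonunits_iff).1 hlt
  rw [map_div₀, div_lt_one₀ (zero_lt_iff.2 ((Valuation.ne_zero_iff _).2 hx0))] at hlt'
  exact absurd hv (not_le.2 hlt')

theorem red {V : Submodule k L} {x : L} (hx : x ∈ cl V) (h1 : (1 : L) ∈ V) :
    ∃ m, ∀ j, (V ⊔ span k {x}) ^ j ≤ V ^ j * (V ⊔ span k {x}) ^ m := by
  have hx' : x ∈ V ⊔ span k {x} := mem_sup_right (mem_span_singleton_self x)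
  obtain ⟨m, hm⟩ := int_eq hx le_sup_left hx'
  have h2 : ∀ i, (V ⊔ span k {x}) ^ (i + 1) ≤ V * (V ⊔ span k {x}) ^ i ⊔ span k {x ^ (i + 1)} := by
    intro i
    induction i with
    | zero => simp
    | succ i ih =>
      conv_lhs => rw [pow_succ, Submodule.mul_sup]
      refine sup_le (by rw [mul_comm]; exact le_sup_left) ?_
      refine (mul_le_mul' ih le_rfl).trans ?_
      rw [Submodule.sup_mul, span_mul_span, singleton_mul_singleton, ← pow_succ]
      refine sup_le_sup_right ?_ _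
      rw [mul_assoc, pow_succ]
      exact mul_le_mul' le_rfl (mul_le_mul' le_rfl le_sup_right)
  have h3 : (V ⊔ span k {x}) ^ (m + 1) ≤ V * (V ⊔ span k {x}) ^ m :=
    (h2 m).trans (sup_le le_rfl ((span_singleton_le_iff_mem _ _).2 hm))
  have h4 : ∀ j, (V ⊔ span k {x}) ^ (m + j) ≤ V ^ j * (V ⊔ span k {x}) ^ m := by
    intro j
    induction j with
    | zero => simp
    | succ j ih =>
      rw [← add_assoc, pow_succ]
      refine (mul_le_mul' ih le_rfl).trans ?_
      rw [mul_assoc, ← pow_succ, pow_succ V, mul_assoc]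
      exact mul_le_mul' le_rfl h3
  exact ⟨m, fun j => (pow_mono' (mem_sup_left h1) (Nat.le_add_left j m)).trans (h4 j)⟩

theorem red_fin {W : Submodule k L} (hW : W.FG) (h1 : (1 : L) ∈ W) (s : Finset L)
    (hs : ∀ x ∈ s, x ∈ cl W) :
    ∃ F : Submodule k L, F.FG ∧ ∀ j, (W ⊔ span k s) ^ j ≤ W ^ j * F := by
  classical
  induction s using Finset.induction_on with
  | empty => exact ⟨1, by rw [one_eq_span]; exact fg_span_singleton _, fun j => by simp⟩
  | insert x s _ ih =>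
    obtain ⟨F, hF, h⟩ := ih fun y hy => hs y (Finset.mem_insert_of_mem hy)
    obtain ⟨m, hm⟩ := red (V := W ⊔ span k s)
      (cl_mono le_sup_left (hs x (Finset.mem_insert_self x s))) (mem_sup_left h1)
    refine ⟨F * (W ⊔ span k s ⊔ span k {x}) ^ m,
      hF.mul (((hW.sup ⟨s, rfl⟩).sup (fg_span_singleton x)).pow m), fun j => ?_⟩
    rw [Finset.coe_insert, span_insert, sup_comm (span k {x}), ← sup_assoc, ← mul_assoc]
    exact (hm j).trans (mul_le_mul' (h j) le_rfl)

theorem adj_mem {τ : Type} (h : τ → L) {r : L} (hr : r ∈ Algebra.adjoin k (range h)) :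
    ∃ d, r ∈ sys k h ^ d := by
  induction hr using Algebra.adjoin_induction with
  | mem y hy =>
    obtain ⟨j, rfl⟩ := hy
    exact ⟨1, by rw [pow_one]; exact mem_sys h j⟩
  | algebraMap c => exact ⟨0, by simp⟩
  | add y z _ _ hy hz =>
    obtain ⟨d, hd⟩ := hy
    obtain ⟨d', hd'⟩ := hz
    exact ⟨d + d', add_mem (pow_mono' (one_mem_sys h) (Nat.le_add_right d d') hd)
      (pow_mono' (one_mem_sys h) (Nat.le_add_left d' d) hd')⟩
  | mul y z _ _ hy hz =>
    obtain ⟨d, hd⟩ := hy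
    obtain ⟨d', hd'⟩ := hz
    exact ⟨d + d', by rw [pow_add]; exact mul_mem_mul hd hd'⟩

theorem den {τ : Type} {h : τ → L} (hg : Gen k h) (F : Submodule k L) (hF : F.FG) :
    ∃ e, ∃ c ∈ sys k h ^ e, c ≠ 0 ∧ ∀ y ∈ F, c * y ∈ sys k h ^ e := by
  refine fg_induction (R := k) (M := L)
    (motive := fun F _ => ∃ e, ∃ c ∈ sys k h ^ e, c ≠ 0 ∧ ∀ y ∈ F, c * y ∈ sys k h ^ e)
    (fun y => ?_) (fun F₁ F₂ _ _ ⟨e, c, hc, h0, hy⟩ ⟨e', c', hc', h0', hy'⟩ => ?_) F hF
  · have hy : y ∈ IntermediateField.adjoin k (range h) := by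
      rw [show IntermediateField.adjoin k (range h) = ⊤ from hg]
      trivial
    obtain ⟨r, hr, s, hs, rfl⟩ := IntermediateField.mem_adjoin_iff_div.1 hy
    obtain ⟨d, hd⟩ := adj_mem h hr
    obtain ⟨d', hd'⟩ := adj_mem h hs
    by_cases h0 : s = 0
    · refine ⟨0, 1, one_mem_pow (one_mem_sys h) 0, one_ne_zero, fun z hz => ?_⟩
      obtain ⟨a, rfl⟩ := mem_span_singleton.1 hz
      simp [h0]
    · refine ⟨d + d', s, pow_mono' (one_mem_sys h) (Nat.le_add_left d' d) hd', h0, fun z hz => ?_⟩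
      obtain ⟨a, rfl⟩ := mem_span_singleton.1 hz
      rw [mul_smul_comm, mul_div_cancel₀ _ h0]
      exact smul_mem _ a (pow_mono' (one_mem_sys h) (Nat.le_add_right d d') hd)
  · refine ⟨e + e', c * c', by rw [pow_add]; exact mul_mem_mul hc hc', mul_ne_zero h0 h0',
      fun y hy2 => ?_⟩
    obtain ⟨a, ha, b, hb, rfl⟩ := mem_sup.1 hy2
    rw [show c * c' * (a + b) = c * a * c' + c * (c' * b) by ring, pow_add]
    exact add_mem (mul_mem_mul (hy a ha) hc') (mul_mem_mul hc (hy' b hb))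

end X90

open X90 in
theorem st_CND : St_CND := by
  intro k L τ A _ _ _ _ _ h x b hg hx
  have hU : (sys k h).FG := fg_span ((finite_range h).insert 1)
  obtain ⟨F, hF, h1⟩ := red_fin (hU.pow b) (one_mem_pow (one_mem_sys h) b)
    (finite_range x).toFinset fun y hy => by
      obtain ⟨a, rfl⟩ := (finite_range x).mem_toFinset.1 hy
      exact hx a
  obtain ⟨e, c, -, h0, hc⟩ := den hg F hF
  refine ⟨c, e, h0, fun j β => ?_⟩
  have h2 : ∏ i, x (β i) ∈ (sys k h ^ b ⊔ span k ((finite_range x).toFinset : Set L)) ^ j := by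
    induction j with
    | zero => simp [one_eq_span]
    | succ j ih =>
      rw [Fin.prod_univ_castSucc, pow_succ]
      exact mul_mem_mul (ih _) (mem_sup_right (subset_span (by simp)))
  refine Submodule.mul_induction_on (C := fun y => c * y ∈ sys k h ^ (j * b + e)) (h1 j h2)
    (fun u hu y hy => ?_) fun y z hy hz => by rw [mul_add]; exact add_mem hy hz
  rw [mul_left_comm, pow_add, mul_comm j b, pow_mul]
  exact mul_mem_mul hu (hc y hy)

end Pool.Agent.Lib.PN
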