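import Pool.Agent.Lib.SV.SDefs

/-! Definition used in the statement: projective manifolds. -/

open scoped Topology

namespace Pool.Agent.Lib.PN

open Pool.Agent.Lib.SV

/-- `X` is a non-singular projective variety of dimension `n`: an injective holomorphic immersion
`f` maps it onto the zero set of finitely many forms of one degree in `ρ + n + 1` variables, whose
Jacobian matrix has rank `ρ` at every point of that zero set. -/
def Projective (n : ℕ) (X : Type) [TopologicalSpace X] [ChartedSpace (E n) X] : Prop :=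
  ∃ (ρ r e : ℕ) (f : X → Projectivization ℂ (E (ρ + n + 1)))
    (G : Fin r → MvPolynomial (Fin (ρ + n + 1)) ℂ),
    0 < e ∧ (∀ l, (G l).IsHomogeneous e) ∧ Function.Injective f ∧
    (∀ x : X, ∃ F : E n → E (ρ + n + 1),
      (∀ᶠ z in 𝓝 (chartAt (E n) x x), DifferentiableAt ℂ F z ∧
        ∃ h : F z ≠ 0, Projectivization.mk ℂ (F z) h = f ((chartAt (E n) x).symm z)) ∧
      ∀ (t : ℂ) (v : E n), fderiv ℂ F (chartAt (E n) x x) v = t • F (chartAt (E n) x x) → v = 0) ∧
    ∀ (y : E (ρ + n + 1)) (h : y ≠ 0),
      (Projectivization.mk ℂ y h ∈ Set.range f ↔ ∀ l, MvPolynomial.eval y (G l) = 0) ∧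
      ((∀ l, MvPolynomial.eval y (G l) = 0) →
        (Matrix.of fun l j => MvPolynomial.eval y (MvPolynomial.pderiv j (G l))).rank = ρ)

end Pool.Agent.Lib.PN
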