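import Pool.Agent.Lib.PN.ABlue
import Pool.Agent.Lib.PN.SDefs
import Pool.Agent.Lib.HS32.MAll
import Pool.Agent.Lib.HS.B_BRIDGE

/-! Project pn, analytic half: a projective manifold without rational curves has nef canonical
bundle. Definitions and statements of the blocks. -/

open scoped Classical Topology ContDiff ComplexOrder Matrix Manifold
open Set Complex Filter MvPolynomial

noncomputable section

namespace Pool.Agent.Lib.PN

open Pool.Agent.Lib.SV (E nsq)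
open Pool.Agent.Lib.HS32 Pool.Agent.Lib.MP_7fcda1_ag Pool.Agent.Lib.UR.M

section
variable {n ρ : ℕ} {ι ι' κ Λ : Type}

/-- The logarithm of the squared norm. -/
def lg [Fintype ι] (F : E n → ι → ℂ) (w : E n) : ℂ := (Real.log (nsq (F w)) : ℝ)

/-- Pluecker coordinates of the tangent space of the cone. -/
def gv [Fintype ι] (F : E n → ι → ℂ) (z : E n) : (Fin (n + 1) → ι) → ℂ :=
  pl (Fin.cons (F z) fun a => fderiv ℂ F z (Pi.single a 1) : Fin (n + 1) → ι → ℂ)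

/-- Tensor product of two vectors. -/
def tns (a : ι → ℂ) (b : ι' → ℂ) : ι × ι' → ℂ := fun p => a p.1 * b p.2

/-- The squared norm of a family of forms of degree `d`. -/
def ph {X : Type} [Fintype ι] [Fintype κ] (f : X → ι → ℂ) (p : κ → MvPolynomial ι ℂ) (d : ℕ)
    (x : X) : ℝ := nsq (fun k => eval (f x) (p k)) / nsq (f x) ^ d

/-- `F` is a holomorphic lift of `f` near the point `z` of the chart `c`. -/
structure Lift (M : Mf n) [Fintype ι] (f : M.X → ι → ℂ) (c : M.Ch) (z : E n) (F : E n → ι → ℂ) :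
    Prop where
  mem : c ∈ M.C
  tgt : z ∈ c.target
  hol : HolN F z
  ev : ∀ᶠ w in 𝓝 z, ∃ a : ℂ, a ≠ 0 ∧ F w = a • f (c.symm w)

/-- `f` represents a holomorphic map to a projective space. -/
structure PMap (M : Mf n) [Fintype ι] (f : M.X → ι → ℂ) : Prop where
  ne : ∀ x, f x ≠ 0
  ex : M.All fun c z => ∃ F, Lift M f c z F

/-- The pull-back of the form of Fubini and Study. -/
def fs (M : Mf n) [Fintype ι] (f : M.X → ι → ℂ) : M.Fam (Mat n) := fun c z =>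
  if h : ∃ F, Lift M f c z F then hess (lg h.choose) z else 0

/-- `u` is a strictly `θ`-plurisubharmonic function at the points of `V`. -/
def Good (M : Mf n) (θ : M.Fam (Mat n)) (u : M.X → ℝ) (V : Set M.X) : Prop :=
  M.Sm u ∧ M.All fun c z => c.symm z ∈ V → (θ c z + M.hs u c z).PosDef

/-- A holomorphic map from the complex line. -/
structure HolC (M : Mf n) (φ : ℂ → M.X) : Prop where
  cont : Continuous φ
  hol : ∀ c ∈ M.C, ∀ t, φ t ∈ c.source → DifferentiableAt ℂ (c ∘ φ) t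

/-- `f` embeds `M` onto the smooth variety `G = 0`. -/
structure Prj (M : Mf n) (e : ℕ) (G : Λ → Pol (ρ + n)) (f : M.X → Fin (ρ + n + 1) → ℂ) : Prop where
  pos : 1 ≤ e
  hom : ∀ l, (G l).IsHomogeneous e
  map : PMap M f
  imm : ∀ c z F, Lift M f c z F → ∀ (t : ℂ) (v : E n), fderiv ℂ F z v = t • F z → v = 0
  inj : ∀ x x' (a : ℂ), f x = a • f x' → x = x'
  zero : ∀ x l, eval (f x) (G l) = 0
  onto : ∀ y, y ≠ 0 → (∀ l, eval y (G l) = 0) → ∃ (x : M.X) (a : ℂ), y = a • f x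
  jac : ∀ x, ∃ (I : Fin ρ → Λ) (S : Fin ρ → Fin (ρ + n + 1)), eval (f x) (amin G S I) ≠ 0

/-- `γ` is the Gauss map of `f`. -/
structure Gau (M : Mf n) [Fintype ι] (f : M.X → ι → ℂ) (γ : M.X → (Fin (n + 1) → ι) → ℂ) :
    Prop where
  map : PMap M γ
  lift : ∀ c z F, Lift M f c z F → Lift M γ c z (gv F)

/-- The common zeros of a set of forms. -/
def Zs {X : Type} (f : X → ι → ℂ) (S : Set (MvPolynomial ι ℂ)) : Set X :=
  {x | ∀ s ∈ S, eval (f x) s = 0}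

variable [Fintype ι] [Fintype ι'] {M : Mf n} {f : M.X → ι → ℂ} {c : M.Ch} {z : E n}
  {F : E n → ι → ℂ}

theorem Lift.near (h : Lift M f c z F) : ∀ᶠ w in 𝓝 z, Lift M f c w F := by
  filter_upwards [c.open_target.mem_nhds h.tgt, h.hol.eventually_nhds, h.ev.eventually_nhds]
    with w h1 h2 h3 using ⟨h.mem, h1, h2, h3⟩

theorem Lift.ne (h : Lift M f c z F) (hf : ∀ x, f x ≠ 0) : F z ≠ 0 := by
  obtain ⟨a, ha, e⟩ := h.ev.self_of_nhds
  rw [e]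
  exact smul_ne_zero ha (hf _)

theorem holN_eval (h : HolN F z) (p : MvPolynomial ι ℂ) : HolN (fun w => eval (F w) p) z := by
  filter_upwards [h] with w hw
  induction p using MvPolynomial.induction_on with
  | C a => simp
  | add p q hp hq => simpa only [map_add] using hp.fun_add hq
  | mul_X p i hp => simpa only [map_mul, eval_X] using hp.fun_mul (differentiableAt_pi.1 hw i)

theorem holN_pi {A : E n → ι' → ℂ} (h : ∀ i, HolN (fun w => A w i) z) : HolN A z :=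
  (eventually_all.2 h).mono fun _ hw => differentiableAt_pi.2 hw

theorem holN_apply (h : HolN F z) (i : ι) : HolN (fun w => F w i) z :=
  h.mono fun _ hw => differentiableAt_pi.1 hw i

theorem Lift.norm (h : Lift M f c z F) {i : ι} (hi : F z i ≠ 0) :
    Lift M f c z (fun w => (F w i)⁻¹ • F w) ∧ ∀ᶠ w in 𝓝 z, ((F w i)⁻¹ • F w) i = 1 := by
  have h1 : ∀ᶠ w in 𝓝 z, F w i ≠ 0 :=
    (holN_apply h.hol i).self_of_nhds.continuousAt.eventually_ne hi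
  refine ⟨⟨h.mem, h.tgt, ?_, ?_⟩, h1.mono fun w hw => inv_mul_cancel₀ hw⟩
  · filter_upwards [h.hol, h1] with w a b
    exact ((differentiableAt_pi.1 a i).inv b).smul a
  · filter_upwards [h.ev, h1] with w ⟨a, ha, e⟩ b
    exact ⟨(F w i)⁻¹ * a, mul_ne_zero (inv_ne_zero b) ha, by rw [mul_smul, ← e]⟩

theorem Lift.tns {f' : M.X → ι' → ℂ} {F' : E n → ι' → ℂ} (h : Lift M f c z F)
    (h' : Lift M f' c z F') :
    Lift M (fun x => tns (f x) (f' x)) c z fun w => tns (F w) (F' w) := by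
  refine ⟨h.mem, h.tgt, holN_pi fun p => ?_, ?_⟩
  · filter_upwards [holN_apply h.hol p.1, holN_apply h'.hol p.2] with w a b using a.fun_mul b
  · filter_upwards [h.ev, h'.ev] with w ⟨a, ha, e⟩ ⟨b, hb, e'⟩
    refine ⟨a * b, mul_ne_zero ha hb, funext fun p => ?_⟩
    simp only [PN.tns, e, e', Pi.smul_apply, smul_eq_mul]
    ring

omit [Fintype ι] [Fintype ι'] in
theorem tns_ne {a : ι → ℂ} {b : ι' → ℂ} (ha : a ≠ 0) (hb : b ≠ 0) : tns a b ≠ 0 := by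
  obtain ⟨i, hi⟩ := Function.ne_iff.1 ha
  obtain ⟨j, hj⟩ := Function.ne_iff.1 hb
  exact Function.ne_iff.2 ⟨(i, j), mul_ne_zero hi hj⟩

theorem PMap.tns {f' : M.X → ι' → ℂ} (h : PMap M f) (h' : PMap M f') :
    PMap M fun x => tns (f x) (f' x) :=
  ⟨fun x => tns_ne (h.ne x) (h'.ne x), fun c hc z hz =>
    let ⟨_, a⟩ := h.ex c hc z hz
    let ⟨_, b⟩ := h'.ex c hc z hz
    ⟨_, a.tns b⟩⟩

end

/-! ### Calculus in coordinates -/

/-- The complex Hessian of the logarithm of the squared norm of a holomorphic map. -/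
def St_LG : Prop := ∀ (n : ℕ) (ι : Type) [Fintype ι] (A : E n → ι → ℂ) (z : E n), HolN A z →
  ContDiffAt ℝ ∞ (fun w => nsq (A w)) z ∧
  (A z = 0 → ∀ g : E n → ℝ, ContDiffAt ℝ ∞ g z → ∀ v,
    nq (hess (fun w => ((nsq (A w) * g w : ℝ) : ℂ)) z) v = nsq (fderiv ℂ A z v) * g z) ∧
  (A z ≠ 0 → ContDiffAt ℝ ∞ (lg A) z ∧ ∀ v, nq (hess (lg A) z) v =
    (nsq (A z) * nsq (fderiv ℂ A z v) -
      normSq (∑ i, fderiv ℂ A z v i * star (A z i))) / nsq (A z) ^ 2)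

/-- Rescaling, tensor products and powers. -/
def St_LG2 : Prop := ∀ (n : ℕ) (ι : Type) [Fintype ι] (A : E n → ι → ℂ) (z : E n), HolN A z →
  A z ≠ 0 →
  (∀ (μ : E n → ℂ) (B : E n → ι → ℂ), HolN μ z → μ z ≠ 0 → (∀ᶠ w in 𝓝 z, B w = μ w • A w) →
    hess (lg B) z = hess (lg A) z) ∧
  (∀ (ι' : Type) [Fintype ι'] (B : E n → ι' → ℂ), HolN B z → B z ≠ 0 →
    hess (lg fun w => tns (A w) (B w)) z = hess (lg A) z + hess (lg B) z) ∧
  (∀ m : ℕ, hess (lg fun w (β : Fin m → ι) => ∏ b, A w (β b)) z = (m : ℝ) • hess (lg A) z) ∧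
  (Subsingleton ι → hess (lg A) z = 0)

/-- The logarithm of a sum. -/
def St_LSE : Prop := ∀ (n : ℕ) (A b : E n → ℝ) (z v : E n), ContDiffAt ℝ ∞ A z →
  ContDiffAt ℝ ∞ b z → (∀ᶠ w in 𝓝 z, 0 ≤ A w) →
  (A z = 0 → nq (hess (fun w => (b w : ℂ)) z) v ≤
    nq (hess (fun w => (Real.log (A w + Real.exp (b w)) : ℝ)) z) v) ∧
  (0 < A z → A z * nq (hess (fun w => (Real.log (A w) : ℝ)) z) v +
      Real.exp (b z) * nq (hess (fun w => (b w : ℂ)) z) v ≤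
    (A z + Real.exp (b z)) * nq (hess (fun w => (Real.log (A w + Real.exp (b w)) : ℝ)) z) v)

/-- A polynomial that is small along a local biholomorphism vanishes to high order. -/
def St_KR2 : Prop := ∀ (m k : ℕ) (ψ : E m → E m) (u₀ : E m) (q : MvPolynomial (Fin m) ℂ),
  HolN ψ u₀ → ψ u₀ = 0 → Function.Injective (fderiv ℂ ψ u₀) →
  (fun u => eval (ψ u) q) =O[𝓝 u₀] (fun u => ‖u - u₀‖ ^ k) →
    q ∈ RingHom.ker (eval (0 : Fin m → ℂ)) ^ k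

/-- A polynomial that vanishes on a germ of the manifold lies locally in the ideal. -/
def St_KRU : Prop := ∀ (ρ n : ℕ) (p : Fin ρ → Pol (ρ + n)) (Φ : E (n + 1) → Fin (ρ + n + 1) → ℂ)
  (u₀ : E (n + 1)), HolN Φ u₀ → Function.Injective (fderiv ℂ Φ u₀) →
  (∀ᶠ u in 𝓝 u₀, ∀ r, eval (Φ u) (p r) = 0) →
  (LinearIndependent ℂ fun r j => eval (Φ u₀) (pderiv j (p r))) →
    ∀ g : Pol (ρ + n), (∀ᶠ u in 𝓝 u₀, eval (Φ u) g = 0) →
      ∃ δ : Pol (ρ + n), eval (Φ u₀) δ ≠ 0 ∧ δ * g ∈ Ideal.span (range p)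

/-- Tangent vectors in the sense of Zariski. -/
def St_ZAR : Prop := ∀ (n N r : ℕ) (F : E n → Fin (N + 1) → ℂ) (z v : E n) (i : Fin (N + 1))
  (g : Fin r → Pol N) (f₀ : Pol N), HolN F z → (∀ᶠ w in 𝓝 z, F w i = 1) →
  (∀ a, eval (F z) (g a) = 0) → eval (F z) f₀ ≠ 0 →
  (∀ a, fderiv ℂ (fun w => eval (F w) (f₀ * g a)) z v = 0) →
    ∀ q ∈ Ideal.span (insert (X i - 1) (range g)), fderiv ℂ (fun w => eval (F w) q) z v = 0

/-- The Levi form in a direction tangent to the subvariety. -/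
def St_TAN : Prop := ∀ (ρ n e : ℕ) (Λ : Type) (G : Λ → Pol (ρ + n)) (P : Ideal (Pol (ρ + n)))
  (I : Fin ρ → Λ) (T₀ : Ix ρ n) (a w : ℕ)
  (R : (Fin w → Fin (ρ + n + 1)) → MvPolynomial (Ix ρ n × Fin (ρ + n + 1)) ℂ) (σ τ : Pol (ρ + n))
  (F : E n → Fin (ρ + n + 1) → ℂ) (z : E n), (∀ l, (G l).IsHomogeneous e) →
  Sc G P I T₀ a w R σ τ → HolN F z → F z ≠ 0 → gv F z ≠ 0 →
  (∀ᶠ x in 𝓝 z, ∀ l, eval (F x) (G l) = 0) → (∀ q ∈ P, eval (F z) q = 0) →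
  eval (F z) (σ * τ * bm G I T₀) ≠ 0 →
    (fun β => eval (tns (gv F z) (F z)) (R β)) ≠ 0 ∧
    ∀ v, (∀ q ∈ P, fderiv ℂ (fun x => eval (F x) q) z v = 0) →
      nq (hess (lg fun x β => eval (tns (gv F x) (F x)) (R β)) z) v = w * nq (hess (lg F) z) v

/-- A rational curve has base point free parametrisations near both ends. -/
def St_POL : Prop := ∀ (N e : ℕ) (Λ : Type) (G : Λ → Pol N) (x : Fin (N + 1) → ℂ) (D : ℕ),
  (∀ l, (G l).IsHomogeneous e) → RatCurve G x D → ∃ p q : ℂ → Fin (N + 1) → ℂ,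
    Differentiable ℂ p ∧ Differentiable ℂ q ∧ (∀ t, p t ≠ 0 ∧ q t ≠ 0) ∧
    (∀ t l, eval (p t) (G l) = 0 ∧ eval (q t) (G l) = 0) ∧
    (∀ t, t ≠ 0 → ∃ a : ℂ, q t = a • p t⁻¹) ∧ ∃ t, ∀ a : ℂ, p t ≠ a • p 0

/-! ### Manifolds -/

/-- Two lifts at the same point. -/
def St_CMP : Prop := ∀ (n : ℕ) (M : Mf n) (ι : Type) [Fintype ι] (f : M.X → ι → ℂ) (c c' : M.Ch)
  (z z' : E n) (F F' : E n → ι → ℂ), (∀ x, f x ≠ 0) → Lift M f c z F → HolN (gv F) z ∧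
  (Lift M f c' z' F' → c.symm z = c'.symm z' → ∃ μ : E n → ℂ, HolN μ z' ∧ μ z' ≠ 0 ∧
    (∀ᶠ w in 𝓝 z', F' w = μ w • F (c (c'.symm w))) ∧
    gv F' z' = (μ z' ^ (n + 1) * (M.J c c' (c'.symm z')).det) • gv F z)

/-- The form of Fubini and Study. -/
def St_FS : Prop := ∀ (n : ℕ) (M : Mf n) (ι : Type) [Fintype ι] (f : M.X → ι → ℂ), PMap M f →
  M.Clo (fs M f) ∧ ∀ c z F, Lift M f c z F → fs M f c z = hess (lg F) z

/-- The Kähler metric and the Gauss map of an immersion. -/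
def St_GAU : Prop := ∀ (n : ℕ) (M : Mf n) (ι : Type) [Fintype ι] (f : M.X → ι → ℂ), PMap M f →
  (∀ c z F, Lift M f c z F → ∀ (t : ℂ) (v : E n), fderiv ℂ F z v = t • F z → v = 0) →
    M.Kae (fs M f) ∧ ∃ γ, Gau M f γ

/-- Adjunction. -/
def St_ADJ : Prop := ∀ (n : ℕ) (M : Mf n) (ι : Type) [Fintype ι] (f : M.X → ι → ℂ)
  (γ : M.X → (Fin (n + 1) → ι) → ℂ), PMap M f → Gau M f γ → M.Met (fs M f) →
    ∃ ψ, M.Sm ψ ∧ M.All fun c z =>
      -M.ric (fs M f) c z = fs M γ c z - ((n : ℝ) + 1) • fs M f c z + M.hs ψ c z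

/-- The squared norm of a family of forms. -/
def St_PHI : Prop := ∀ (n : ℕ) (M : Mf n) (ι κ : Type) [Fintype ι] [Fintype κ] (f : M.X → ι → ℂ)
  (p : κ → MvPolynomial ι ℂ) (d : ℕ), PMap M f → (∀ k, (p k).IsHomogeneous d) →
  M.Sm (ph f p d) ∧ (∀ x, 0 ≤ ph f p d x) ∧ (∀ x, ph f p d x = 0 ↔ ∀ k, eval (f x) (p k) = 0) ∧
  ∀ c z F, Lift M f c z F →
    (ph f p d (c.symm z) = 0 ↔ ∀ k, eval (F z) (p k) = 0) ∧
    (ph f p d (c.symm z) ≠ 0 → M.hs (fun x => Real.log (ph f p d x)) c z =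
      hess (lg fun w k => eval (F w) (p k)) z - (d : ℝ) • fs M f c z) ∧
    (ph f p d (c.symm z) = 0 → ∀ v, nq (M.hs (ph f p d) c z) v = 0 →
      ∀ k, fderiv ℂ (fun w => eval (F w) (p k)) z v = 0)

/-- Compactness. -/
def St_CPT : Prop := ∀ (n : ℕ) (M : Mf n) [M.Cpt] (Q : M.Fam (Mat n)), M.Form Q →
  IsOpen {x | ∀ c ∈ M.C, x ∈ c.source → (Q c (c x)).PosDef} ∧
  ∀ (B : M.Fam (Mat n)) (K : Set M.X), M.Form B → IsClosed K →
    (M.All fun c z => c.symm z ∈ K → (B c z).PosSemidef ∧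
      ∀ v, v ≠ 0 → nq (B c z) v = 0 → 0 < nq (Q c z) v) →
    ∃ C : ℝ, M.All fun c z => c.symm z ∈ K → (Q c z + C • B c z).PosDef

/-- Gluing. -/
def St_GLU : Prop := ∀ (n : ℕ) (M : Mf n) [M.Cpt] (H θ : M.Fam (Mat n)) (V : Set M.X)
  (Φ Ψ u : M.X → ℝ) (a : ℝ), M.Met H → M.Form θ → IsClosed V → M.Sm Φ → M.Sm Ψ →
  (∀ x, 0 ≤ Φ x) → (∀ x, 0 ≤ Ψ x) → (∀ x ∈ V, Ψ x = 0) → 0 < a →
  Good M θ u (V ∩ {x | Φ x = 0}) →
  (M.All fun c z => c.symm z ∈ V → Φ (c.symm z) ≠ 0 → ∀ v, nq (M.hs Ψ c z) v = 0 →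
    nq (H c z) v ≤ nq (a • θ c z + M.hs (fun x => Real.log (Φ x)) c z) v) →
    ∃ u', Good M θ u' V

/-- The step of the Noetherian induction. -/
def St_STP : Prop := ∀ (ρ n e : ℕ) (M : Mf n) [M.Cpt] (Λ : Type) [Fintype Λ] (G : Λ → Pol (ρ + n))
  (f : M.X → Fin (ρ + n + 1) → ℂ) (γ : M.X → Ix ρ n → ℂ) (ε : ℝ) (S : Set (Pol (ρ + n))),
  Prj M e G f → Alg ρ e G → NoRat G → Gau M f γ → M.Met (fs M f) → 0 < ε →
  (∀ s ∈ S, ∃ d, s.IsHomogeneous d) → (Zs f S).Nonempty →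
    ∃ (f₀ : Pol (ρ + n)) (d : ℕ), f₀.IsHomogeneous d ∧ f₀ ∉ Ideal.span S ∧
      ∀ u, Good M (fs M γ - ((n : ℝ) + 1 - ε) • fs M f) u (Zs f (insert f₀ S)) →
        ∃ u', Good M (fs M γ - ((n : ℝ) + 1 - ε) • fs M f) u' (Zs f S)

/-- The equations define a smooth scheme. -/
def St_ALG : Prop := ∀ (ρ n e : ℕ) (M : Mf n) (Λ : Type) [Fintype Λ] (G : Λ → Pol (ρ + n))
  (f : M.X → Fin (ρ + n + 1) → ℂ), Prj M e G f → Alg ρ e G

/-- The inverse of the embedding is holomorphic. -/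
def St_INV : Prop := ∀ (ρ n e : ℕ) (M : Mf n) [M.Cpt] (Λ : Type) (G : Λ → Pol (ρ + n))
  (f : M.X → Fin (ρ + n + 1) → ℂ) (p : ℂ → Fin (ρ + n + 1) → ℂ) (φ : ℂ → M.X), Prj M e G f →
  Differentiable ℂ p → (∀ t, ∃ a : ℂ, a ≠ 0 ∧ p t = a • f (φ t)) → HolC M φ

/-- A holomorphic sphere in a manifold of non-positive holomorphic sectional curvature is a
point. -/
def St_LIO : Prop := ∀ (n : ℕ) (M : Mf n) (h : M.Fam (Mat n)) (φ ψ : ℂ → M.X), M.Met h →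
  M.Hsc h → HolC M φ → HolC M ψ → (∀ t, t ≠ 0 → ψ t = φ t⁻¹) → ∀ t, φ t = φ 0

/-- From the statement to the manifold layer. -/
def St_BR : Prop := ∀ (n : ℕ) (X : Type) [TopologicalSpace X] [ChartedSpace (E n) X]
  [IsManifold 𝓘(ℂ, E n) ω X], Projective n X → ∃ (ρ r e : ℕ) (G : Fin r → Pol (ρ + n))
    (f : X → Fin (ρ + n + 1) → ℂ), Prj (HS.BBR.mf n X) e G f

/-- The theorem. -/
def St_MAIN : Prop := ∀ (ρ n e : ℕ) (M : Mf n) [M.Cpt] (Λ : Type) [Fintype Λ]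
  (G : Λ → Pol (ρ + n)) (f : M.X → Fin (ρ + n + 1) → ℂ) (h : M.Fam (Mat n)), Prj M e G f →
  M.Met h → M.Hsc h → M.Kae (fs M f) ∧ ∀ ε : ℝ, 0 < ε → ∃ w, M.Sm w ∧
    M.All fun c z => (M.gE (fs M f) ε w c z).PosDef

end Pool.Agent.Lib.PN
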