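import Pool.Agent.Lib.PN.Blue

/-! Project pn: small tools shared by the analytic blocks. -/

open scoped Classical Topology ContDiff ComplexOrder Matrix
open Set Complex Filter MvPolynomial

noncomputable section

namespace Pool.Agent.Lib.PN

open Pool.Agent.Lib.SV (E nsq)
open Pool.Agent.Lib.HS32 Pool.Agent.Lib.MP_7fcda1_ag

variable {n : ℕ} {ι ι' : Type}

theorem eval_smul_hom {p : MvPolynomial ι ℂ} {d : ℕ} (hp : p.IsHomogeneous d) (a : ℂ)
    (y : ι → ℂ) : eval (a • y) p = a ^ d * eval y p := by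
  simpa only [aeval_eq_eval] using plc1_aeval_smul (k := ℂ) hp a y

variable [Fintype ι] [Fintype ι'] {F : E n → ι → ℂ} {z : E n}

theorem nsq_nn (v : ι → ℂ) : 0 ≤ nsq v := Finset.sum_nonneg fun _ _ => normSq_nonneg _

theorem nsq_eq_zero {v : ι → ℂ} : nsq v = 0 ↔ v = 0 := by
  rw [nsq, Finset.sum_eq_zero_iff_of_nonneg fun _ _ => normSq_nonneg _]
  simp [funext_iff]

theorem nsq_pos {v : ι → ℂ} (h : v ≠ 0) : 0 < nsq v :=
  (nsq_nn v).lt_of_ne' (mt nsq_eq_zero.1 h)

theorem nsq_smul (a : ℂ) (v : ι → ℂ) : nsq (a • v) = normSq a * nsq v := by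
  simp [nsq, Finset.mul_sum]

theorem nsq_tns (a : ι → ℂ) (b : ι' → ℂ) : nsq (tns a b) = nsq a * nsq b := by
  simp [nsq, tns, Fintype.sum_prod_type, Finset.sum_mul_sum]

theorem holN_ne (h : HolN F z) (h0 : F z ≠ 0) : ∀ᶠ w in 𝓝 z, F w ≠ 0 :=
  h.self_of_nhds.continuousAt.eventually_ne h0

theorem holN_fderiv (h : HolN F z) (a : Fin n) :
    HolN (fun w => fderiv ℂ F w (Pi.single a 1)) z := by
  refine holN_pi fun i => ?_
  have h1 := ((mHOL n _ z).2.2 (holN_apply h i)).2.1 a
  have h2 : ∀ᶠ w in 𝓝 z, dz a (fun w => F w i) w = fderiv ℂ F w (Pi.single a 1) i := by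
    filter_upwards [h] with w hw
    rw [(mHOL n _ w).2.1 (differentiableAt_pi.1 hw i), fderiv_apply hw]
    rfl
  filter_upwards [h1, h2.eventually_nhds] with w a b
  exact a.congr_of_eventuallyEq (EventuallyEq.symm b)

theorem holN_gv (h : HolN F z) : HolN (gv F) z := by
  refine holN_pi fun T => ?_
  have h1 : ∀ a j, HolN (fun w => (Fin.cons (F w) fun a => fderiv ℂ F w (Pi.single a 1) :
      Fin (n + 1) → ι → ℂ) a j) z := fun a j =>
    Fin.cases (holN_apply h j) (fun a => holN_apply (holN_fderiv h a) j) a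
  filter_upwards [eventually_all.2 fun a => eventually_all.2 (h1 a)] with w hw
  simp only [gv, pl, Matrix.det_apply', Matrix.of_apply]
  exact DifferentiableAt.fun_sum fun s _ =>
    (HasFDerivAt.finsetProd fun i _ => (hw _ _).hasFDerivAt).differentiableAt.const_mul _

/-- The chain rule for a polynomial along a holomorphic map. -/
theorem fderiv_eval (h : DifferentiableAt ℂ F z) (p : MvPolynomial ι ℂ) (v : E n) :
    DifferentiableAt ℂ (fun w => eval (F w) p) z ∧ fderiv ℂ (fun w => eval (F w) p) z v =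
      ∑ j, eval (F z) (pderiv j p) * fderiv ℂ F z v j := by
  induction p using MvPolynomial.induction_on with
  | C a => simp
  | add p q hp hq =>
    simp only [map_add, add_mul, Finset.sum_add_distrib]
    exact ⟨hp.1.fun_add hq.1, by rw [fderiv_fun_add hp.1 hq.1, add_apply, hp.2, hq.2]⟩
  | mul_X p i hp =>
    have h1 := differentiableAt_pi.1 h i
    simp only [map_mul, eval_X, Derivation.leibniz, smul_eq_mul, map_add, add_mul,
      Finset.sum_add_distrib, pderiv_X]
    refine ⟨hp.1.fun_mul h1, ?_⟩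
    rw [fderiv_fun_mul hp.1 h1, add_apply, smul_apply, smul_apply, hp.2, fderiv_apply h,
      smul_eq_mul, smul_eq_mul, Finset.mul_sum]
    congr 1
    · simp [Pi.single_apply, apply_ite (eval (F z))]
    · exact Finset.sum_congr rfl fun j _ => (mul_assoc _ _ _).symm

theorem nq_add (A B : Mat n) (v : E n) : nq (A + B) v = nq A v + nq B v := by
  simp [nq, Matrix.add_mulVec]

theorem nq_sub (A B : Mat n) (v : E n) : nq (A - B) v = nq A v - nq B v := by
  simp [nq, Matrix.sub_mulVec]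

theorem nq_smul (c : ℝ) (A : Mat n) (v : E n) : nq (c • A) v = c * nq A v := by
  simp [nq, Matrix.smul_mulVec]

theorem nq_nonneg {A : Mat n} (h : A.PosSemidef) (v : E n) : 0 ≤ nq A v :=
  (Complex.nonneg_iff.1 (h.dotProduct_mulVec_nonneg v)).1

theorem nq_pos {A : Mat n} (h : A.PosDef) {v : E n} (hv : v ≠ 0) : 0 < nq A v :=
  (Complex.pos_iff.1 (h.dotProduct_mulVec_pos hv)).1

theorem pd_of_nq {A : Mat n} (h : A.IsHermitian) (h0 : ∀ v, v ≠ 0 → 0 < nq A v) : A.PosDef := by
  refine Matrix.PosDef.of_dotProduct_mulVec_pos h fun v hv => Complex.pos_iff.2 ⟨h0 v hv, ?_⟩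
  have h1 : star (star v ⬝ᵥ A *ᵥ v) = star v ⬝ᵥ A *ᵥ v := by
    rw [← Matrix.star_dotProduct, Matrix.star_mulVec, h.eq, ← Matrix.dotProduct_mulVec]
  exact (Complex.conj_eq_iff_im.1 h1).symm

end Pool.Agent.Lib.PN
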