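import Pool.Agent.Lib.PN.Kit

/-! Project pn: two lifts at the same point. -/

open scoped Classical Topology Matrix
open Set Complex Filter

noncomputable section

namespace Pool.Agent.Lib.PN

open Pool.Agent.Lib.SV (E)
open Pool.Agent.Lib.HS32 Pool.Agent.Lib.MP_7fcda1_ag

namespace X81

theorem pl_tri {n : ℕ} {ι : Type} (m : ℂ) (d : Fin n → ℂ) (J : Mat n) (y : ι → ℂ)
    (w : Fin n → ι → ℂ) :
    pl (Fin.cons (m • y) fun a => m • ∑ b, J b a • w b + d a • y : Fin (n + 1) → ι → ℂ) =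
      (m ^ (n + 1) * J.det) • pl (Fin.cons y w : Fin (n + 1) → ι → ℂ) := by
  let A : Matrix (Fin (n + 1)) (Fin (n + 1)) ℂ := Matrix.of
    (Fin.cons (Fin.cons m 0) fun a => Fin.cons (d a) fun b => m * J b a)
  have e : A.det = m ^ (n + 1) * J.det := by
    have s : A.submatrix Fin.succ Fin.succ = m • Jᵀ := by
      ext a b
      simp [A]
    rw [Matrix.det_succ_row_zero, Fin.sum_univ_succ, Fin.succAbove_zero, s, Matrix.det_smul,
      Matrix.det_transpose, Fintype.card_fin]
    simp [A, pow_succ', mul_assoc]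
  rw [← e, ← pl_mul]
  refine congrArg pl (funext fun s => ?_)
  refine Fin.cases ?_ (fun a => ?_) s
  · simp [A, Fin.sum_univ_succ]
  · simp [A, Fin.sum_univ_succ, Finset.smul_sum, mul_smul, add_comm]

end X81

theorem st_CMP : St_CMP := by
  intro n M ι _ f c c' z z' F F' hf h
  refine ⟨holN_gv h.hol, fun h' e => ?_⟩
  have s' := c'.map_target h'.tgt
  have s : c'.symm z' ∈ c.source := e ▸ c.map_target h.tgt
  obtain ⟨t1, -, -, t2, -⟩ := (mTR n M).2.1 c h.mem c' h'.mem _ s s'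
  rw [c'.right_inv h'.tgt] at t1 t2
  have p : c (c'.symm z') = z := by rw [← e, c.right_inv h.tgt]
  have ct : Tendsto (fun w => c (c'.symm w)) (𝓝 z') (𝓝 z) := p ▸ t1.self_of_nhds.continuousAt
  have hG : HolN (fun w => F (c (c'.symm w))) z' := by
    filter_upwards [t1, ct.eventually h.hol] with w a b using b.comp w a
  obtain ⟨j, hj⟩ := Function.ne_iff.1 (h.ne hf)
  have nz : ∀ᶠ w in 𝓝 z', F (c (c'.symm w)) j ≠ 0 :=
    (holN_apply hG j).self_of_nhds.continuousAt.eventually_ne (by rw [p]; exact hj)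
  have hμ : HolN (fun w => F' w j / F (c (c'.symm w)) j) z' := by
    filter_upwards [holN_apply h'.hol j, holN_apply hG j, nz] with w a b d
    simpa only [div_eq_mul_inv] using a.fun_mul (b.fun_inv d)
  have ev : ∀ᶠ w in 𝓝 z', F' w = (F' w j / F (c (c'.symm w)) j) • F (c (c'.symm w)) := by
    filter_upwards [h'.ev, ct.eventually h.ev, nz, t2] with w ⟨a, _, a1⟩ ⟨b, hb, b1⟩ d t
    rw [t.2.2.2.2.1] at b1
    rw [b1, Pi.smul_apply, smul_eq_mul] at d
    rw [b1, a1, smul_smul, Pi.smul_apply, Pi.smul_apply, smul_eq_mul, smul_eq_mul,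
      mul_div_mul_right _ _ (right_ne_zero_of_mul d), div_mul_cancel₀ _ hb]
  obtain ⟨μ, hm⟩ : ∃ μ : E n → ℂ, μ = fun w => F' w j / F (c (c'.symm w)) j := ⟨_, rfl⟩
  have ev' : F' =ᶠ[𝓝 z'] fun w => μ w • F (c (c'.symm w)) := hm ▸ ev
  rw [← hm] at hμ
  have e0 : F' z' = μ z' • F z := ev'.self_of_nhds.trans (by beta_reduce; rw [p])
  refine ⟨μ, hμ, fun k => h'.ne hf (by rw [e0, k, zero_smul]), ev', ?_⟩
  have d1 : ∀ a, fderiv ℂ F' z' (Pi.single a 1) =
      μ z' • ∑ b, M.J c c' (c'.symm z') b a • fderiv ℂ F z (Pi.single b 1) +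
        fderiv ℂ μ z' (Pi.single a 1) • F z := fun a => by
    have k : fderiv ℂ (fun w => F (c (c'.symm w))) z' = (fderiv ℂ F z).comp
        (fderiv ℂ (c ∘ c'.symm) z') := by
      have := fderiv_comp z' (f := c ∘ c'.symm) (g := F)
        (by rw [Function.comp_apply, p]; exact h.hol.self_of_nhds) t1.self_of_nhds
      rwa [Function.comp_apply, p] at this
    rw [ev'.fderiv_eq, fderiv_fun_smul hμ.self_of_nhds hG.self_of_nhds, k, p,
      t2.self_of_nhds.2.2.2.2.2.2]
    have q : fderiv ℂ (c ∘ c'.symm) z' (Pi.single a 1) =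
        ∑ b, jm (c ∘ c'.symm) z' b a • (Pi.single b 1 : E n) := by
      ext i
      simp [jm, Pi.single_apply]
    simp only [add_apply, smul_apply, ContinuousLinearMap.comp_apply,
      ContinuousLinearMap.smulRight_apply, q, map_smul, map_sum]
  simp only [gv, e0, d1]
  exact X81.pl_tri _ _ _ _ _

end Pool.Agent.Lib.PN
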