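import Pool.Agent.Lib.PN.Blue

/-! Project pn, row FS: the pull-back of the form of Fubini and Study. -/

open scoped Classical Topology ContDiff ComplexOrder Matrix
open Set Complex Filter

namespace Pool.Agent.Lib.PN

open Pool.Agent.Lib.SV (E nsq)
open Pool.Agent.Lib.HS32

theorem st_FS (hLG : St_LG) (hLG2 : St_LG2) (hCMP : St_CMP) : St_FS := by
  intro n M ι _ f hf
  have sm : ∀ {c z F}, Lift M f c z F → ContDiffAt ℝ ∞ (lg F) z := fun h =>
    ((hLG n ι _ _ h.hol).2.2 (h.ne hf.ne)).1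
  have cmp : ∀ {c c' x F F'}, x ∈ c.source → x ∈ c'.source → Lift M f c (c x) F →
      Lift M f c' (c' x) F' →
      hess (lg F') (c' x) = (M.J c c' x)ᴴ * hess (lg F) (c x) * M.J c c' x := by
    intro c c' x F F' hx hx' h h'
    obtain ⟨μ, m1, m2, m3, -⟩ := (hCMP n M ι f c c' _ _ F F' hf.ne h).2 h'
      (by rw [c.left_inv hx, c'.left_inv hx'])
    have t1 := ((mTR n M).2.1 c h.mem c' h'.mem x hx hx').1
    obtain ⟨c1, -, -, -, -, -, -, -, -, -, -, c12⟩ := mCHN n _ _ t1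
    have p : (c ∘ c'.symm) (c' x) = c x := by simp only [Function.comp_apply, c'.left_inv hx']
    have h1 : HolN (F ∘ (c ∘ c'.symm)) (c' x) := by
      filter_upwards [t1, c1.continuousAt.eventually (p ▸ h.hol :
        HolN F ((c ∘ c'.symm) (c' x)))] with w a b using b.comp w a
    have h2 := (hLG2 n ι _ _ h1 (by rw [Function.comp_apply, p]; exact h.ne hf.ne)).1 μ F' m1 m2 m3
    rw [h2, ← p]
    exact c12 (lg F) (p ▸ sm h)
  have eq : ∀ c z F, Lift M f c z F → fs M f c z = hess (lg F) z := fun c z F h => by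
    have h0 : ∃ F, Lift M f c z F := ⟨F, h⟩
    have e := c.right_inv h.tgt
    have hx := c.map_target h.tgt
    have := cmp (F := F) (F' := h0.choose) hx hx (by rwa [e]) (by rw [e]; exact h0.choose_spec)
    rw [(mTR n M).2.2.1 c h.mem _ hx, e] at this
    rw [fs, dif_pos h0, this]
    simp
  have ev : ∀ {c z F}, Lift M f c z F → ∀ᶠ w in 𝓝 z, fs M f c w = hess (lg F) w := fun h =>
    h.near.mono fun w hw => eq _ w _ hw
  refine ⟨⟨⟨⟨fun c hc z hz => ?_, fun c hc c' hc' x hx hx' => ?_⟩, fun c hc z hz => ?_⟩,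
    fun c hc z hz => ?_⟩, eq⟩
  · obtain ⟨F, h⟩ := hf.ex c hc z hz
    exact (smM_hess (sm h)).congr (ev h)
  · obtain ⟨F, h⟩ := hf.ex c hc _ (c.map_source hx)
    obtain ⟨F', h'⟩ := hf.ex c' hc' _ (c'.map_source hx')
    rw [eq _ _ _ h, eq _ _ _ h', cmp hx hx' h h']
  · obtain ⟨F, h⟩ := hf.ex c hc z hz
    rw [eq _ _ _ h]
    exact hess_herm (cd_re (sm h))
  · obtain ⟨F, h⟩ := hf.ex c hc z hz
    exact (clM_hess (sm h)).congr (ev h)

end Pool.Agent.Lib.PN
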