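import Pool.Agent.Lib.PN.Kit

/-! Project pn, row LG: the Hessian of the logarithm of the squared norm. -/

open scoped Classical Topology ContDiff ComplexOrder Matrix
open Set Complex Filter MvPolynomial

noncomputable section

namespace Pool.Agent.Lib.PN

open Pool.Agent.Lib.SV (E nsq)
open Pool.Agent.Lib.HS32 Pool.Agent.Lib.MP_7fcda1_ag

namespace LG28

variable {n : ℕ} {ι : Type} [Fintype ι] {A : E n → ι → ℂ} {z : E n}

theorem nsq_eq (v : ι → ℂ) : ((nsq v : ℝ) : ℂ) = ∑ k, v k * star (v k) := by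
  simp [nsq, Complex.mul_conj]

theorem cd_nsq (h : HolN A z) : ContDiffAt ℝ ∞ (fun w => nsq (A w)) z := by
  have h1 : ContDiffAt ℝ ∞ (fun w => ∑ k, A w k * star (A w k)) z :=
    ContDiffAt.sum fun k _ => ((mHOL n _ z).2.2 (holN_apply h k)).1.mul
      (cd_star ((mHOL n _ z).2.2 (holN_apply h k)).1)
  simpa only [← nsq_eq, ofReal_re] using cd_re h1

theorem dz_nsq (h : DifferentiableAt ℂ A z) (j : Fin n) :
    dz j (fun w => ((nsq (A w) : ℝ) : ℂ)) z = ∑ k, dz j (fun w => A w k) z * star (A z k) := by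
  have h1 := differentiableAt_pi.1 h
  have h2 : ∀ k, DifferentiableAt ℝ (fun w => A w k) z := fun k => (h1 k).restrictScalars ℝ
  simp only [nsq_eq]
  rw [dz_sum fun k _ => (h2 k).fun_mul (diff_star (h2 k))]
  refine Finset.sum_congr rfl fun k _ => ?_
  rw [dz_mul (h2 k) (diff_star (h2 k)), dz_star (h2 k), ((mHOL n _ z).1 (h2 k)).1 (h1 k) j,
    star_zero, mul_zero, add_zero]

theorem hess_nsq (h : HolN A z) (i j : Fin n) :
    hess (fun w => ((nsq (A w) : ℝ) : ℂ)) z i j =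
      ∑ k, dz j (fun w => A w k) z * star (dz i (fun w => A w k) z) := by
  have H := fun k => (mHOL n _ z).2.2 (holN_apply h k)
  have h1 := fun k => cd_diff (cd_dz (H k).1 j)
  have h2 := fun k => cd_diff (H k).1
  have e : dz j (fun w => ((nsq (A w) : ℝ) : ℂ)) =ᶠ[𝓝 z]
      fun w => ∑ k, dz j (fun w => A w k) w * star (A w k) := h.mono fun w hw => dz_nsq hw j
  rw [hess_apply, dzb_congr e, dzb_sum fun k _ => (h1 k).fun_mul (diff_star (h2 k))]
  refine Finset.sum_congr rfl fun k _ => ?_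
  rw [dzb_mul (h1 k) (diff_star (h2 k)), dzb_star (h2 k), ← hess_apply, (H k).2.2.1,
    Matrix.zero_apply, zero_mul, zero_add]

theorem sum_dz (h : DifferentiableAt ℂ A z) (v : E n) (k : ι) :
    ∑ j, dz j (fun w => A w k) z * v j = fderiv ℂ A z v k := by
  have h1 := differentiableAt_pi.1 h k
  have e : v = ∑ j, v j • (Pi.single j 1 : E n) := by
    funext a
    simp [Finset.sum_apply, Pi.single_apply]
  conv_rhs => rw [e, map_sum, Finset.sum_apply]
  refine Finset.sum_congr rfl fun j _ => ?_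
  rw [(mHOL n _ z).2.1 h1, fderiv_apply h, map_smul, Pi.smul_apply, smul_eq_mul, mul_comm]
  rfl

theorem form_hess (h : HolN A z) (v : E n) :
    star v ⬝ᵥ hess (fun w => ((nsq (A w) : ℝ) : ℂ)) z *ᵥ v = (nsq (fderiv ℂ A z v) : ℝ) := by
  simp only [nsq_eq (fderiv ℂ A z v), ← sum_dz h.self_of_nhds v, dotProduct, Matrix.mulVec,
    hess_nsq h, star_sum, Finset.mul_sum, Finset.sum_mul, Pi.star_apply, star_mul']
  symm
  rw [Finset.sum_comm]
  refine Finset.sum_congr rfl fun i _ => ?_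
  rw [Finset.sum_comm]
  exact Finset.sum_congr rfl fun j _ => Finset.sum_congr rfl fun k _ => by ring

theorem sum_dz_nsq (h : DifferentiableAt ℂ A z) (v : E n) :
    ∑ j, dz j (fun w => ((nsq (A w) : ℝ) : ℂ)) z * v j =
      ∑ k, fderiv ℂ A z v k * star (A z k) := by
  simp only [dz_nsq h, ← sum_dz h v, Finset.sum_mul]
  rw [Finset.sum_comm]
  exact Finset.sum_congr rfl fun j _ => Finset.sum_congr rfl fun k _ => by ring

theorem hess_lg (h : HolN A z) (h0 : A z ≠ 0) (i j : Fin n) :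
    hess (lg A) z i j = ((nsq (A z) : ℝ) : ℂ)⁻¹ * hess (fun w => ((nsq (A w) : ℝ) : ℂ)) z i j -
      star (dz i (fun w => ((nsq (A w) : ℝ) : ℂ)) z) * dz j (fun w => ((nsq (A w) : ℝ) : ℂ)) z /
        ((nsq (A z) : ℝ) : ℂ) ^ 2 := by
  have h1 := cd_ofReal (cd_nsq h)
  have h2 : ((nsq (A z) : ℝ) : ℂ) ≠ 0 := ofReal_ne_zero.2 (nsq_pos h0).ne'
  have e : dz j (lg A) =ᶠ[𝓝 z]
      fun w => ((nsq (A w) : ℝ) : ℂ)⁻¹ * dz j (fun w => ((nsq (A w) : ℝ) : ℂ)) w := by
    filter_upwards [cd_ev_diff (cd_nsq h), holN_ne h h0] with w a b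
    rw [← ofReal_inv]
    exact dz_comp_real (Real.hasDerivAt_log (nsq_pos b).ne') a
  have h3 : DifferentiableAt ℝ (fun w => ((nsq (A w) : ℝ) : ℂ)⁻¹) z := cd_diff (h1.inv h2)
  rw [hess_apply, dzb_congr e, dzb_mul h3 (cd_diff (cd_dz h1 j)),
    dzb_inv (cd_diff h1) h2, star_dz_ofReal (cd_diff h1), hess_apply]
  ring

end LG28

open LG28 in
theorem st_LG : St_LG := by
  intro n ι _ A z h
  have h1 := cd_ofReal (cd_nsq h)
  refine ⟨cd_nsq h, fun h0 g hg v => ?_, fun h0 => ⟨?_, fun v => ?_⟩⟩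
  · have e : ∀ j, dz j (fun w => ((nsq (A w) : ℝ) : ℂ)) z = 0 := fun j => by
      simp [dz_nsq h.self_of_nhds, h0]
    have e1 : dd (fun w => ((nsq (A w) : ℝ) : ℂ)) (fun w => (g w : ℂ)) z = 0 := by
      ext i j
      rw [dd_apply, ← star_dz_ofReal (cd_diff h1), e, star_zero, zero_mul, Matrix.zero_apply]
    have e2 : dd (fun w => (g w : ℂ)) (fun w => ((nsq (A w) : ℝ) : ℂ)) z = 0 := by
      ext i j
      rw [dd_apply, e, mul_zero, Matrix.zero_apply]
    simp only [ofReal_mul]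
    rw [hess_mul h1 (cd_ofReal hg), e1, e2, nsq_eq_zero.2 h0, ofReal_zero, zero_smul, zero_add,
      add_zero, add_zero, nq, Matrix.smul_mulVec, dotProduct_smul, form_hess h, smul_eq_mul,
      ← ofReal_mul, ofReal_re, mul_comm]
  · exact cd_ofReal ((cd_nsq h).log (nsq_pos h0).ne')
  · have h2 : ((nsq (A z) : ℝ) : ℂ) ≠ 0 := ofReal_ne_zero.2 (nsq_pos h0).ne'
    have e : star v ⬝ᵥ hess (lg A) z *ᵥ v =
        ((nsq (A z) : ℝ) : ℂ)⁻¹ * (star v ⬝ᵥ hess (fun w => ((nsq (A w) : ℝ) : ℂ)) z *ᵥ v) -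
        (∑ j, dz j (fun w => ((nsq (A w) : ℝ) : ℂ)) z * v j) *
          star (∑ j, dz j (fun w => ((nsq (A w) : ℝ) : ℂ)) z * v j) / ((nsq (A z) : ℝ) : ℂ) ^ 2 := by
      simp only [dotProduct, Matrix.mulVec, hess_lg h h0, star_sum, Finset.mul_sum,
        Finset.sum_mul, Finset.sum_div, Pi.star_apply, star_mul', ← Finset.sum_sub_distrib]
      exact Finset.sum_congr rfl fun i _ => Finset.sum_congr rfl fun j _ => by ring
    rw [nq, e, form_hess h, sum_dz_nsq h.self_of_nhds, star_def, Complex.mul_conj]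
    have h3 := (nsq_pos h0).ne'
    norm_cast
    field_simp

end Pool.Agent.Lib.PN
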