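import Pool.Agent.Lib.PN.Kit

/-! Project pn: rescaling, tensor products and powers. -/

open scoped Classical Topology ContDiff ComplexOrder Matrix
open Set Complex Filter MvPolynomial

noncomputable section

namespace Pool.Agent.Lib.PN

open Pool.Agent.Lib.SV (E nsq)
open Pool.Agent.Lib.HS32

theorem st_LG2 (hLG : St_LG) : St_LG2 := by
  intro n ι _ A z hA h0
  have s1 := ((hLG n ι A z hA).2.2 h0).1
  refine ⟨fun μ B hμ h1 hB => ?_, fun ι' _ B hB h1 => ?_, fun m => ?_, fun hs => ?_⟩
  · obtain ⟨a1, a2, -⟩ := ((mHOL n μ z).2.2 hμ).2.2.2 h1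
    have e : lg B =ᶠ[𝓝 z] fun w => ((Real.log (normSq (μ w)) : ℝ) : ℂ) + lg A w := by
      filter_upwards [hB, holN_ne hA h0, hμ.self_of_nhds.continuousAt.eventually_ne h1]
        with w a b c
      rw [lg, lg, a, nsq_smul, Real.log_mul (normSq_pos.2 c).ne' (nsq_pos b).ne', ofReal_add]
    rw [hess_congr e, hess_add (cd_ofReal a1) s1, a2, zero_add]
  · have e : lg (fun w => tns (A w) (B w)) =ᶠ[𝓝 z] fun w => lg A w + lg B w := by
      filter_upwards [holN_ne hA h0, holN_ne hB h1] with w a b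
      rw [lg, lg, lg, nsq_tns, Real.log_mul (nsq_pos a).ne' (nsq_pos b).ne', ofReal_add]
    rw [hess_congr e, hess_add s1 ((hLG n ι' B z hB).2.2 h1).1]
  · have e : (lg fun w (β : Fin m → ι) => ∏ b, A w (β b)) = fun w => (m : ℂ) * lg A w := by
      funext w
      have h1 : nsq (fun β : Fin m → ι => ∏ b, A w (β b)) = nsq (A w) ^ m := by
        simp only [nsq, map_prod, Fintype.sum_pow]
      rw [lg, lg, h1, Real.log_pow]
      push_cast
      rfl
    rw [e, hess_const_mul _ s1]
    ext i j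
    simp
  · obtain ⟨i, hi⟩ := Function.ne_iff.1 h0
    have e : lg A = fun w => ((Real.log (normSq (A w i)) : ℝ) : ℂ) := funext fun w => by
      rw [lg, nsq, Fintype.sum_subsingleton _ i]
    rw [e]
    exact (((mHOL n _ z).2.2 (holN_apply hA i)).2.2.2 hi).2.1

end Pool.Agent.Lib.PN
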