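import Pool.Agent.Lib.PN.Kit

/-! From the statement to the manifold layer. -/

open scoped Classical Topology ContDiff ComplexOrder Matrix Manifold
open Set Complex Filter MvPolynomial

noncomputable section

namespace Pool.Agent.Lib.PN

open Pool.Agent.Lib.SV (E nsq)
open Pool.Agent.Lib.HS32 Pool.Agent.Lib.MP_7fcda1_ag Pool.Agent.Lib.UR.M

namespace BR1

variable {n : ℕ} {M : Mf n} {ι : Type} [Fintype ι] {f : M.X → ι → ℂ} {c c' : M.Ch} {z : E n}
  {F : E n → ι → ℂ}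

theorem tr (hc : c ∈ M.C) (hc' : c' ∈ M.C) (hz : z ∈ c'.target) (hx : c'.symm z ∈ c.source) :
    ∀ᶠ w in 𝓝 z, (w ∈ c'.target ∧ c'.symm w ∈ c.source) ∧ DifferentiableAt ℂ (c ∘ c'.symm) w := by
  have o := c'.isOpen_inter_preimage_symm c.open_source
  filter_upwards [o.mem_nhds ⟨hz, hx⟩] with w hw
  exact ⟨hw, (M.hol c hc c' hc').differentiableAt (o.mem_nhds hw)⟩

theorem move (hc' : c' ∈ M.C) (hz : z ∈ c'.target) (hx : c'.symm z ∈ c.source)
    (h : Lift M f c (c (c'.symm z)) F) : Lift M f c' z (F ∘ (c ∘ c'.symm)) := by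
  have h1 := tr h.mem hc' hz hx
  have h2 : Tendsto (c ∘ c'.symm) (𝓝 z) (𝓝 (c (c'.symm z))) := h1.self_of_nhds.2.continuousAt
  refine ⟨hc', hz, ?_, ?_⟩
  · filter_upwards [h1, h2.eventually h.hol] with w a b using b.comp w a.2
  · filter_upwards [h1, h2.eventually h.ev] with w a b
    rwa [Function.comp_apply, c.left_inv a.1.2] at b

theorem inj (hc : c ∈ M.C) (hc' : c' ∈ M.C) (hz : z ∈ c'.target) (hx : c'.symm z ∈ c.source)
    {v : E n} (hv : fderiv ℂ (c ∘ c'.symm) z v = 0) : v = 0 := by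
  have h1 := tr hc hc' hz hx
  have h2 := (tr hc' hc (c.map_source hx) (by
    rw [c.left_inv hx]
    exact c'.map_target hz)).self_of_nhds.2
  have h3 : (c' ∘ c.symm) ∘ (c ∘ c'.symm) =ᶠ[𝓝 z] id := h1.mono fun w a => by
    simp only [Function.comp_apply, c.left_inv a.1.2, c'.right_inv a.1.1, id]
  have h4 := congrArg (fun L => L v) (h3.fderiv_eq (𝕜 := ℂ))
  rw [fderiv_comp z h2 h1.self_of_nhds.2] at h4
  simpa [hv] using h4.symm

end BR1

open BR1 in
theorem st_BR (hCMP : St_CMP) : St_BR := by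
  rintro n X _ _ _ ⟨ρ, r, e, f', G, he, hG, hi, hl, hy⟩
  let M : Mf n := HS.BBR.mf n X
  let c : M.X → M.Ch := chartAt (M := X) (E n)
  have hc : ∀ x, c x ∈ M.C := fun x y =>
    ⟨HS.BBR.cp_chart (X := X) x y, HS.BBR.cp_chart (X := X) y x⟩
  have hs : ∀ x, x ∈ (c x).source := mem_chart_source (M := X) (E n)
  let f : M.X → Fin (ρ + n + 1) → ℂ := fun x => (f' x).rep
  have hf : ∀ x, f x ≠ 0 := fun x => (f' x).rep_nonzero
  have mk : ∀ x, Projectivization.mk ℂ (f x) (hf x) = f' x := fun x => (f' x).mk_rep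
  choose F hF hI using hl
  have hL : ∀ x, Lift M f (c x) (c x x) (F x) := fun x =>
    ⟨hc x, (c x).map_source (hs x), (hF x).mono fun _ a => a.1, (hF x).mono fun w ⟨_, a, b⟩ => by
      obtain ⟨u, hu⟩ := (Projectivization.mk_eq_mk_iff ℂ _ _ a (hf _)).1 (b.trans (mk _).symm)
      exact ⟨u, u.ne_zero, hu.symm⟩⟩
  have hz : ∀ x l, eval (f x) (G l) = 0 := fun x => (hy _ (hf x)).1.1 ⟨x, (mk x).symm⟩
  refine ⟨ρ, r, e, G, f, he, hG, ⟨hf, fun c' hc' z hz => ⟨_, move hc' hz (hs _) (hL _)⟩⟩,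
    fun c' z F' h t v hv => ?_, fun x x' a h => hi ?_, hz, fun y h0 h => ?_, fun x => ?_⟩
  · obtain ⟨μ, h1, h2, h3, -⟩ := (hCMP n M _ f _ c' _ z _ F' hf (hL (c'.symm z))).2 h
      ((c _).left_inv (hs _))
    have h4 := (tr (hc (c'.symm z)) h.mem h.tgt (hs _)).self_of_nhds.2
    have h5 : DifferentiableAt ℂ (F (c'.symm z)) ((c (c'.symm z) ∘ c'.symm) z) :=
      (hL _).hol.self_of_nhds
    have h6 : F' =ᶠ[𝓝 z] μ • (F (c'.symm z) ∘ (c (c'.symm z) ∘ c'.symm)) := h3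
    rw [h6.fderiv_eq, fderiv_smul h1.self_of_nhds (h5.comp z h4), fderiv_comp z h5 h4,
      h6.self_of_nhds] at hv
    refine inj (hc _) h.mem h.tgt (hs _) (hI (c'.symm z) (t - fderiv ℂ μ z v / μ z) _ ?_)
    refine smul_right_injective _ h2 ?_
    simp only [add_apply, smul_apply, ContinuousLinearMap.comp_apply,
      ContinuousLinearMap.smulRight_apply, Pi.smul_apply', Function.comp_apply] at hv
    refine (eq_sub_of_add_eq hv).trans ?_
    beta_reduce
    rw [smul_smul, smul_smul, ← sub_smul, mul_sub, mul_div_cancel₀ _ h2, mul_comm]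
    rfl
  · exact (mk x).symm.trans
      (((Projectivization.mk_eq_mk_iff' ℂ _ _ _ _).2 ⟨a, h.symm⟩).trans (mk x'))
  · obtain ⟨x, hx⟩ := (hy y h0).1.2 h
    obtain ⟨a, ha⟩ := (Projectivization.mk_eq_mk_iff' ℂ _ _ _ _).1 (hx.symm.trans (mk x).symm)
    exact ⟨x, a, ha.symm⟩
  · have h1 := (hy _ (hf x)).2 (hz x)
    rw [Matrix.rank_eq_finrank_span_row] at h1
    obtain ⟨g, h2, -, h3⟩ := Submodule.exists_fun_fin_finrank_span_eq ℂ
      (range (Matrix.of fun l j => eval (f x) (pderiv j (G l))).row)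
    choose I hI using h2
    have h4 : LinearIndependent ℂ fun r j => eval (f x) (pderiv j (G (I (Fin.cast h1.symm r)))) :=
      (funext hI ▸ h3 : LinearIndependent ℂ fun r j => eval (f x) (pderiv j (G (I r)))).comp _
        (Fin.cast_injective _)
    obtain ⟨S, hS⟩ := Function.ne_iff.1 (pl_ne_zero_iff.2 h4)
    refine ⟨fun r => I (Fin.cast h1.symm r), S, fun h0 => hS ?_⟩
    rw [amin_eq] at h0
    exact (congrFun (pl_map (eval (f x)) _) S).trans h0

end Pool.Agent.Lib.PN
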