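import Pool.Agent.Lib.PN.ABlue

/-! Project pn: duality of Pluecker coordinates. -/

open Set
open scoped Matrix

noncomputable section

namespace Pool.Agent.Lib.PN

open Pool.Agent.Lib.MP_7fcda1_ag

namespace DET33

variable {K : Type} [Field K] {ρ n : ℕ}

theorem ext {r q m : ℕ} (h : r + q = m) {w : Fin r → Fin m → K} (hw : LinearIndependent K w) :
    ∃ T : Fin q → Fin m, ∀ v : Fin m → K, (∀ i, ∑ j, w i j * v j = 0) → (∀ t, v (T t) = 0) →
      v = 0 := by
  classical
  obtain ⟨f, hf⟩ := Function.ne_iff.1 (pl_ne_zero_iff.2 hw)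
  have hi : Function.Injective f := fun a b hab => by
    by_contra hne
    exact hf (Matrix.det_zero_of_column_eq hne fun k => by simp only [Matrix.of_apply, hab])
  have hc : (Finset.univ.map ⟨f, hi⟩)ᶜ.card = q := by
    rw [Finset.card_compl, Finset.card_map, Finset.card_univ, Fintype.card_fin, Fintype.card_fin]
    omega
  refine ⟨(Finset.univ.map ⟨f, hi⟩)ᶜ.orderEmbOfFin hc, fun v h1 h2 => ?_⟩
  have h3 : ∀ j, j ∉ Finset.univ.map ⟨f, hi⟩ → v j = 0 := fun j hj => by
    have : j ∈ range ((Finset.univ.map ⟨f, hi⟩)ᶜ.orderEmbOfFin hc) := by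
      rw [Finset.range_orderEmbOfFin]
      exact Finset.mem_coe.2 (Finset.mem_compl.2 hj)
    obtain ⟨t, rfl⟩ := this
    exact h2 t
  have h4 : (fun a => v (f a)) = 0 := by
    refine Matrix.eq_zero_of_mulVec_eq_zero hf (funext fun i => ?_)
    rw [Pi.zero_apply, ← h1 i, ← Finset.sum_subset (Finset.subset_univ (Finset.univ.map ⟨f, hi⟩))
      fun j _ hj => by rw [h3 j hj, mul_zero], Finset.sum_map]
    rfl
  funext j
  by_cases hj : j ∈ Finset.univ.map ⟨f, hi⟩
  · obtain ⟨a, -, rfl⟩ := Finset.mem_map.1 hj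
    exact congrFun h4 a
  · exact h3 j hj

/-- The square matrix with the given rows. -/
def mx (A : Fin ρ → Fin (ρ + n + 1) → K) (B : Fin (n + 1) → Fin (ρ + n + 1) → K) :
    Matrix (Fin ρ ⊕ Fin (n + 1)) (Fin ρ ⊕ Fin (n + 1)) K :=
  Matrix.of fun a b => Sum.elim A B a (finSumFinEquiv (m := ρ) (n := n + 1) b)

theorem sm (F : Fin (ρ + n + 1) → K) :
    ∑ b, F (finSumFinEquiv (m := ρ) (n := n + 1) b) = ∑ j, F j :=
  Equiv.sum_comp (finSumFinEquiv (m := ρ) (n := n + 1)) F

theorem unt {m : ℕ} (i : Fin m) (v : Fin m → K) : ∑ j, (if j = i then 1 else 0) * v j = v i := by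
  simp

theorem mv (A : Fin ρ → Fin (ρ + n + 1) → K) (B : Fin (n + 1) → Fin (ρ + n + 1) → K)
    (v : Fin (ρ + n + 1) → K) (a : Fin ρ ⊕ Fin (n + 1)) :
    (mx A B *ᵥ fun b => v (finSumFinEquiv (m := ρ) (n := n + 1) b)) a =
      ∑ j, Sum.elim A B a j * v j :=
  sm fun j => Sum.elim A B a j * v j

theorem det_ne {A : Fin ρ → Fin (ρ + n + 1) → K} {B : Fin (n + 1) → Fin (ρ + n + 1) → K} :
    (mx A B).det ≠ 0 ↔ ∀ v : Fin (ρ + n + 1) → K, (∀ i, ∑ j, A i j * v j = 0) →
      (∀ i, ∑ j, B i j * v j = 0) → v = 0 := by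
  refine ⟨fun h v h1 h2 => funext fun j => ?_, fun h h0 => ?_⟩
  · have := Matrix.eq_zero_of_mulVec_eq_zero h (funext fun a => (mv A B v a).trans
      (by cases a; exacts [h1 _, h2 _]))
    have h3 := congrFun this ((finSumFinEquiv (m := ρ) (n := n + 1)).symm j)
    rwa [Equiv.apply_symm_apply] at h3
  · obtain ⟨u, hu, h1⟩ := Matrix.exists_mulVec_eq_zero_iff.2 h0
    have h2 := fun a => mv A B (fun j => u ((finSumFinEquiv (m := ρ) (n := n + 1)).symm j)) a
    simp only [Equiv.symm_apply_apply] at h2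
    have h3 := h _ (fun i => (h2 (Sum.inl i)).symm.trans (congrFun h1 _))
      fun i => (h2 (Sum.inr i)).symm.trans (congrFun h1 _)
    refine hu (funext fun b => ?_)
    have := congrFun h3 (finSumFinEquiv (m := ρ) (n := n + 1) b)
    rwa [Equiv.symm_apply_apply] at this

theorem key {J B : Fin ρ → Fin (ρ + n + 1) → K} {Θ : Fin (n + 1) → Fin (ρ + n + 1) → K}
    (h : ∀ r a, ∑ j, J r j * Θ a j = 0) (T : Ix ρ n) : dt J T * (mx B Θ).det =
      (Matrix.of fun r s => ∑ j, J r j * B s j).det * pl Θ T := by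
  have e : mx J (fun t j => if j = T t then 1 else 0) * (mx B Θ)ᵀ =
      Matrix.fromBlocks (Matrix.of fun r s => ∑ j, J r j * B s j) 0
        (Matrix.of fun t s => B s (T t)) (Matrix.of fun i j => Θ i (T j))ᵀ := by
    ext a b
    refine (mv J _ (Sum.elim B Θ b) a).trans ?_
    cases a <;> cases b
    exacts [rfl, h _ _, unt _ _, unt _ _]
  have := congrArg Matrix.det e
  rwa [Matrix.det_mul, Matrix.det_transpose, Matrix.det_fromBlocks_zero₁₂,
    Matrix.det_transpose] at this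

end DET33

open DET33 in
theorem st_DET : St_DET := by
  intro K _ ρ n J
  refine ⟨fun Θ h T T' => ?_, fun T v h h1 h2 =>
    det_ne.1 h v h1 fun t => (unt _ _).trans (h2 t), fun hJ => ?_⟩
  · by_cases h0 : pl Θ = 0
    · simp only [h0, Pi.zero_apply, mul_zero]
    obtain ⟨S, hS⟩ := ext (q := ρ) (by omega) (pl_ne_zero_iff.1 h0)
    have hd : (mx (fun t j => if j = S t then 1 else 0) Θ).det ≠ 0 :=
      det_ne.2 fun v h1 h2 => hS v h2 fun t => (unt _ _).symm.trans (h1 t)
    refine mul_right_cancel₀ hd ?_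
    linear_combination pl Θ T' * key h T - pl Θ T * key h T'
  · obtain ⟨T, hT⟩ := ext (q := n + 1) rfl hJ
    have hd : (mx J fun t j => if j = T t then 1 else 0).det ≠ 0 :=
      det_ne.2 fun v h1 h2 => hT v h1 fun t => (unt _ _).symm.trans (h2 t)
    obtain ⟨N, h1⟩ : ∃ N, (mx J fun t j => if j = T t then 1 else 0) * N = 1 :=
      ⟨_, Matrix.mul_nonsing_inv _ hd.isUnit⟩
    have h2 := fun a c => mv J (fun t j => if j = T t then 1 else 0) (fun j =>
      N ((finSumFinEquiv (m := ρ) (n := n + 1)).symm j) (Sum.inr c)) a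
    simp only [Equiv.symm_apply_apply] at h2
    have h3 := fun a c => (h2 a c).symm.trans (congrFun (congrFun h1 a) (Sum.inr c))
    refine ⟨⟨T, hd⟩, _, Function.ne_iff.2 ⟨T, ?_⟩, fun r a => (h3 (Sum.inl r) a).trans (by simp)⟩
    refine ne_of_eq_of_ne ((congrArg Matrix.det (Matrix.ext fun c a => ?_)).trans Matrix.det_one)
      one_ne_zero
    exact ((unt _ _).symm.trans (h3 (Sum.inr a) c)).trans (by simp [Matrix.one_apply, eq_comm])

end Pool.Agent.Lib.PN
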