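import Pool.Agent.Lib.PN.ABlue
import Pool.Agent.Lib.UR.M_NORM
import Pool.Agent.Lib.UR.M_HT1

/-! The canonical class has non-negative degree on every curve. -/

open MvPolynomial Set

noncomputable section

namespace Pool.Agent.Lib.PN

open Pool.Agent.Lib.MP_7fcda1_ag Pool.Agent.Lib.UR Pool.Agent.Lib.UR.M

namespace Xhelper4

theorem der_mul {N : ℕ} {K : Type} [Field K] [Algebra ℂ K] (Y v : Fin (N + 1) → K) (a g : Pol N)
    (hg : aeval Y g = 0) : ∑ j, aeval Y (pderiv j (a * g)) * v j =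
      aeval Y a * ∑ j, aeval Y (pderiv j g) * v j := by
  rw [Finset.mul_sum]
  refine Finset.sum_congr rfl fun j _ => ?_
  rw [Derivation.leibniz, smul_eq_mul, smul_eq_mul, map_add, map_mul, map_mul, hg]
  ring

theorem der_span {N ρ : ℕ} {K : Type} [Field K] [Algebra ℂ K] (Y v : Fin (N + 1) → K)
    (p : Fin ρ → Pol N) (h0 : ∀ r, aeval Y (p r) = 0)
    (h1 : ∀ r, ∑ j, aeval Y (pderiv j (p r)) * v j = 0) {g : Pol N} (hg : g ∈ Ideal.span (range p)) :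
    aeval Y g = 0 ∧ ∑ j, aeval Y (pderiv j g) * v j = 0 := by
  induction hg using Submodule.span_induction with
  | mem x hx =>
    obtain ⟨r, rfl⟩ := hx
    exact ⟨h0 r, h1 r⟩
  | zero => simp
  | add x y _ _ hx hy =>
    refine ⟨by rw [map_add, hx.1, hy.1, add_zero], ?_⟩
    simp only [map_add, add_mul, Finset.sum_add_distrib, hx.2, hy.2, add_zero]
  | smul a x _ hx =>
    rw [smul_eq_mul]
    exact ⟨by rw [map_mul, hx.1, mul_zero], by rw [der_mul Y v a x hx.1, hx.2, mul_zero]⟩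

theorem core (h0 : St_MR0) (h1 : St_MR1) {ρ n e : ℕ} {Λ : Type} [Fintype Λ] {G : Λ → Pol (ρ + n)}
    (hA : Alg ρ e G) (hR : NoRat G) (κ : Type) {K : Type} [Field κ] [Field K] [Algebra ℂ κ]
    [Algebra κ K] [Algebra ℂ K] [IsScalarTower ℂ κ K] [IsFF κ K] {Y : Fin (ρ + n + 1) → K}
    {Θ : Fin (n + 1) → Fin (ρ + n + 1) → K} (hY : Y 0 = 1) (hG : ∀ l, aeval Y (G l) = 0)
    (hΘ : pl Θ ≠ 0) (hk : ∀ l a, ∑ j, aeval Y (pderiv j (G l)) * Θ a j = 0) (hp : 0 < ht κ Y) :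
    ((n : ℤ) + 1) * ht κ Y ≤ ht κ (pl Θ) := by
  have hY0 : Y ≠ 0 := Function.ne_iff.2 ⟨0, by simp [hY]⟩
  obtain ⟨I, S, δ, hC⟩ := hA.cert K Y hY0 hG
  have a0 := h0 (ρ + n) ρ e Λ G hA.pos hA.hom hR κ K Y I S δ hY hG hC hp
  have a1 := h1 ρ n e Λ G hA κ K Y Θ S hY0 hG hΘ hk (Function.ne_iff.2 ⟨I, hC.min⟩)
  push_cast at a0
  linarith

theorem gen (h0 : St_MR0) (h1 : St_MR1) (hSWP : St_SWP) {ρ n e : ℕ} {Λ : Type} [Fintype Λ]
    {G : Λ → Pol (ρ + n)} (hA : Alg ρ e G) (hR : NoRat G) (κ : Type) {K : Type} [Field κ] [Field K]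
    [Algebra ℂ κ] [Algebra κ K] [Algebra ℂ K] [IsScalarTower ℂ κ K] [IsFF κ K]
    {Y : Fin (ρ + n + 1) → K} {Θ : Fin (n + 1) → Fin (ρ + n + 1) → K} (hY : Y ≠ 0)
    (hG : ∀ l, aeval Y (G l) = 0) (hΘ : pl Θ ≠ 0)
    (hk : ∀ l a, ∑ j, aeval Y (pderiv j (G l)) * Θ a j = 0) :
    ((n : ℤ) + 1) * ht κ Y ≤ ht κ (pl Θ) := by
  by_cases hp : 0 < ht κ Y
  swap
  · have a1 := HT1.ht_nonneg (k := κ) hΘ
    have a2 : ((n : ℤ) + 1) * ht κ Y ≤ 0 :=
      mul_nonpos_of_nonneg_of_nonpos (by positivity) (not_lt.1 hp)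
    exact a2.trans a1
  obtain ⟨i, hi⟩ := Function.ne_iff.1 hY
  have hi' : Y i ≠ 0 := hi
  let s : Equiv.Perm (Fin (ρ + n + 1)) := Equiv.swap 0 i
  have hs : ∀ j, s (s j) = j := Equiv.swap_apply_self 0 i
  obtain ⟨hA', hR'⟩ := hSWP (ρ + n) ρ e Λ G s
  have e1 : ht κ (fun j => (Y i)⁻¹ * Y (s j)) = ht κ Y := by
    rw [NORM.ht_mul (inv_ne_zero hi'), NORM.ht_comp s.surjective]
  have e2 : pl (fun a j => Θ a (s j)) = fun T => pl Θ fun a => s (T a) := rfl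
  have hsu : Function.Surjective fun (T : Ix ρ n) a => s (T a) := s.surjective.comp_left
  have e3 : ht κ (pl fun a j => Θ a (s j)) = ht κ (pl Θ) := by
    rw [e2, NORM.ht_comp hsu]
  have e4 : ∀ g : Pol (ρ + n), aeval (fun j => (Y i)⁻¹ * Y (s j)) (rename s g) =
      aeval ((Y i)⁻¹ • Y) g := fun g => by
    rw [aeval_rename]
    refine congrArg (fun z => aeval z g) (funext fun j => ?_)
    simp only [Function.comp_apply, hs, Pi.smul_apply, smul_eq_mul]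
  rw [← e1, ← e3]
  refine core h0 h1 (hA' hA) (hR' hR) κ ?_ (fun l => ?_) ?_ (fun l a => ?_) (e1 ▸ hp)
  · simp only [s, Equiv.swap_apply_left]
    exact inv_mul_cancel₀ hi'
  · rw [e4, plc1_aeval_smul (hA.hom l), hG, mul_zero]
  · obtain ⟨T, hT⟩ := Function.ne_iff.1 hΘ
    obtain ⟨T', rfl⟩ := hsu T
    exact Function.ne_iff.2 ⟨T', hT⟩
  · rw [← Equiv.sum_comp s]
    simp only [pderiv_rename s.injective, e4, hs, plc1_aeval_smul (hA.hom l).pderiv, mul_assoc]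
    rw [← Finset.mul_sum, hk, mul_zero]

end Xhelper4

open Xhelper4 in
theorem st_MOR (hDET : St_DET) (h0 : St_MR0) (h1 : St_MR1) (hSWP : St_SWP) : St_MOR := by
  intro ρ n e Λ _ G hA hR κ K _ _ _ _ _ _ _ Y I S δ hY hG hC
  obtain ⟨d1, -, d3⟩ := hDET K ρ n fun r j => aeval Y (pderiv j (G (I r)))
  obtain ⟨⟨T₀, hT₀⟩, Θ, hΘ, hk⟩ := d3 (Cert.indep hC.min)
  have hk' : ∀ l a, ∑ j, aeval Y (pderiv j (G l)) * Θ a j = 0 := fun l a => by
    have a1 := (der_span Y (Θ a) (fun r => G (I r)) (fun r => hG _) (fun r => hk r a) (hC.mem l)).2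
    rw [der_mul Y (Θ a) δ (G l) (hG l)] at a1
    exact (mul_eq_zero.1 a1).resolve_left hC.del
  obtain ⟨T', hT'⟩ := Function.ne_iff.1 hΘ
  have hT'' : pl Θ T' ≠ 0 := hT'
  have e1 : ∀ T, dt (fun r j => aeval Y (pderiv j (G (I r)))) T =
      (dt (fun r j => aeval Y (pderiv j (G (I r)))) T' / pl Θ T') * pl Θ T := fun T => by
    rw [div_mul_eq_mul_div, eq_div_iff hT'', d1 Θ hk T T']
  have e2 : dt (fun r j => aeval Y (pderiv j (G (I r)))) T' / pl Θ T' ≠ 0 := fun h => by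
    rw [e1, h, zero_mul] at hT₀
    exact hT₀ rfl
  have e3 : (fun T => aeval Y (bm G I T)) =
      fun T => (dt (fun r j => aeval Y (pderiv j (G (I r)))) T' / pl Θ T') * pl Θ T :=
    funext fun T => (aeval_bm G I T Y).trans (e1 T)
  rw [e3, NORM.ht_mul e2]
  exact gen h0 h1 hSWP hA hR κ hY hG hΘ hk'

end Pool.Agent.Lib.PN
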