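import Pool.Agent.Lib.PN.ABlue
import Pool.Agent.Lib.PN.Ext

/-! Project pn: bend and break for an arbitrary curve. -/

open MvPolynomial Set

noncomputable section

namespace Pool.Agent.Lib.PN

open Pool.Agent.Lib.MP_7fcda1_ag Pool.Agent.Lib.UR Pool.Agent.Lib.UR.M

theorem st_MR0 (hRAT : St_RAT) : St_MR0 := by
  intro N ρ e Λ _ G he hG hno κ K _ _ _ _ _ _ _ Y I S δ h0 hz hc h4
  by_contra h5
  rw [not_le] at h5
  choose a ha using fun l => Ideal.mem_span_range_iff_exists_fun.1 (hc.mem l)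
  let Q : Pres ℂ N ρ e Λ := ⟨G, I, S, δ, a, he, hG, fun l => by
    rw [ha, sub_self]; exact zero_mem _⟩
  obtain ⟨s, Q', hs, h6, h7, h8, h9⟩ := uDSC ℂ Λ N ρ e Q
  let R := Subring.closure s
  let φ : R →+* κ := (algebraMap ℂ κ).comp R.subtype
  have e1 : (algebraMap κ K).comp φ = (algebraMap ℂ K).comp R.subtype := by
    rw [IsScalarTower.algebraMap_eq ℂ κ K]; rfl
  have e2 : ∀ g : MvPolynomial (Fin (N + 1)) R, eval₂ ((algebraMap κ K).comp φ) Y g =
      eval₂ (algebraMap ℂ K) Y (map R.subtype g) := fun g => by rw [e1, eval₂_map]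
  have e3 : ∀ I, map R.subtype (amin Q'.G Q'.S I) = amin G S I := fun I => by
    refine (congrFun (pl_map (map R.subtype) _) I).symm.trans ?_
    simp only [amin, ← pderiv_map, R, h6, h7, Q]
  have e4 : atup Q'.G Q'.S ((algebraMap κ K).comp φ) Y = atup G S (algebraMap ℂ K) Y := by
    funext I
    rw [atup, atup, e2, e3]
  obtain ⟨D, hD⟩ := uTRF R Λ κ K N ρ e Q' φ Y (algebraMap ℂ κ '' s) (hs.image _)
    (fun b => by
      rw [← RingHom.map_closure]
      exact ⟨b, b.2, rfl⟩)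
    ⟨h0, fun l => by rw [e2, h6]; exact hz l, by rw [e2, h9]; exact hc.del,
      by rw [atup, e2, e3, h8]; exact hc.min⟩ h4 (e4 ▸ h5)
  let ψ : MvPolynomial (Fin (N + 1)) R →+* AlgebraicClosure K :=
    (algebraMap K _).comp ((eval₂Hom (algebraMap ℂ K) Y).comp (map R.subtype))
  have e5 : ∀ g, ψ g = 0 ↔ eval₂ ((algebraMap κ K).comp φ) Y g = 0 := fun g => by
    rw [e2]
    exact map_eq_zero (algebraMap K (AlgebraicClosure K))
  obtain ⟨δ', h10, h11⟩ := uRCN _ _ Λ _ (fun l => map C (Q'.G l)) X D ψ fun h => by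
    have e6 : (fun l => map ψ (map C (Q'.G l))) =
        fun l => map (algebraMap ℂ (AlgebraicClosure K)) (G l) := funext fun l => by
      rw [show G l = _ from (h6 l).symm, map_map, map_map]
      congr 2
      ext r
      simp [ψ, IsScalarTower.algebraMap_apply ℂ K (AlgebraicClosure K)]
    rw [e6] at h
    obtain ⟨x', hx'⟩ := hRAT _ Λ _ G _ D h
    exact hno x' D hx'
  obtain ⟨κ', _, χ, x', h12, h13, h14⟩ := hD δ' fun h => h10 ((e5 δ').2 h)
  refine h11 κ' (eval₂Hom χ x') (fun b hb => h13 b ((e5 b).1 hb)) h12 ?_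
  have e6 : (fun l => map (eval₂Hom χ x') (map C (Q'.G l))) = fun l => map χ (Q'.G l) :=
    funext fun l => by
      rw [map_map]
      congr 2
      ext r
      simp
  have e7 : (fun j => eval₂Hom χ x' (X j)) = x' := funext fun j => by simp
  rwa [e6, e7]

end Pool.Agent.Lib.PN
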