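import Pool.Agent.Lib.PN.ABlue
import Pool.Agent.Lib.PN.Ext

/-! Row MR1: the degree of the normal bundle along a curve. -/

open MvPolynomial

noncomputable section

namespace Pool.Agent.Lib.PN

open Pool.Agent.Lib.MP_7fcda1_ag Pool.Agent.Lib.UR Pool.Agent.Lib.UR.M Pool.Agent.Lib.UR.M.HT1

namespace MR168

/-- At every place some minor of the Jacobian matrix is a unit. -/
theorem loc {N ρ e : ℕ} {Λ Ω F : Type} [Field Ω] [Field F] [Algebra ℂ Ω] [Algebra Ω F]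
    [Algebra ℂ F] [IsScalarTower ℂ Ω F] [IsFF Ω F] {G : Λ → Pol N} (hA : Alg ρ e G)
    (v : Place Ω F) {Z : Fin (N + 1) → F} {i : Fin (N + 1)} (h1 : Z i = 1) (hi : ∀ j, Z j ∈ v.O)
    (hz : ∀ l, aeval Z (G l) = 0) : ∃ (S : Fin ρ → Fin (N + 1)) (I : Fin ρ → Λ),
      v.O.valuation (atup G S (algebraMap ℂ F) Z I) = 1 := by
  obtain ⟨P, hPV, hP⟩ := exists_plc_residue v.O (RingHom.id _)
  let φ : ℂ →+* IsLocalRing.ResidueField v.O :=
    (IsLocalRing.residue v.O).comp ((algebraMap Ω v.O).comp (algebraMap ℂ Ω))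
  let _ : Algebra ℂ (IsLocalRing.ResidueField v.O) := φ.toAlgebra
  have h0 : ∀ c, P.To (algebraMap ℂ F c) (φ c) := fun c => by
    rw [IsScalarTower.algebraMap_apply ℂ Ω F]
    exact hP (algebraMap Ω v.O (algebraMap ℂ Ω c))
  have h2 : ∀ g : MvPolynomial (Fin (N + 1)) ℂ, P.To (eval₂ (algebraMap ℂ F) Z g)
      (eval₂ φ (fun j => IsLocalRing.residue v.O ⟨_, hi j⟩) g) :=
    to_eval₂ h0 fun j => hP ⟨_, hi j⟩
  obtain ⟨I, S, δ, hc⟩ := hA.cert (IsLocalRing.ResidueField v.O)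
    (fun j => IsLocalRing.residue v.O ⟨_, hi j⟩) (Function.ne_iff.2 ⟨i, by
      have e1 : (⟨Z i, hi i⟩ : v.O) = 1 := Subtype.ext h1
      rw [e1, map_one]
      exact one_ne_zero⟩) fun l => by
      have h3 := h2 (G l)
      rw [← aeval_def, hz] at h3
      exact h3.unique Plc.to_zero
  refine ⟨S, I, ?_⟩
  have h4 := (h2 (amin G S I)).val_eq_one_iff.2 hc.min
  rw [hPV] at h4
  exact h4

end MR168

theorem st_MR1 : St_MR1 := by
  intro ρ n e Λ _ G hA Ω F _ _ _ _ _ _ _ Y Θ S hY hz hΘ htan hS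
  have hD : ∀ v : Place Ω F, (((e - 1 : ℕ) : ℤ) • -vdiv Ω Y) v =
      -(((e - 1 : ℕ) : ℤ) * vord v.O Y) := fun v => by
    rw [Finsupp.smul_apply, Finsupp.neg_apply, vdiv_apply, smul_eq_mul, mul_neg]
  have hloc : ∀ v : Place Ω F, ∃ i, Y i ≠ 0 ∧ ord v.O (Y i) = vord v.O Y ∧
      (∀ j, Y j / Y i ∈ v.O) ∧ ∀ (d : ℕ) (g : Pol (ρ + n)), g.IsHomogeneous d →
        eval₂ (algebraMap ℂ F) Y g =
          Y i ^ d * eval₂ (algebraMap ℂ F) (fun j => Y j / Y i) g := fun v => by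
    obtain ⟨i, hi, hv⟩ := exists_vord (V := v.O) hY
    refine ⟨i, hi, hv, fun j => ?_, fun d g hg => ?_⟩
    · have h1 := ((vge_iff (V := v.O) hY).2 le_rfl j).mul (ge_ord (V := v.O) (a := (Y i)⁻¹))
      rw [ord_inv, hv, add_neg_cancel] at h1
      rw [mem_iff_ge (.inl v.disc), div_eq_mul_inv]
      exact h1
    · rw [← aeval_def, ← aeval_def, ← plc1_aeval_smul hg]
      refine congrArg (fun z => aeval z _) (funext fun s => ?_)
      rw [Pi.smul_apply, smul_eq_mul, mul_div_cancel₀ _ hi]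
  have key := uHT0 Ω F Λ (Fin (ρ + n + 1)) ρ (n + 1)
    (fun j l => eval₂ (algebraMap ℂ F) Y (pderiv j (G l))) Θ
    (((e - 1 : ℕ) : ℤ) • -vdiv Ω Y) S hΘ (by rw [Fintype.card_fin]; omega) htan
    (fun v j l => by
      obtain ⟨i, hi, hv, hm, hJ⟩ := hloc v
      have h1 := ((ge_ord (V := v.O) (a := Y i)).pow (e - 1)).mul
        ((mem_iff_ge (.inl v.disc)).1 (aeval_mem (fun c => by
          rw [IsScalarTower.algebraMap_apply ℂ Ω F]; exact v.const _) hm (pderiv j (G l))))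
      rw [hD, neg_neg, hJ _ _ (hA.hom l).pderiv, ← hv]
      rwa [add_zero] at h1)
    (fun v => by
      obtain ⟨i, hi, hv, hm, hJ⟩ := hloc v
      obtain ⟨S', I, h1⟩ := MR168.loc hA v (div_self hi) hm fun l => by
        have h0 := hz l
        rw [aeval_def, hJ _ _ (hA.hom l)] at h0
        exact (mul_eq_zero.1 h0).resolve_left (pow_ne_zero _ hi)
      obtain ⟨h2, h3⟩ := (val_eq_one_iff (.inl v.disc)).1 h1
      have h4 : pl (fun r l => eval₂ (algebraMap ℂ F) Y (pderiv (S' r) (G l))) I =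
          (Y i ^ (e - 1)) ^ ρ * atup G S' (algebraMap ℂ F) (fun j => Y j / Y i) I := by
        rw [atup_eq, ← pl_smul]
        exact congrArg (fun w => pl w I)
          (funext fun r => funext fun l => hJ _ _ (hA.hom l).pderiv)
      have h5 : (Y i ^ (e - 1)) ^ ρ ≠ 0 := pow_ne_zero _ (pow_ne_zero _ hi)
      refine ⟨S', I, ?_, ?_⟩
      · rw [h4]
        exact mul_ne_zero h5 h2
      · rw [h4, ord_mul h5 h2, h3, ord_pow, ord_pow, hv, hD, add_zero, mul_neg, neg_neg])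
    (by rwa [atup_eq] at hS)
  rw [map_smul, map_neg, smul_eq_mul, Nat.cast_sub hA.pos] at key
  rw [atup_eq]
  change (ρ : ℤ) * (((e : ℤ) - (1 : ℕ)) * ht Ω Y) - _ ≤
    ht Ω (pl (cols G S (algebraMap ℂ F) Y)) at key
  push_cast at key ⊢
  linarith

end Pool.Agent.Lib.PN
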