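import Pool.Agent.Lib.PN.ABlue

/-! Project pn: specialisation of a rational curve. -/

open MvPolynomial

noncomputable section

namespace Pool.Agent.Lib.PN

namespace RAT50

variable {ι : Type} (D : ℕ)

/-- The universal curve. -/
def U (j : ι) : Polynomial (MvPolynomial (ι × Fin (D + 1)) ℂ) :=
  ∑ l : Fin (D + 1), Polynomial.monomial l (X (j, l))

variable {D} {E : Type} [CommRing E] [Algebra ℂ E] (v : ι × Fin (D + 1) → E)

theorem map_U (j : ι) : Polynomial.mapAlgHom (aeval v) (U D j) =
    ∑ l : Fin (D + 1), Polynomial.monomial l (v (j, l)) := by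
  simp [U]

theorem co (p : Polynomial (MvPolynomial (ι × Fin (D + 1)) ℂ)) (n : ℕ) :
    (Polynomial.mapAlgHom (aeval v) p).coeff n = aeval v (p.coeff n) :=
  Polynomial.coeff_map _ _

end RAT50

open RAT50 in
theorem st_RAT (hSPC : St_SPC) : St_RAT := by
  rintro ι Λ Ω _ _ _ G x D ⟨P, h1, h2, h3, j, j', h4⟩
  let ξ : ι × Fin (D + 1) → Ω := fun q => (P q.1).coeff q.2
  have hv : ∀ i, Polynomial.mapAlgHom (aeval ξ) (U D i) = P i := fun i => by
    rw [map_U, (P i).as_sum_range' (D + 1) (Nat.lt_succ_of_le (h1 i)),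
      ← Fin.sum_univ_eq_sum_range fun l => Polynomial.monomial l ((P i).coeff l)]
  obtain ⟨l, hl⟩ : ∃ l, x j * (P j').coeff l - x j' * (P j).coeff l ≠ 0 := by
    by_contra hn
    refine h4 (Polynomial.ext fun l => ?_)
    rw [Polynomial.coeff_C_mul, Polynomial.coeff_C_mul]
    exact sub_eq_zero.1 (by_contra fun e => hn ⟨l, e⟩)
  obtain ⟨y, g1, g2⟩ := hSPC _ Ω ξ
    ((U D j).coeff 0 * (U D j').coeff l - (U D j').coeff 0 * (U D j).coeff l)
    (by simpa only [map_sub, map_mul, ← co, hv, h3] using hl)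
  refine ⟨_, fun i => Polynomial.mapAlgHom (aeval y) (U D i), fun i => ?_, fun a => ?_,
    fun _ => rfl, j, j', fun h => g1 ?_⟩
  · simp only [map_U]
    exact Polynomial.natDegree_sum_le_of_forall_le _ _ fun l _ =>
      (Polynomial.natDegree_monomial_le _).trans (Nat.le_of_lt_succ l.2)
  · rw [← comp_aeval_apply]
    ext n
    rw [co, Polynomial.coeff_zero]
    refine g2 _ ?_
    have := h2 a
    rw [aeval_map_algebraMap] at this
    rw [← co, comp_aeval_apply, funext hv, this, Polynomial.coeff_zero]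
  · have := congrArg (·.coeff l) h
    simp only [Polynomial.coeff_C_mul, co] at this
    rw [map_sub, map_mul, map_mul]
    exact sub_eq_zero.2 this

end Pool.Agent.Lib.PN
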