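import Pool.Agent.Lib.PN.ABlue

/-! Project pn, block SPC: specialisation of a point to a complex point. -/

open MvPolynomial Set

namespace Pool.Agent.Lib.PN

theorem st_SPC : St_SPC := by
  intro σ κ _ _ _ ξ g hg
  by_contra hn
  have hp : (RingHom.ker (aeval ξ : MvPolynomial σ ℂ →ₐ[ℂ] κ)).IsPrime := RingHom.ker_isPrime _
  have h1 : g ∈ vanishingIdeal ℂ
      (zeroLocus ℂ (RingHom.ker (aeval ξ : MvPolynomial σ ℂ →ₐ[ℂ] κ))) := by
    rw [mem_vanishingIdeal_iff]
    intro x hx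
    by_contra h0
    refine hn ⟨x, ?_, fun p hp => ?_⟩
    · rwa [← coe_aeval_eq_eval]
    · rw [← coe_aeval_eq_eval]
      exact mem_zeroLocus_iff.1 hx p hp
  rw [vanishingIdeal_zeroLocus_eq_radical, hp.radical] at h1
  exact hg h1

end Pool.Agent.Lib.PN
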