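import Pool.Agent.Lib.PN.ABlue

/-! Project pn, block SWP: permutation of the coordinates. -/

open MvPolynomial Set

namespace Pool.Agent.Lib.PN

open Pool.Agent.Lib.MP_7fcda1_ag Pool.Agent.Lib.UR Pool.Agent.Lib.UR.M

theorem st_SWP : St_SWP := by
  intro N ρ e Λ G σ
  refine ⟨fun h => ⟨h.pos, fun l => (h.hom l).rename_isHomogeneous, fun κ _ _ ξ hξ hG => ?_⟩,
    fun h x D ⟨P, h1, h2, h3, j, j', h4⟩ => h (x ∘ σ) D ⟨P ∘ σ, fun j => h1 _, fun l => ?_,
      fun j => h3 _, σ.symm j, σ.symm j', by simpa using h4⟩⟩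
  · obtain ⟨I, S, δ, hc⟩ := h.cert κ (ξ ∘ σ) (fun h0 => hξ (funext fun j => by
      simpa using congrFun h0 (σ.symm j))) fun l => by rw [← aeval_rename]; exact hG l
    refine ⟨I, σ ∘ S, rename σ δ, ?_, by rw [aeval_rename]; exact hc.del, fun l => ?_⟩
    · have h1 : amin (fun l => rename σ (G l)) (σ ∘ S) I = rename σ (amin G S I) := by
        unfold amin pl
        rw [AlgHom.map_det]
        refine congrArg Matrix.det (Matrix.ext fun a b => ?_)
        simp only [Matrix.of_apply, Function.comp_apply, AlgHom.mapMatrix_apply, Matrix.map_apply]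
        exact pderiv_rename σ.injective _ _
      rw [h1, aeval_rename]
      exact hc.min
    · rw [← map_mul]
      have h2 := Ideal.mem_map_of_mem (rename σ : Pol N →ₐ[ℂ] Pol N) (hc.mem l)
      rwa [Ideal.map_span, ← range_comp] at h2
  · rw [← aeval_rename]
    exact h2 l

end Pool.Agent.Lib.PN
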