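import Pool.Agent.Lib.UR.MBlue
import Pool.Agent.Lib.UR.BlueB

/-! Project pn, algebraic half: without rational curves the canonical class is pseudo-effective on
every subvariety. Definitions and statements of the blocks. -/

open MvPolynomial Set

noncomputable section

namespace Pool.Agent.Lib.PN

open Pool.Agent.Lib.MP_7fcda1_ag Pool.Agent.Lib.UR Pool.Agent.Lib.UR.M

/-- Polynomials in the homogeneous coordinates. -/
abbrev Pol (N : ℕ) : Type := MvPolynomial (Fin (N + 1)) ℂ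

/-- Indices of the Pluecker coordinates of the tangent space of the cone. -/
abbrev Ix (ρ n : ℕ) : Type := Fin (n + 1) → Fin (ρ + n + 1)

section
variable {ρ n N : ℕ} {Λ : Type}

/-- The determinant of the rows `J` completed by the coordinate rows `T`. -/
def dt {R : Type} [CommRing R] (J : Fin ρ → Fin (ρ + n + 1) → R) (T : Ix ρ n) : R :=
  (Matrix.of fun a b : Fin ρ ⊕ Fin (n + 1) =>
    Sum.elim J (fun t j => if j = T t then (1 : R) else 0) a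
      (finSumFinEquiv (m := ρ) (n := n + 1) b)).det

/-- The Gauss map, in terms of the equations `I`. -/
def bm (G : Λ → Pol (ρ + n)) (I : Fin ρ → Λ) (T : Ix ρ n) : Pol (ρ + n) :=
  dt (fun r j => pderiv j (G (I r))) T

/-- A linear system of class `K + (n + 2) H`. -/
def hp (G : Λ → Pol (ρ + n)) (I : Fin ρ → Λ) (p : Ix ρ n × Fin (ρ + n + 1)) : Pol (ρ + n) :=
  bm G I p.1 * X p.2

/-- Near `ξ` the equations `I` have independent differentials and generate all equations. -/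
structure Cert (G : Λ → Pol N) {κ : Type} [Field κ] [Algebra ℂ κ] (ξ : Fin (N + 1) → κ)
    (I : Fin ρ → Λ) (S : Fin ρ → Fin (N + 1)) (δ : Pol N) : Prop where
  min : aeval ξ (amin G S I) ≠ 0
  del : aeval ξ δ ≠ 0
  mem : ∀ l, δ * G l ∈ Ideal.span (range fun r => G (I r))

/-- The forms `G` define a smooth projective scheme of codimension `ρ`. -/
structure Alg (ρ e : ℕ) (G : Λ → Pol N) : Prop where
  pos : 1 ≤ e
  hom : ∀ l, (G l).IsHomogeneous e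
  cert : ∀ (κ : Type) [Field κ] [Algebra ℂ κ] (ξ : Fin (N + 1) → κ), ξ ≠ 0 →
    (∀ l, aeval ξ (G l) = 0) → ∃ (I : Fin ρ → Λ) (S : Fin ρ → Fin (N + 1)) (δ : Pol N),
      Cert G ξ I S δ

/-- There is no rational curve. -/
def NoRat (G : Λ → Pol N) : Prop := ∀ x D, ¬ RatCurve G x D

theorem dt_map {R R' : Type} [CommRing R] [CommRing R'] (χ : R →+* R')
    (J : Fin ρ → Fin (ρ + n + 1) → R) (T : Ix ρ n) :
    χ (dt J T) = dt (fun r j => χ (J r j)) T := by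
  unfold dt
  rw [RingHom.map_det]
  refine congrArg Matrix.det (Matrix.ext fun a b => ?_)
  cases a <;> simp [apply_ite χ]

theorem amin_eq {B ι : Type} [CommRing B] (G : Λ → MvPolynomial ι B) (S : Fin ρ → ι)
    (I : Fin ρ → Λ) : amin G S I = pl (fun r j => pderiv j (G (I r))) S :=
  (Matrix.det_transpose _).symm

theorem Cert.indep {G : Λ → Pol N} {κ : Type} [Field κ] [Algebra ℂ κ] {ξ : Fin (N + 1) → κ}
    {I : Fin ρ → Λ} {S : Fin ρ → Fin (N + 1)} (h : aeval ξ (amin G S I) ≠ 0) :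
    LinearIndependent κ fun r j => aeval ξ (pderiv j (G (I r))) := by
  refine pl_ne_zero_iff.1 (Function.ne_iff.2 ⟨S, fun h0 => h ?_⟩)
  rw [amin_eq]
  exact (congrFun (pl_map (aeval ξ : Pol N →ₐ[ℂ] κ).toRingHom _) S).symm.trans h0

theorem aeval_bm (G : Λ → Pol (ρ + n)) (I : Fin ρ → Λ) (T : Ix ρ n) {κ : Type} [CommRing κ]
    [Algebra ℂ κ] (ξ : Fin (ρ + n + 1) → κ) :
    aeval ξ (bm G I T) = dt (fun r j => aeval ξ (pderiv j (G (I r)))) T :=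
  dt_map (aeval ξ : Pol (ρ + n) →ₐ[ℂ] κ).toRingHom _ T

theorem eval_bm (G : Λ → Pol (ρ + n)) (I : Fin ρ → Λ) (T : Ix ρ n) (ξ : Fin (ρ + n + 1) → ℂ) :
    eval ξ (bm G I T) = dt (fun r j => eval ξ (pderiv j (G (I r)))) T :=
  dt_map (eval ξ) _ T

end

/-- Specialisation of a point to a complex point. -/
def St_SPC : Prop := ∀ (σ κ : Type) [Finite σ] [Field κ] [Algebra ℂ κ] (ξ : σ → κ)
  (g : MvPolynomial σ ℂ), aeval ξ g ≠ 0 →
    ∃ x : σ → ℂ, eval x g ≠ 0 ∧ ∀ p : MvPolynomial σ ℂ, aeval ξ p = 0 → eval x p = 0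

/-- Duality of Pluecker coordinates. -/
def St_DET : Prop := ∀ (K : Type) [Field K] (ρ n : ℕ) (J : Fin ρ → Fin (ρ + n + 1) → K),
  (∀ Θ : Fin (n + 1) → Fin (ρ + n + 1) → K, (∀ r a, ∑ j, J r j * Θ a j = 0) →
    ∀ T T' : Ix ρ n, dt J T * pl Θ T' = dt J T' * pl Θ T) ∧
  (∀ (T : Ix ρ n) (v : Fin (ρ + n + 1) → K), dt J T ≠ 0 → (∀ r, ∑ j, J r j * v j = 0) →
    (∀ a, v (T a) = 0) → v = 0) ∧
  (LinearIndependent K J → (∃ T : Ix ρ n, dt J T ≠ 0) ∧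
    ∃ Θ : Fin (n + 1) → Fin (ρ + n + 1) → K, pl Θ ≠ 0 ∧ ∀ r a, ∑ j, J r j * Θ a j = 0)

/-- A rational curve over an extension field specialises to a complex one. -/
def St_RAT : Prop := ∀ (ι Λ Ω : Type) [Finite ι] [Field Ω] [Algebra ℂ Ω]
  (G : Λ → MvPolynomial ι ℂ) (x : ι → Ω) (D : ℕ),
    RatCurve (fun l => map (algebraMap ℂ Ω) (G l)) x D → ∃ x', RatCurve G x' D

/-- Bend and break for an arbitrary curve. -/
def St_MR0 : Prop := ∀ (N ρ e : ℕ) (Λ : Type) [Fintype Λ] (G : Λ → Pol N), 1 ≤ e →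
  (∀ l, (G l).IsHomogeneous e) → NoRat G → ∀ (κ K : Type) [Field κ] [Field K] [Algebra ℂ κ]
    [Algebra κ K] [Algebra ℂ K] [IsScalarTower ℂ κ K] [IsFF κ K] (Y : Fin (N + 1) → K)
    (I : Fin ρ → Λ) (S : Fin ρ → Fin (N + 1)) (δ : Pol N), Y 0 = 1 → (∀ l, aeval Y (G l) = 0) →
    Cert G Y I S δ → 0 < ht κ Y →
      ht κ (atup G S (algebraMap ℂ K) Y) ≤ ((ρ : ℤ) * e - (N + 1)) * ht κ Y

/-- The degree of the normal bundle along a curve. -/
def St_MR1 : Prop := ∀ (ρ n e : ℕ) (Λ : Type) [Fintype Λ] (G : Λ → Pol (ρ + n)), Alg ρ e G →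
  ∀ (κ K : Type) [Field κ] [Field K] [Algebra ℂ κ] [Algebra κ K] [Algebra ℂ K]
    [IsScalarTower ℂ κ K] [IsFF κ K] (Y : Fin (ρ + n + 1) → K)
    (Θ : Fin (n + 1) → Fin (ρ + n + 1) → K) (S : Fin ρ → Fin (ρ + n + 1)), Y ≠ 0 →
    (∀ l, aeval Y (G l) = 0) → pl Θ ≠ 0 → (∀ l a, ∑ j, aeval Y (pderiv j (G l)) * Θ a j = 0) →
    atup G S (algebraMap ℂ K) Y ≠ 0 →
      (ρ : ℤ) * ((e : ℤ) - 1) * ht κ Y - ht κ (pl Θ) ≤ ht κ (atup G S (algebraMap ℂ K) Y)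

/-- Permutation of the coordinates. -/
def St_SWP : Prop := ∀ (N ρ e : ℕ) (Λ : Type) (G : Λ → Pol N) (σ : Equiv.Perm (Fin (N + 1))),
  (Alg ρ e G → Alg ρ e fun l => rename σ (G l)) ∧ (NoRat G → NoRat fun l => rename σ (G l))

/-- The canonical class has non-negative degree on every curve. -/
def St_MOR : Prop := ∀ (ρ n e : ℕ) (Λ : Type) [Fintype Λ] (G : Λ → Pol (ρ + n)), Alg ρ e G →
  NoRat G → ∀ (κ K : Type) [Field κ] [Field K] [Algebra ℂ κ] [Algebra κ K] [Algebra ℂ K]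
    [IsScalarTower ℂ κ K] [IsFF κ K] (Y : Fin (ρ + n + 1) → K) (I : Fin ρ → Λ)
    (S : Fin ρ → Fin (ρ + n + 1)) (δ : Pol (ρ + n)), Y ≠ 0 → (∀ l, aeval Y (G l) = 0) →
    Cert G Y I S δ → ((n : ℤ) + 1) * ht κ Y ≤ ht κ fun T => aeval Y (bm G I T)

/-- One common denominator for all products of finitely many integral elements. -/
def St_CND : Prop := ∀ (k L τ A : Type) [Field k] [Field L] [Algebra k L] [Finite τ] [Finite A]
  (h : τ → L) (x : A → L) (b : ℕ), Gen k h → (∀ a, x a ∈ cl (sys k h ^ b)) →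
    ∃ (c : L) (e₀ : ℕ), c ≠ 0 ∧
      ∀ (j : ℕ) (β : Fin j → A), c * ∏ i, x (β i) ∈ sys k h ^ (j * b + e₀)

/-- The canonical class is pseudo-effective on every subvariety. -/
def St_BIG : Prop := ∀ (ρ n e : ℕ) (Λ : Type) [Fintype Λ] (G : Λ → Pol (ρ + n)), Alg ρ e G →
  NoRat G → ∀ (L : Type) [Field L] [Algebra ℂ L] (y : Fin (ρ + n + 1) → L) (i : Fin (ρ + n + 1))
    (I : Fin ρ → Λ) (S : Fin ρ → Fin (ρ + n + 1)) (δ : Pol (ρ + n)) (T₀ : Ix ρ n) (N₀ : ℕ),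
    y i = 1 → Gen ℂ y → (∀ l, aeval y (G l) = 0) → Cert G y I S δ → aeval y (bm G I T₀) ≠ 0 →
      ∃ t, 0 < t ∧ cl (sys ℂ (fun p : Ix ρ n × Fin (ρ + n + 1) => aeval y (bm G I p.1) * y p.2 /
        (aeval y (bm G I T₀) * y i)) ^ (t * N₀ * 1 + t)) / sys ℂ (qK n y i) ^ (t * N₀) ≠ ⊥

/-- Forms of degree `a` in the system `hp` that are proportional, modulo `P`, to the monomials of
degree `w`. -/
structure Sc {ρ n : ℕ} {Λ : Type} (G : Λ → Pol (ρ + n)) (P : Ideal (Pol (ρ + n))) (I : Fin ρ → Λ)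
    (T₀ : Ix ρ n) (a w : ℕ)
    (R : (Fin w → Fin (ρ + n + 1)) → MvPolynomial (Ix ρ n × Fin (ρ + n + 1)) ℂ)
    (σ τ : Pol (ρ + n)) : Prop where
  hom : ∀ β, (R β).IsHomogeneous a
  mem : ∀ β, τ * aeval (hp G I) (R β) - σ * ∏ b, X (β b) ∈ P

/-- The same in terms of polynomials. -/
def St_SEC : Prop := ∀ (ρ n e : ℕ) (Λ : Type) [Fintype Λ] (G : Λ → Pol (ρ + n)), Alg ρ e G →
  NoRat G → ∀ (P : Ideal (Pol (ρ + n))) (i : Fin (ρ + n + 1)) (N₀ : ℕ), P.IsPrime →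
    (∀ l, G l ∈ P) → X i - 1 ∈ P → ∃ I T₀ a w R σ τ, Sc G P I T₀ a w R σ τ ∧ 0 < a ∧
      N₀ * ((n + 2) * a) ≤ (n + 2) * a + N₀ * w ∧ σ * τ * bm G I T₀ ∉ P

/-- An irreducible component in an affine chart. -/
def St_MIN : Prop := ∀ (N : ℕ) (S : Set (Pol N)) (i : Fin (N + 1)) (x : Fin (N + 1) → ℂ),
  x i = 1 → (∀ s ∈ S, eval x s = 0) → ∃ (P : Ideal (Pol N)) (d r : ℕ) (g : Fin r → Pol N),
    P.IsPrime ∧ S ⊆ P ∧ X i - 1 ∈ P ∧ (∀ a, (g a).IsHomogeneous d ∧ g a ∈ P) ∧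
    P ≤ Ideal.span (insert (X i - 1) (range g)) ∧ ∀ p ∉ P, ∃ (d' : ℕ) (f : Pol N),
      f.IsHomogeneous d' ∧ f ∉ P ∧ (∀ y, y i = 0 → eval y f = 0) ∧
      ∀ y, y i = 1 → (∀ s ∈ S, eval y s = 0) → eval y f ≠ 0 →
        eval y p ≠ 0 ∧ ∀ q ∈ P, eval y q = 0

/-- Local coordinates modulo powers of the maximal ideal. -/
def St_KR1 : Prop := ∀ (ρ n : ℕ) (p : Fin ρ → Pol (ρ + n)) (x : Fin (ρ + n + 1) → ℂ) (T : Ix ρ n),
  (∀ r, eval x (p r) = 0) → dt (fun r j => eval x (pderiv j (p r))) T ≠ 0 →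
    ∀ (k : ℕ) (g : Pol (ρ + n)), ∃ q : MvPolynomial (Fin (n + 1)) ℂ,
      g - aeval (fun a => (X (T a) - C (x (T a)) : Pol (ρ + n))) q ∈
        Ideal.span (range p) ⊔ RingHom.ker (eval x) ^ k

end Pool.Agent.Lib.PN
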