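import Pool.Agent.Lib.PN.Kit

/-! Project pn, block ADJ: adjunction. -/

open scoped Classical Topology ContDiff ComplexOrder Matrix Manifold
open Set Complex Filter MvPolynomial

noncomputable section

namespace Pool.Agent.Lib.PN

open Pool.Agent.Lib.SV (E nsq)
open Pool.Agent.Lib.HS32

namespace ADJ9

variable {n : ℕ} {ι : Type} [Fintype ι]

/-- The potential, computed with a lift. -/
def val (T : E n → Mat n) (F : E n → ι → ℂ) (z : E n) : ℝ :=
  Real.log (T z).det.re - Real.log (nsq (gv F z)) + ((n : ℝ) + 1) * Real.log (nsq (F z))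

theorem val_eq (hCMP : St_CMP) {M : Mf n} {f : M.X → ι → ℂ} {γ : M.X → (Fin (n + 1) → ι) → ℂ}
    {T : M.Fam (Mat n)} (hf : PMap M f) (hγ : Gau M f γ) (hT : M.Met T) {c c' : M.Ch}
    {z z' : E n} {F F' : E n → ι → ℂ} (h : Lift M f c z F) (h' : Lift M f c' z' F')
    (e : c.symm z = c'.symm z') : val (T c') F' z' = val (T c) F z := by
  obtain ⟨μ, -, hμ, h1, h2⟩ := (hCMP n M ι f c c' z z' F F' hf.ne h).2 h' e
  have s' := c'.map_target h'.tgt
  have s : c'.symm z' ∈ c.source := e ▸ c.map_target h.tgt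
  have e1 : c (c'.symm z') = z := by rw [← e, c.right_inv h.tgt]
  have h3 := hT.cmp c h.mem c' h'.mem _ s s'
  have hJ := ((mTR n M).2.1 c h.mem c' h'.mem _ s s').2.1
  have h4 := h1.self_of_nhds
  beta_reduce at h3
  rw [c'.right_inv h'.tgt, e1] at h3
  rw [e1] at h4
  have p1 := Mf.pd_det_re (hT.pos c h.mem z h.tgt)
  have p2 := nsq_pos ((hγ.lift c z F h).ne hγ.map.ne)
  have p3 := nsq_pos (h.ne hf.ne)
  have p4 := normSq_pos.2 hμ
  have p5 := normSq_pos.2 hJ
  have h5 : (T c' z').det.re = normSq (M.J c c' (c'.symm z')).det * (T c z).det.re := by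
    rw [h3, Matrix.det_mul, Matrix.det_mul, Matrix.det_conjTranspose, mul_right_comm,
      ← re_ofReal_mul, normSq_eq_conj_mul_self]
    rfl
  rw [val, val, h2, h4, h5, nsq_smul, nsq_smul, map_mul, map_pow, Real.log_mul p5.ne' p1.ne',
    Real.log_mul (by positivity) p2.ne', Real.log_mul (by positivity) p5.ne',
    Real.log_mul p4.ne' p3.ne', Real.log_pow]
  push_cast
  ring

end ADJ9

open ADJ9 in
theorem st_ADJ (hLG : St_LG) (hCMP : St_CMP) (hFS : St_FS) : St_ADJ := by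
  intro n M ι _ f γ hf hγ hT
  have hex : ∀ x, ∃ F, Lift M f (M.ch x) (M.ch x x) F := fun x =>
    hf.ex _ (Mf.ch_mem x) _ (Mf.ch_tgt x)
  choose L hL using hex
  set ψ : M.X → ℝ := fun x => val (fs M f (M.ch x)) (L x) (M.ch x x) with hψ
  have key : ∀ c z F, Lift M f c z F → ψ ∘ c.symm =ᶠ[𝓝 z] val (fs M f c) F := fun c z F h =>
    h.near.mono fun w hw => val_eq hCMP hf hγ hT hw (hL _) (Mf.ch_symm _).symm
  have sm : ∀ c z F, Lift M f c z F →
      ContDiffAt ℝ ∞ (fun w => Real.log (fs M f c w).det.re) z ∧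
      ContDiffAt ℝ ∞ (fun w => Real.log (nsq (gv F w))) z ∧
      ContDiffAt ℝ ∞ (fun w => Real.log (nsq (F w))) z := fun c z F h =>
    have h' := hγ.lift c z F h
    ⟨((mCOF n _ z (hT.sm c h.mem z h.tgt)).2.2.2.2.2 (hT.pos.ev h.mem h.tgt)).2.1,
      (hLG n _ _ z h'.hol).1.log (nsq_pos (h'.ne hγ.map.ne)).ne',
      (hLG n _ _ z h.hol).1.log (nsq_pos (h.ne hf.ne)).ne'⟩
  refine ⟨ψ, fun c hc z hz => ?_, fun c hc z hz => ?_⟩
  · obtain ⟨F, h⟩ := hf.ex c hc z hz
    obtain ⟨s1, s2, s3⟩ := sm c z F h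
    exact ((s1.sub s2).add (contDiffAt_const.mul s3)).congr_of_eventuallyEq (key c z F h)
  · obtain ⟨F, h⟩ := hf.ex c hc z hz
    obtain ⟨s1, s2, s3⟩ := sm c z F h
    have t1 : ContDiffAt ℝ ∞ (ld (fs M f c)) z := cd_ofReal s1
    have t2 : ContDiffAt ℝ ∞ (lg (gv F)) z := cd_ofReal s2
    have t3 : ContDiffAt ℝ ∞ (lg F) z := cd_ofReal s3
    have e1 : M.lc ψ c =ᶠ[𝓝 z] fun w => ld (fs M f c) w - lg (gv F) w +
        (((n : ℝ) + 1 : ℝ) : ℂ) * lg F w := (key c z F h).mono fun w hw => by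
      change ((ψ ∘ c.symm) w : ℂ) = _
      rw [hw]
      simp only [val, ld, lg]
      push_cast
      ring
    have e2 : M.hs ψ c z = hess (ld (fs M f c)) z - hess (lg (gv F)) z +
        ((n : ℝ) + 1) • hess (lg F) z := by
      change hess (M.lc ψ c) z = _
      rw [hess_congr e1, hess_add (t1.sub t2) (contDiffAt_const.mul t3), hess_sub t1 t2,
        hess_const_mul _ t3]
      rfl
    rw [e2, (hFS n M _ γ hγ.map).2 c z _ (hγ.lift c z F h), (hFS n M _ f hf).2 c z F h, Mf.ric,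
      neg_neg]
    abel

end Pool.Agent.Lib.PN
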