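import Pool.Agent.Lib.PN.Kit

/-! Project pn, block ALG: the equations of a projective manifold define a smooth scheme. -/

open scoped Classical Topology
open Set Filter MvPolynomial

noncomputable section

namespace Pool.Agent.Lib.PN

open Pool.Agent.Lib.SV (E)
open Pool.Agent.Lib.HS32 Pool.Agent.Lib.MP_7fcda1_ag Pool.Agent.Lib.UR.M

namespace ALG79

variable {ρ n N e : ℕ} {Λ ι : Type}

theorem amin_smul {G : Λ → Pol N} (hG : ∀ l, (G l).IsHomogeneous e) (S : Fin ρ → Fin (N + 1))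
    (I : Fin ρ → Λ) (a : ℂ) (y : Fin (N + 1) → ℂ) :
    eval (a • y) (amin G S I) = (a ^ (e - 1)) ^ ρ * eval y (amin G S I) := by
  have h1 : ∀ w : Fin (N + 1) → ℂ, eval w (amin G S I) =
      pl (fun r l => eval w (pderiv (S r) (G l))) I := fun w =>
    (congrFun (pl_map (eval w) fun r l => pderiv (S r) (G l)) I).symm
  rw [h1, h1]
  have h2 := Matrix.det_smul (Matrix.of fun i j => eval y (pderiv (S i) (G (I j)))) (a ^ (e - 1))
  rw [Fintype.card_fin] at h2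
  refine Eq.trans (congrArg Matrix.det (Matrix.ext fun i j => ?_)) h2
  exact eval_smul_hom ((hG (I j)).pderiv (i := S i)) a y

/-- Forget the first coordinate. -/
def tl (n : ℕ) : E (n + 1) →L[ℂ] E n :=
  ContinuousLinearMap.pi fun a => ContinuousLinearMap.proj a.succ

/-- The cone over a lift. -/
def cone (c : ℂ) (F : E n → ι → ℂ) (u : E (n + 1)) : ι → ℂ := (c * u 0) • F (tl n u)

theorem tl_cons (z : E n) : tl n (Fin.cons 1 z) = z := rfl

theorem cone_cons (c : ℂ) (F : E n → ι → ℂ) (z : E n) : cone c F (Fin.cons 1 z) = c • F z := by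
  simp [cone, tl_cons]

theorem tl_tendsto (z : E n) : Tendsto (tl n) (𝓝 (Fin.cons 1 z)) (𝓝 z) :=
  (tl n).continuous.tendsto' _ _ (tl_cons z)

theorem cone_deriv [Fintype ι] (c : ℂ) {F : E n → ι → ℂ} {u : E (n + 1)}
    (h : DifferentiableAt ℂ F (tl n u)) : DifferentiableAt ℂ (cone c F) u ∧ ∀ v,
      fderiv ℂ (cone c F) u v = (c * u 0) • fderiv ℂ F (tl n u) (tl n v) +
        (c * v 0) • F (tl n u) := by
  have h1 : HasFDerivAt (fun u : E (n + 1) => c * u 0)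
      (c • (ContinuousLinearMap.proj 0 : E (n + 1) →L[ℂ] ℂ)) u :=
    (ContinuousLinearMap.proj 0 : E (n + 1) →L[ℂ] ℂ).hasFDerivAt.const_mul c
  have h2 := h.hasFDerivAt.comp u (tl n).hasFDerivAt
  have h3 : HasFDerivAt (cone c F) _ u := h1.smul h2
  refine ⟨h3.differentiableAt, fun v => ?_⟩
  rw [h3.fderiv]
  simp

theorem cone_inj [Fintype ι] {c : ℂ} (hc : c ≠ 0) {F : E n → ι → ℂ} {z : E n}
    (h : DifferentiableAt ℂ F z) (h0 : F z ≠ 0)
    (hi : ∀ (t : ℂ) (v : E n), fderiv ℂ F z v = t • F z → v = 0) :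
    Function.Injective (fderiv ℂ (cone c F) (Fin.cons 1 z)) := by
  refine (injective_iff_map_eq_zero _).2 fun v hv => ?_
  rw [(cone_deriv c (u := Fin.cons 1 z) h).2, tl_cons, Fin.cons_zero, mul_one, mul_smul,
    ← smul_add, smul_eq_zero, or_iff_right hc] at hv
  have h1 : tl n v = 0 := hi (-v 0) _ (by rw [neg_smul]; exact eq_neg_of_add_eq_zero_left hv)
  rw [h1, map_zero, zero_add, smul_eq_zero, or_iff_left h0] at hv
  funext a
  exact Fin.cases hv (fun a => congrFun h1 a) a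

/-- At a complex point, the equations with independent differentials generate all equations. -/
theorem loc (hKRU : St_KRU) {M : Mf n} {G : Λ → Pol (ρ + n)} {f : M.X → Fin (ρ + n + 1) → ℂ}
    (hP : Prj M e G f) {x : Fin (ρ + n + 1) → ℂ} (hx : x ≠ 0) (hG : ∀ l, eval x (G l) = 0)
    {I : Fin ρ → Λ} {S : Fin ρ → Fin (ρ + n + 1)} (hm : eval x (amin G S I) ≠ 0) (l : Λ) :
    ∃ δ : Pol (ρ + n), eval x δ ≠ 0 ∧ δ * G l ∈ Ideal.span (range fun r => G (I r)) := by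
  obtain ⟨x₀, a, rfl⟩ := hP.onto x hx hG
  have ha : a ≠ 0 := left_ne_zero_of_smul hx
  obtain ⟨c, hc, hx₀⟩ := M.cov x₀
  obtain ⟨F, hF⟩ := hP.map.ex c hc (c x₀) (c.map_source hx₀)
  obtain ⟨b, hb, hFb⟩ := hF.ev.self_of_nhds
  rw [c.left_inv hx₀] at hFb
  have h0 : cone (a * b⁻¹) F (Fin.cons 1 (c x₀)) = a • f x₀ := by
    rw [cone_cons, hFb, smul_smul, inv_mul_cancel_right₀ hb]
  have hz : ∀ l, ∀ᶠ u in 𝓝 (Fin.cons 1 (c x₀) : E (n + 1)),
      eval (cone (a * b⁻¹) F u) (G l) = 0 := fun l => by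
    filter_upwards [(tl_tendsto (c x₀)).eventually hF.ev] with u ⟨b', _, hu⟩
    rw [cone, hu, smul_smul, eval_smul_hom (hP.hom l), hP.zero, mul_zero]
  have h1 := hKRU ρ n (fun r => G (I r)) (cone (a * b⁻¹) F) (Fin.cons 1 (c x₀))
    (((tl_tendsto (c x₀)).eventually hF.hol).mono fun u hu => (cone_deriv _ hu).1)
    (cone_inj (mul_ne_zero ha (inv_ne_zero hb)) hF.hol.self_of_nhds (hF.ne hP.map.ne)
      (hP.imm c _ F hF)) (eventually_all.2 fun r => hz (I r))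
    (by
      rw [h0]
      simpa only [aeval_eq_eval] using
        Cert.indep (κ := ℂ) (G := G) (I := I) (S := S) (by rwa [aeval_eq_eval])) (G l) (hz l)
  rwa [h0] at h1

end ALG79

open ALG79

theorem st_ALG (hSPC : St_SPC) (hKRU : St_KRU) : St_ALG := by
  intro ρ n e M Λ _ G f hP
  refine ⟨hP.pos, hP.hom, fun κ _ _ ξ hξ hG => ?_⟩
  obtain ⟨i, hi⟩ := Function.ne_iff.1 hξ
  have hi' : aeval ξ (X i : Pol (ρ + n)) ≠ 0 := by rwa [aeval_X]
  have h1 : ∃ (I : Fin ρ → Λ) (S : Fin ρ → Fin (ρ + n + 1)), aeval ξ (amin G S I) ≠ 0 := by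
    obtain ⟨x, hx, hx0⟩ := hSPC _ κ ξ (X i) hi'
    rw [eval_X] at hx
    obtain ⟨x₀, a, rfl⟩ := hP.onto x (Function.ne_iff.2 ⟨i, hx⟩) fun l => hx0 _ (hG l)
    obtain ⟨I, S, h⟩ := hP.jac x₀
    refine ⟨I, S, fun h0 => ?_⟩
    have h2 := hx0 _ h0
    rw [amin_smul hP.hom] at h2
    exact mul_ne_zero (pow_ne_zero _ (pow_ne_zero _ (left_ne_zero_of_mul hx))) h h2
  obtain ⟨I, S, hm⟩ := h1
  obtain ⟨x, hx, hx0⟩ := hSPC _ κ ξ (X i * amin G S I) (by
    rw [map_mul]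
    exact mul_ne_zero hi' hm)
  rw [map_mul, eval_X] at hx
  choose δ hδ hδ' using loc hKRU hP (Function.ne_iff.2 ⟨i, left_ne_zero_of_mul hx⟩)
    (fun l => hx0 _ (hG l)) (right_ne_zero_of_mul hx)
  refine ⟨I, S, ∏ l, δ l, hm, ?_, fun l => ?_⟩
  · rw [map_prod]
    exact Finset.prod_ne_zero_iff.2 fun l _ h => hδ l (hx0 _ h)
  · rw [← Finset.prod_erase_mul _ _ (Finset.mem_univ l), mul_assoc]
    exact Ideal.mul_mem_left _ _ (hδ' l)

end Pool.Agent.Lib.PN
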