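import Pool.Agent.Lib.PN.Kit

/-! Project pn: the row CPT. -/

open scoped Classical Topology ContDiff ComplexOrder Matrix
open Set Complex Filter

noncomputable section

namespace Pool.Agent.Lib.PN

open Pool.Agent.Lib.SV (E nsq)
open Pool.Agent.Lib.HS32

namespace CPT30

variable {n : ℕ}

theorem nq_vsmul (A : Mat n) (c : ℝ) (v : E n) : nq A ((c : ℂ) • v) = c ^ 2 * nq A v := by
  simp only [nq, star_smul, Matrix.mulVec_smul, smul_dotProduct, dotProduct_smul, smul_eq_mul,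
    RCLike.star_def, conj_ofReal, re_ofReal_mul]
  ring

/-- Positivity on the unit sphere is enough. -/
theorem pos_of_sphere {A : Mat n} (h : ∀ v ∈ Metric.sphere (0 : E n) 1, 0 < nq A v) (v : E n)
    (hv : v ≠ 0) : 0 < nq A v := by
  have h0 : 0 < ‖v‖ := norm_pos_iff.2 hv
  have h1 := h (((‖v‖⁻¹ : ℝ) : ℂ) • v) (by
    rw [mem_sphere_zero_iff_norm, norm_smul, Complex.norm_real, Real.norm_eq_abs,
      abs_of_pos (inv_pos.2 h0), inv_mul_cancel₀ h0.ne'])
  rw [nq_vsmul] at h1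
  exact (mul_pos_iff_of_pos_left (pow_pos (inv_pos.2 h0) 2)).1 h1

theorem nq_eq (A : Mat n) (v : E n) :
    nq A v = (∑ i, star (v i) * ∑ j, A i j * v j).re := by
  simp [nq, dotProduct, Matrix.mulVec]

theorem nq_contAt {T : E n → Mat n} {z : E n} (h : SmM T z) (v : E n) :
    ContinuousAt (fun p : E n × E n => nq (T p.1) p.2) (z, v) := by
  simp only [nq_eq]
  refine Complex.continuous_re.continuousAt.comp ?_
  refine tendsto_finsetSum _ fun i _ => ContinuousAt.mul (by fun_prop) ?_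
  refine tendsto_finsetSum _ fun j _ => ContinuousAt.mul ?_ (by fun_prop)
  exact ContinuousAt.comp (f := Prod.fst) (g := fun w => T w i j) (h i j).continuousAt
    continuousAt_fst

theorem nq_cont (A : Mat n) : Continuous fun v => nq A v := by
  simp only [nq_eq]
  fun_prop

theorem ev_pos {T : E n → Mat n} {z : E n} (h : SmM T z) (hp : (T z).PosDef) :
    ∀ᶠ w in 𝓝 z, ∀ v, v ≠ 0 → 0 < nq (T w) v := by
  have h1 : ∀ᶠ w in 𝓝 z, ∀ v ∈ Metric.sphere (0 : E n) 1, 0 < nq (T w) v := by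
    refine (isCompact_sphere (0 : E n) 1).eventually_forall_of_forall_eventually
      (P := fun w v => 0 < nq (T w) v) fun v hv => ?_
    have hv0 : v ≠ 0 := by
      rintro rfl
      simp at hv
    exact (nq_contAt h v).eventually (lt_mem_nhds (nq_pos hp hv0))
  exact h1.mono fun w hw => pos_of_sphere hw

/-- One chart is enough. -/
theorem all_of_one {M : Mf n} {Q : M.Fam (Mat n)} (hQ : M.Form Q) {x : M.X} {c₀ : M.Ch}
    (h₀ : c₀ ∈ M.C) (hx : x ∈ c₀.source) (hp : (Q c₀ (c₀ x)).PosDef) :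
    ∀ c ∈ M.C, x ∈ c.source → (Q c (c x)).PosDef := by
  intro c hc hxc
  rw [hQ.cmp c₀ h₀ c hc x hx hxc]
  exact hp.conjTranspose_mul_mul_same
    (Matrix.mulVec_injective_of_det_ne_zero ((mTR n M).2.1 c₀ h₀ c hc x hx hxc).2.1)

theorem isOpen_pd {M : Mf n} {Q : M.Fam (Mat n)} (hQ : M.Form Q) :
    IsOpen {x | ∀ c ∈ M.C, x ∈ c.source → (Q c (c x)).PosDef} := by
  refine isOpen_iff_mem_nhds.2 fun x hx => ?_
  obtain ⟨c₀, h₀, hx₀⟩ := M.cov x
  have h1 := ev_pos (hQ.sm c₀ h₀ _ (c₀.map_source hx₀)) (hx c₀ h₀ hx₀)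
  have h2 := (c₀.continuousAt hx₀).eventually h1
  filter_upwards [h2, c₀.open_source.mem_nhds hx₀] with y hy hy₀
  exact all_of_one hQ h₀ hy₀ (pd_of_nq (hQ.herm c₀ h₀ _ (c₀.map_source hy₀)) hy)

/-- The constant at one point. -/
theorem exists_const {A B : Mat n} (hB : B.PosSemidef)
    (h : ∀ v, v ≠ 0 → nq B v = 0 → 0 < nq A v) :
    ∃ k : ℕ, ∀ v, v ≠ 0 → 0 < nq (A + (k : ℝ) • B) v := by
  obtain ⟨t, ht⟩ := (isCompact_sphere (0 : E n) 1).elim_finite_subcover
    (fun k : ℕ => {v | 0 < nq A v + k * nq B v})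
    (fun k => isOpen_lt continuous_const ((nq_cont A).add (continuous_const.mul (nq_cont B))))
    (by
      intro v hv
      have hv0 : v ≠ 0 := by
        rintro rfl
        simp at hv
      rw [mem_iUnion]
      rcases (nq_nonneg hB v).eq_or_lt with h1 | h1
      · exact ⟨0, by simpa using h v hv0 h1.symm⟩
      · obtain ⟨k, hk⟩ := exists_nat_gt (-nq A v / nq B v)
        rw [div_lt_iff₀ h1] at hk
        exact ⟨k, by simp only [mem_ofPred_eq]; linarith only [hk]⟩)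
  refine ⟨t.sup id, pos_of_sphere fun v hv => ?_⟩
  obtain ⟨k, hk, hk'⟩ := mem_iUnion₂.1 (ht hv)
  have h1 : (k : ℝ) ≤ (t.sup id : ℕ) := by exact_mod_cast Finset.le_sup (f := id) hk
  have h2 := mul_le_mul_of_nonneg_right h1 (nq_nonneg hB v)
  rw [nq_add, nq_smul]
  simp only [mem_ofPred_eq] at hk'
  linarith only [hk', h2]

end CPT30

open CPT30

theorem st_CPT : St_CPT := by
  intro n M _ Q hQ
  refine ⟨isOpen_pd hQ, fun B K hB hK h => ?_⟩
  have hF : ∀ r : ℝ, M.Form (Q + r • B) := fun r => hQ.add (hB.smul r)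
  obtain ⟨t, ht⟩ := hK.isCompact.elim_finite_subcover
    (fun k : ℕ => {x | ∀ c ∈ M.C, x ∈ c.source → ((Q + (k : ℝ) • B) c (c x)).PosDef})
    (fun k => isOpen_pd (hF k))
    (by
      intro x hx
      obtain ⟨c₀, h₀, hx₀⟩ := M.cov x
      obtain ⟨a, b⟩ := h c₀ h₀ _ (c₀.map_source hx₀) (by rwa [c₀.left_inv hx₀])
      obtain ⟨k, hk⟩ := exists_const a b
      exact mem_iUnion.2 ⟨k, all_of_one (hF k) h₀ hx₀
        (pd_of_nq ((hF k).herm c₀ h₀ _ (c₀.map_source hx₀)) hk)⟩)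
  refine ⟨(t.sup id : ℕ), fun c hc z hz hzK => ?_⟩
  obtain ⟨k, hk, hk'⟩ := mem_iUnion₂.1 (ht hzK)
  have h1 : (k : ℝ) ≤ (t.sup id : ℕ) := by exact_mod_cast Finset.le_sup (f := id) hk
  have h2 := hk' c hc (c.map_target hz)
  rw [c.right_inv hz] at h2
  refine pd_of_nq ((hF _).herm c hc z hz) fun v hv => ?_
  have h3 : 0 < nq (Q c z + (k : ℝ) • B c z) v := nq_pos h2 hv
  have h4 := mul_le_mul_of_nonneg_right h1 (nq_nonneg (h c hc z hz hzK).1 v)
  rw [nq_add, nq_smul] at h3 ⊢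
  linarith only [h3, h4]

end Pool.Agent.Lib.PN
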