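import Pool.Agent.Lib.PN.Kit

/-! Project pn: the metric and the Gauss map of an immersion. -/

open scoped Classical Topology ContDiff ComplexOrder Matrix
open Set Complex Filter MvPolynomial

noncomputable section

namespace Pool.Agent.Lib.PN

open Pool.Agent.Lib.SV (E nsq)
open Pool.Agent.Lib.HS32 Pool.Agent.Lib.MP_7fcda1_ag

namespace X34

variable {n : ℕ} {ι : Type} [Fintype ι]

theorem nsq_sub_smul (a b : ι → ℂ) (t : ℂ) :
    nsq (b - t • a) = nsq b + normSq t * nsq a - 2 * (star t * ∑ i, b i * star (a i)).re := by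
  simp only [nsq, Pi.sub_apply, Pi.smul_apply, smul_eq_mul, normSq_sub, map_mul, Finset.mul_sum,
    re_sum, ← Finset.sum_add_distrib, ← Finset.sum_sub_distrib]
  refine Finset.sum_congr rfl fun i _ => ?_
  rw [show star t * (b i * star (a i)) = b i * ((starRingEnd ℂ) t * (starRingEnd ℂ) (a i)) by
    simp only [star_def]; ring]

/-- The strict inequality of Cauchy and Schwarz. -/
theorem cs_strict {a b : ι → ℂ} (ha : a ≠ 0) (h : ∀ t : ℂ, b ≠ t • a) :
    0 < nsq a * nsq b - normSq (∑ i, b i * star (a i)) := by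
  have h0 := nsq_pos ha
  set s := ∑ i, b i * star (a i) with hs
  have h1 := nsq_pos (sub_ne_zero.2 (h (s / (nsq a : ℝ))))
  rw [nsq_sub_smul, ← hs] at h1
  have h2 : (star (s / ((nsq a : ℝ) : ℂ)) * s).re = normSq s / nsq a := by
    rw [star_div₀, star_def, conj_ofReal, div_mul_eq_mul_div, ← normSq_eq_conj_mul_self,
      ← ofReal_div, ofReal_re]
  rw [h2, map_div₀, normSq_ofReal] at h1
  have h3 : nsq a * nsq b - normSq s =
      nsq a * (nsq b + normSq s / (nsq a * nsq a) * nsq a - 2 * (normSq s / nsq a)) := by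
    field_simp; ring
  rw [h3]
  exact mul_pos h0 h1

theorem gv_ne {F : E n → ι → ℂ} {z : E n} (h0 : F z ≠ 0)
    (h : ∀ (t : ℂ) (v : E n), fderiv ℂ F z v = t • F z → v = 0) : gv F z ≠ 0 := by
  refine pl_ne_zero_iff.2 (Fintype.linearIndependent_iff.2 fun g hg => ?_)
  rw [Fin.sum_univ_succ] at hg
  simp only [Fin.cons_zero, Fin.cons_succ] at hg
  have h1 : fderiv ℂ F z (fun a => g a.succ) =
      ∑ a, g a.succ • fderiv ℂ F z (Pi.single a 1) := by
    conv_lhs => rw [pi_eq_sum_univ' (fun a : Fin n => g a.succ)]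
    simp only [map_sum, map_smul]
  have h2 := h (-g 0) (fun a => g a.succ) (by
    rw [h1, neg_smul]; exact eq_neg_of_add_eq_zero_right hg)
  rw [← h1, h2, map_zero, add_zero] at hg
  exact Fin.cases ((smul_eq_zero.1 hg).resolve_right h0) fun a => congrFun h2 a

end X34

open X34 in
theorem st_GAU (hLG : St_LG) (hCMP : St_CMP) (hFS : St_FS) : St_GAU := by
  intro n M ι _ f hf him
  obtain ⟨hC, hL⟩ := hFS n M ι f hf
  have hp : M.All fun c z => (fs M f c z).PosDef := fun c hc z hz => by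
    obtain ⟨F, hF⟩ := hf.ex c hc z hz
    refine pd_of_nq (hC.herm c hc z hz) fun v hv => ?_
    have h0 := hF.ne hf.ne
    rw [hL c z F hF, ((hLG n ι F z hF.hol).2.2 h0).2 v]
    exact div_pos (cs_strict h0 fun t ht => hv (him c z F hF t v ht)) (pow_pos (nsq_pos h0) 2)
  refine ⟨{ hC with pos := hp }, ?_⟩
  choose F₀ h₀ using fun x => hf.ex _ (Mf.ch_mem x) _ (Mf.ch_tgt x)
  have hg : ∀ c z F, Lift M f c z F → gv F z ≠ 0 := fun c z F hF =>
    gv_ne (hF.ne hf.ne) (him c z F hF)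
  have hl : ∀ c z F, Lift M f c z F →
      Lift M (fun x => gv (F₀ x) (M.ch x x)) c z (gv F) := fun c z F hF => by
    refine ⟨hF.mem, hF.tgt, holN_gv hF.hol, hF.near.mono fun w hw => ?_⟩
    obtain ⟨μ, -, -, -, h⟩ := (hCMP n M ι f _ c _ w _ F hf.ne (h₀ (c.symm w))).2 hw
      (Mf.ch_symm _)
    refine ⟨_, fun h1 => hg c w F hw ?_, h⟩
    rw [h, h1, zero_smul]
  exact ⟨_, ⟨fun x => hg _ _ _ (h₀ x), fun c hc z hz =>
    let ⟨F, hF⟩ := hf.ex c hc z hz
    ⟨_, hl c z F hF⟩⟩, hl⟩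

end Pool.Agent.Lib.PN
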