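import Pool.Agent.Lib.PN.Blue

/-! Project pn, block GLU: gluing of strictly quasi-plurisubharmonic functions. -/

open scoped Classical Topology ContDiff ComplexOrder Matrix Manifold
open Set Complex Filter MvPolynomial

noncomputable section

namespace Pool.Agent.Lib.PN

open Pool.Agent.Lib.SV (E nsq)
open Pool.Agent.Lib.HS32

namespace GLU9

variable {n : ℕ}

theorem nq_add (S T : Mat n) (v : E n) : nq (S + T) v = nq S v + nq T v := by
  simp only [nq, Matrix.add_mulVec, dotProduct_add, add_re]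

theorem nq_sub (S T : Mat n) (v : E n) : nq (S - T) v = nq S v - nq T v := by
  simp only [nq, Matrix.sub_mulVec, dotProduct_sub, sub_re]

theorem nq_neg (T : Mat n) (v : E n) : nq (-T) v = -nq T v := by
  simp only [nq, Matrix.neg_mulVec, dotProduct_neg, neg_re]

theorem nq_rsmul (c : ℝ) (T : Mat n) (v : E n) : nq (c • T) v = c * nq T v := by
  simp only [nq, Matrix.smul_mulVec, dotProduct_smul, smul_re, smul_eq_mul]

theorem nq_pos {T : Mat n} (h : T.PosDef) {v : E n} (hv : v ≠ 0) : 0 < nq T v :=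
  (Complex.pos_iff.1 (h.dotProduct_mulVec_pos hv)).1

theorem nq_nonneg {T : Mat n} (h : T.PosSemidef) (v : E n) : 0 ≤ nq T v :=
  (Complex.nonneg_iff.1 (h.dotProduct_mulVec_nonneg v)).1

theorem lower {X : Type} [TopologicalSpace X] {K : Set X} (hK : IsCompact K) {Φ : X → ℝ}
    (hΦ : Continuous Φ) (h : ∀ x ∈ K, 0 < Φ x) : ∃ m : ℝ, 0 < m ∧ ∀ x ∈ K, m ≤ Φ x := by
  rcases K.eq_empty_or_nonempty with rfl | hne
  · exact ⟨1, one_pos, fun x hx => hx.elim⟩
  · obtain ⟨x, hx, hm⟩ := hK.exists_isMinOn hne hΦ.continuousOn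
    exact ⟨Φ x, h x hx, fun y hy => hm hy⟩

end GLU9

open GLU9 in
theorem st_GLU (hLSE : St_LSE) (hCPT : St_CPT) : St_GLU := by
  intro n M _ H θ V Φ Ψ u a hH hθ hV sΦ sΨ h0Φ h0Ψ hΨV ha hu hlog
  obtain ⟨su, hu⟩ := hu
  have fT : M.Form (θ + M.hs u) := hθ.add ((mHES n M).1 u su).toForm
  have hU := (hCPT n M _ fT).1
  set U := {x | ∀ c ∈ M.C, x ∈ c.source → ((θ + M.hs u) c (c x)).PosDef} with hUdef
  have hVU : ∀ x ∈ V, Φ x = 0 → x ∈ U := fun x hx h0 c hc hxc => by
    refine hu c hc (c x) (c.map_source hxc) ?_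
    rw [c.left_inv hxc]
    exact ⟨hx, h0⟩
  obtain ⟨m, hm, hmK⟩ := lower (hV.sdiff hU).isCompact sΦ.continuous fun x hx =>
    lt_of_le_of_ne (h0Φ x) fun h0 => hx.2 (hVU x hx.1 h0.symm)
  obtain ⟨C₁, hC₁, -, hlow⟩ := (mBD n M H hH).1 _ fT
  obtain ⟨x₁, hx₁⟩ := su.exists_max
  set κ : ℝ := Real.log (m / (2 * (a * C₁))) - a * u x₁ with hκ
  have hE : ∀ x, Real.exp (a * u x + κ) * (a * C₁) < m := fun x => by
    have h1 : Real.exp (a * u x + κ) ≤ m / (2 * (a * C₁)) := by
      rw [← Real.exp_log (show 0 < m / (2 * (a * C₁)) by positivity)]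
      refine Real.exp_le_exp.2 ?_
      have := mul_le_mul_of_nonneg_left (hx₁ x) ha.le
      rw [hκ]; linarith
    have h2 : m / (2 * (a * C₁)) * (a * C₁) = m / 2 := by field_simp
    have h3 := mul_le_mul_of_nonneg_right h1 (show 0 ≤ a * C₁ by positivity)
    linarith
  have sb : M.Sm fun x => a * u x + κ := (su.const_mul a).add (Mf.sm_const κ)
  have hb : M.All fun c z => M.hs (fun x => a * u x + κ) c z = a • M.hs u c z :=
    fun c hc z hz => by
      have h1 := ((mLAP n M _ _ (su.const_mul a) (Mf.sm_const κ)).1 κ c hc z hz)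
      have h2 := ((mLAP n M _ _ su su).1 a c hc z hz).2.2.2.1
      beta_reduce
      rw [h1.2.1, h1.1, add_zero, h2]
  have sW : M.Sm fun x => Real.log (Φ x + Real.exp (a * u x + κ)) :=
    (sΦ.add sb.exp).log fun x => (add_pos_of_nonneg_of_pos (h0Φ x) (Real.exp_pos _)).ne'
  set W : M.X → ℝ := fun x => Real.log (Φ x + Real.exp (a * u x + κ)) with hW
  have fQ : M.Form (a • θ + M.hs W) := (hθ.smul a).add ((mHES n M).1 W sW).toForm
  obtain ⟨C, hC⟩ := (hCPT n M _ fQ).2 (M.hs Ψ) V ((mHES n M).1 Ψ sΨ).toForm hV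
    fun c hc z hz hzV => by
      have hsrc := c.map_target hz
      constructor
      · have hmin : IsLocalMin Ψ (c.symm z) :=
          Eventually.of_forall fun y => by rw [hΨV _ hzV]; exact h0Ψ y
        have := ((((mLAP n M Ψ Ψ sΨ sΨ).2.2 H hH).2.2.1 (c.symm z) 0).2.2.2.2.2.2.2.2.2 hmin).2.2
          c hc hsrc
        rwa [c.right_inv hz] at this
      intro v hv hBv
      obtain ⟨l1, l2⟩ := hLSE n (fun w => Φ (c.symm w)) (fun w => a * u (c.symm w) + κ) z v
        (sΦ c hc z hz) (sb c hc z hz) (Eventually.of_forall fun w => h0Φ _)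
      change _ → nq (M.hs (fun x => a * u x + κ) c z) v ≤ nq (M.hs W c z) v at l1
      change _ → _ * nq (M.hs (fun x => Real.log (Φ x)) c z) v +
        _ * nq (M.hs (fun x => a * u x + κ) c z) v ≤ _ * nq (M.hs W c z) v at l2
      rw [hb c hc z hz, nq_rsmul] at l1 l2
      have hUpos : c.symm z ∈ U → 0 < nq (θ c z) v + nq (M.hs u c z) v := fun h => by
        have := nq_pos (h c hc hsrc) hv
        rwa [c.right_inv hz, Pi.add_apply, Pi.add_apply, nq_add] at this
      simp only [Pi.add_apply, Pi.smul_apply, nq_add, nq_rsmul]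
      rcases (h0Φ (c.symm z)).eq_or_lt with h0 | h0
      · have := mul_pos ha (hUpos (hVU _ hzV h0.symm))
        linarith [l1 h0.symm]
      have l3 := l2 h0
      have l4 := hlog c hc z hz hzV h0.ne' v hBv
      rw [nq_add, nq_rsmul] at l4
      have hHv := nq_pos (hH.pos c hc z hz) hv
      have hEp := Real.exp_pos (a * u (c.symm z) + κ)
      have l5 : 0 < Φ (c.symm z) * nq (H c z) v + Real.exp (a * u (c.symm z) + κ) *
          (a * (nq (θ c z) v + nq (M.hs u c z) v)) := by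
        by_cases hz' : c.symm z ∈ U
        · have := hUpos hz'
          positivity
        · have h1 := hmK _ ⟨hzV, hz'⟩
          have h2 := nq_nonneg (hlow c hc z hz) v
          simp only [Pi.add_apply, Pi.neg_apply, Pi.smul_apply, nq_sub, nq_add, nq_neg,
            nq_rsmul] at h2
          have h3 := mul_lt_mul_of_pos_right (hE (c.symm z)) hHv
          have h4 := mul_le_mul_of_nonneg_right h1 hHv.le
          have h5 := mul_nonneg (mul_pos hEp ha).le h2
          nlinarith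
      have l6 := mul_le_mul_of_nonneg_left l4 h0.le
      refine (mul_pos_iff_of_pos_left (add_pos h0 hEp)).1 ?_
      nlinarith
  have sS : M.Sm fun x => W x + C * Ψ x := sW.add (sΨ.const_mul C)
  refine ⟨fun x => a⁻¹ * (W x + C * Ψ x), sS.const_mul _, fun c hc z hz hzV => ?_⟩
  have h1 := ((mLAP n M _ _ sS sS).1 a⁻¹ c hc z hz).2.2.2.1
  have h2 := ((mLAP n M _ _ sW (sΨ.const_mul C)).1 0 c hc z hz).2.1
  have h3 := ((mLAP n M _ _ sΨ sΨ).1 C c hc z hz).2.2.2.1
  have h4 := Mf.pd_rsmul (hC c hc z hz hzV) (inv_pos.2 ha)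
  rw [h1, h2, h3]
  simp only [Pi.add_apply, Pi.smul_apply] at h4
  rwa [add_assoc, smul_add, inv_smul_smul₀ ha.ne'] at h4

end Pool.Agent.Lib.PN
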