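import Pool.Agent.Lib.PN.Blue

/-! Row INV: the inverse of the embedding is holomorphic. -/

open scoped Classical Topology ContDiff ComplexOrder Matrix
open Set Complex Filter

noncomputable section

namespace Pool.Agent.Lib.PN

open Pool.Agent.Lib.SV (E nsq)
open Pool.Agent.Lib.HS32

namespace INV68

variable {ι : Type} [Fintype ι]

/-- The orthogonal projection on the line through `y`. -/
def pr (y : ι → ℂ) : ι → ι → ℂ := fun i j => y i * star (y j) / ∑ k, y k * star (y k)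

theorem den_ne {y : ι → ℂ} (h : y ≠ 0) : ∑ k, y k * star (y k) ≠ 0 := fun h0 =>
  h (dotProduct_self_star_eq_zero.1 h0)

theorem pr_smul {y : ι → ℂ} {a : ℂ} (ha : a ≠ 0) : pr (a • y) = pr y := by
  funext i j
  have e : ∑ k, a * y k * (star a * star (y k)) = a * star a * ∑ k, y k * star (y k) := by
    rw [Finset.mul_sum]
    exact Finset.sum_congr rfl fun k _ => by ring
  simp only [pr, Pi.smul_apply, smul_eq_mul, star_mul', e]
  rw [show a * y i * (star a * star (y j)) = a * star a * (y i * star (y j)) by ring,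
    mul_div_mul_left _ _ (mul_ne_zero ha (star_ne_zero.2 ha))]

theorem pr_inj {y y' : ι → ℂ} (h : y ≠ 0) (e : pr y = pr y') : ∃ a : ℂ, y = a • y' := by
  refine ⟨(∑ j, star (y' j) * y j) / ∑ k, y' k * star (y' k), funext fun i => ?_⟩
  have h1 : ∑ j, pr y i j * y j = y i := by
    simp only [pr, div_mul_eq_mul_div, ← Finset.sum_div, mul_assoc, ← Finset.mul_sum]
    rw [div_eq_iff (den_ne h)]
    simp only [mul_comm]
  rw [← h1, e]
  simp only [pr, div_mul_eq_mul_div, ← Finset.sum_div, mul_assoc, ← Finset.mul_sum, Pi.smul_apply,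
    smul_eq_mul]
  rw [mul_comm]

theorem pr_cont {y : ι → ℂ} (h : y ≠ 0) : ContinuousAt pr y :=
  continuousAt_pi.2 fun i => continuousAt_pi.2 fun j =>
    ContinuousAt.div (by fun_prop) (by fun_prop) (den_ne h)

variable {n : ℕ} {M : Mf n} {f : M.X → ι → ℂ}

theorem cont_pr (hf : PMap M f) : Continuous fun x => pr (f x) := by
  refine continuous_iff_continuousAt.2 fun x => ?_
  obtain ⟨F, hF⟩ := hf.ex _ (Mf.ch_mem x) _ (Mf.ch_tgt x)
  have c := (M.ch x).continuousAt (Mf.mem_ch x)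
  refine (((pr_cont (hF.ne hf.ne)).comp hF.hol.self_of_nhds.continuousAt).comp c).congr ?_
  filter_upwards [c.eventually hF.ev, (M.ch x).open_source.mem_nhds (Mf.mem_ch x)]
    with y ⟨a, ha, e⟩ hy
  show pr (F (M.ch x y)) = _
  rw [e, pr_smul ha, (M.ch x).left_inv hy]

theorem hol_inv {F : E n → ι → ℂ} {z : E n} (hF : HolN F z)
    (hi : Function.Injective (fderiv ℂ F z)) {u : ℂ → E n} {q : ℂ → ι → ℂ} {t : ℂ}
    (hu : ContinuousAt u t) (h0 : u t = z) (hq : DifferentiableAt ℂ q t)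
    (e : ∀ᶠ s in 𝓝 t, F (u s) = q s) : DifferentiableAt ℂ u t := by
  obtain ⟨l, hl⟩ := (fderiv ℂ F z).toLinearMap.exists_leftInverse_of_injective
    (LinearMap.ker_eq_bot.2 hi)
  let L := LinearMap.toContinuousLinearMap l
  have h1 : HasFDerivAt (L ∘ F) ((ContinuousLinearEquiv.refl ℂ (E n) : E n →L[ℂ] E n)) (u t) := by
    rw [h0]
    refine (L.hasFDerivAt.comp z hF.self_of_nhds.hasFDerivAt).congr_fderiv ?_
    ext1 v
    exact LinearMap.congr_fun hl v
  have h2 : HasFDerivAt (L ∘ q) (L.comp (fderiv ℂ q t)) t := L.hasFDerivAt.comp t hq.hasFDerivAt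
  exact (HasFDerivAt.of_comp_of_leftInverse hu h1 h2 (e.mono fun s hs => congrArg L hs)
    (f'symm := ContinuousLinearMap.id ℂ (E n)) fun _ => rfl).differentiableAt

end INV68

open INV68

theorem st_INV : St_INV := by
  intro ρ n e M _ Λ G f p φ hP hp h
  have p0 : ∀ t, p t ≠ 0 := fun t => by
    obtain ⟨a, ha, e⟩ := h t
    rw [e]
    exact smul_ne_zero ha (hP.map.ne _)
  have emb := (cont_pr hP.map).isClosedEmbedding fun x x' e =>
    let ⟨a, ha⟩ := pr_inj (hP.map.ne x) e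
    hP.inj x x' a ha
  have cφ : Continuous φ := by
    rw [emb.isEmbedding.continuous_iff]
    refine (continuous_iff_continuousAt.2 fun t =>
      (pr_cont (p0 t)).comp hp.continuous.continuousAt).congr fun t => ?_
    obtain ⟨a, ha, e⟩ := h t
    show pr (p t) = pr (f (φ t))
    rw [e, pr_smul ha]
  refine ⟨cφ, fun c hc t ht => ?_⟩
  obtain ⟨F, hF⟩ := hP.map.ex c hc _ (c.map_source ht)
  obtain ⟨i, hi⟩ := Function.ne_iff.1 (hF.ne hP.map.ne)
  obtain ⟨hF', h1⟩ := hF.norm hi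
  have cu : ContinuousAt (c ∘ φ) t := (c.continuousAt ht).comp cφ.continuousAt
  have ev : ∀ᶠ s in 𝓝 t, p s i ≠ 0 ∧
      (F ((c ∘ φ) s) i)⁻¹ • F ((c ∘ φ) s) = (p s i)⁻¹ • p s := by
    filter_upwards [cu.eventually hF'.ev, cu.eventually h1,
      cφ.continuousAt.eventually (c.open_source.mem_nhds ht)] with s ⟨a, ha, e1⟩ e2 hs
    obtain ⟨b, hb, e3⟩ := h s
    rw [e1] at e2 ⊢
    rw [Function.comp_apply, c.left_inv hs] at e2 ⊢
    have e4 : a * f (φ s) i = 1 := e2
    have e5 : f (φ s) i ≠ 0 := right_ne_zero_of_mul_eq_one e4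
    rw [e3, smul_smul]
    refine ⟨mul_ne_zero hb e5, congrArg (· • f (φ s)) ?_⟩
    rw [eq_inv_of_mul_eq_one_left e4]
    simp only [Pi.smul_apply, smul_eq_mul]
    field_simp
  refine hol_inv hF'.hol ?_ cu rfl (((differentiableAt_pi.1 (hp t) i).inv
    ev.self_of_nhds.1).smul (hp t)) (ev.mono fun s hs => hs.2)
  refine (injective_iff_map_eq_zero _).2 fun v hv => hP.imm _ _ _ hF' 0 v ?_
  rw [hv, zero_smul]

end Pool.Agent.Lib.PN
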