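import Pool.Agent.Lib.PN.ABlue

/-! Project pn, block KR1: local coordinates modulo powers of the maximal ideal. -/

open MvPolynomial Set

noncomputable section

namespace Pool.Agent.Lib.PN

namespace KR165

variable {σ : Type} [Fintype σ] [DecidableEq σ]

/-- The Taylor formula of order one. -/
theorem taylor (x : σ → ℂ) (g : MvPolynomial σ ℂ) :
    g - C (eval x g) - ∑ j, eval x (pderiv j g) • (X j - C (x j) : MvPolynomial σ ℂ) ∈
      RingHom.ker (eval x) ^ 2 := by
  induction g using MvPolynomial.induction_on with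
  | C a => simp
  | add p q hp hq =>
    have e : p + q - C (eval x (p + q)) -
        ∑ j, eval x (pderiv j (p + q)) • (X j - C (x j) : MvPolynomial σ ℂ) =
        (p - C (eval x p) - ∑ j, eval x (pderiv j p) • (X j - C (x j) : MvPolynomial σ ℂ)) +
        (q - C (eval x q) - ∑ j, eval x (pderiv j q) • (X j - C (x j) : MvPolynomial σ ℂ)) := by
      simp only [map_add, add_smul, Finset.sum_add_distrib]
      ring
    rw [e]
    exact add_mem hp hq
  | mul_X p i hp =>
    have e1 : ∀ j, eval x (pderiv j (p * X i)) • (X j - C (x j) : MvPolynomial σ ℂ) =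
        C (x i) * (eval x (pderiv j p) • (X j - C (x j) : MvPolynomial σ ℂ)) +
          if j = i then C (eval x p) * (X i - C (x i)) else 0 := by
      intro j
      rw [pderiv_mul]
      by_cases h : j = i
      · subst h
        simp only [pderiv_X_self, map_add, map_mul, eval_X, mul_one, smul_eq_C_mul, if_true]
        ring
      · simp only [pderiv_X_of_ne (Ne.symm h), map_mul, eval_X, mul_zero, add_zero, smul_eq_C_mul,
          if_neg h]
        ring
    have e : p * X i - C (eval x (p * X i)) -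
        ∑ j, eval x (pderiv j (p * X i)) • (X j - C (x j) : MvPolynomial σ ℂ) =
        C (x i) * (p - C (eval x p) -
          ∑ j, eval x (pderiv j p) • (X j - C (x j) : MvPolynomial σ ℂ)) +
        (p - C (eval x p)) * (X i - C (x i)) := by
      simp only [e1, Finset.sum_add_distrib, ← Finset.mul_sum, Finset.sum_ite_eq', Finset.mem_univ,
        if_true, map_mul, eval_X]
      ring
    rw [e]
    refine add_mem (Ideal.mul_mem_left _ _ hp) ?_
    rw [pow_two]
    exact Ideal.mul_mem_mul (by simp [RingHom.mem_ker]) (by simp [RingHom.mem_ker])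

variable {A B : Type} [CommRing A] [CommRing B] [Algebra ℂ A] [Algebra ℂ B]

/-- The elements that are approximated to order `k + 1` by an element of order `k` of the image. -/
def W (φ : B →ₐ[ℂ] A) (J m : Ideal A) (k : ℕ) : Submodule ℂ A where
  carrier := {g | ∃ q, φ q ∈ m ^ k ∧ g - φ q ∈ J ⊔ m ^ (k + 1)}
  zero_mem' := ⟨0, by simp, by simp⟩
  add_mem' := by
    rintro a b ⟨q, h1, h2⟩ ⟨q', h1', h2'⟩
    refine ⟨q + q', by rw [map_add]; exact add_mem h1 h1', ?_⟩
    rw [map_add, add_sub_add_comm]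
    exact add_mem h2 h2'
  smul_mem' := by
    rintro c a ⟨q, h1, h2⟩
    refine ⟨c • q, by rw [map_smul]; exact Submodule.smul_of_tower_mem _ c h1, ?_⟩
    rw [map_smul, ← smul_sub]
    exact Submodule.smul_of_tower_mem _ c h2

theorem W_all {φ : B →ₐ[ℂ] A} {J m : Ideal A} (h0 : ∀ g, g ∈ W φ J m 0)
    (h1 : ∀ g ∈ m, g ∈ W φ J m 1) (k : ℕ) : ∀ g ∈ m ^ k, g ∈ W φ J m k := by
  induction k with
  | zero => exact fun g _ => h0 g
  | succ k ih =>
    intro g hg
    rw [pow_succ] at hg
    refine Submodule.mul_induction_on hg (fun a ha b hb => ?_) fun a b => add_mem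
    obtain ⟨q, a1, a2⟩ := ih a ha
    obtain ⟨q', b1, b2⟩ := h1 b hb
    rw [pow_one] at b1
    refine ⟨q * q', by rw [map_mul, pow_succ]; exact Ideal.mul_mem_mul a1 b1, ?_⟩
    have e : a * b - φ (q * q') = (a - φ q) * b + φ q * (b - φ q') := by rw [map_mul]; ring
    rw [e]
    refine add_mem ?_ ?_
    · have := Ideal.mul_mem_mul a2 hb
      rw [Ideal.sup_mul, ← pow_succ] at this
      exact (sup_le_sup_right Ideal.mul_le_left _ : J * m ⊔ _ ≤ J ⊔ _) this
    · have := Ideal.mul_mem_mul a1 b2
      rw [Ideal.mul_sup, ← pow_add] at this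
      exact (sup_le_sup_right Ideal.mul_le_right _ : m ^ k * J ⊔ _ ≤ J ⊔ _) this

theorem W_apx {φ : B →ₐ[ℂ] A} {J m : Ideal A} (h : ∀ k, ∀ g ∈ m ^ k, g ∈ W φ J m k) (k : ℕ)
    (g : A) : ∃ q, g - φ q ∈ J ⊔ m ^ k := by
  induction k with
  | zero => exact ⟨0, by simp⟩
  | succ k ih =>
    obtain ⟨q, hq⟩ := ih
    obtain ⟨a, ha, b, hb, e⟩ := Submodule.mem_sup.1 hq
    obtain ⟨q', -, h2⟩ := h k b hb
    refine ⟨q + q', ?_⟩
    rw [map_add, ← sub_sub, ← e, add_sub_assoc]
    exact add_mem (Submodule.mem_sup_left ha) h2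

end KR165

open KR165 in
theorem st_KR1 : St_KR1 := by
  intro ρ n p x T hp hd
  set φ : MvPolynomial (Fin (n + 1)) ℂ →ₐ[ℂ] Pol (ρ + n) :=
    aeval fun a => (X (T a) - C (x (T a)) : Pol (ρ + n)) with hφ
  set J := Ideal.span (range p)
  set m : Ideal (Pol (ρ + n)) := RingHom.ker (eval x)
  refine W_apx (φ := φ) (W_all (fun g => ?_) fun g hg => ?_)
  · refine ⟨C (eval x g), by simp, Submodule.mem_sup_right ?_⟩
    simp [hφ, m, RingHom.mem_ker]
  · have h2 : ∀ u ∈ J ⊔ m ^ 2, u ∈ W φ J m 1 := fun u hu => ⟨0, by simp, by simpa using hu⟩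
    let e : Fin ρ ⊕ Fin (n + 1) ≃ Fin (ρ + n + 1) := finSumFinEquiv (m := ρ) (n := n + 1)
    let A : Matrix (Fin ρ ⊕ Fin (n + 1)) (Fin ρ ⊕ Fin (n + 1)) ℂ := Matrix.of fun a b =>
      Sum.elim (fun r j => eval x (pderiv j (p r)))
        (fun t j => if j = T t then (1 : ℂ) else 0) a (e b)
    have hA : A⁻¹ * A = 1 := Matrix.nonsing_inv_mul A (isUnit_iff_ne_zero.2 hd)
    let y : Fin (ρ + n + 1) → Pol (ρ + n) := fun j => X j - C (x j)
    have hrow : ∀ a, ∑ c, A a c • y (e c) ∈ W φ J m 1 := by
      intro a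
      cases a with
      | inl r =>
        have e1 : ∑ c, A (Sum.inl r) c • y (e c) = ∑ j, eval x (pderiv j (p r)) • y j :=
          e.sum_comp fun j => eval x (pderiv j (p r)) • y j
        have t := taylor x (p r)
        rw [hp r, map_zero, sub_zero] at t
        rw [e1, ← sub_sub_cancel (p r) (∑ j, eval x (pderiv j (p r)) • y j)]
        exact h2 _ (sub_mem (Submodule.mem_sup_left (Ideal.subset_span (mem_range_self r)))
          (Submodule.mem_sup_right t))
      | inr t =>
        have e1 : ∑ c, A (Sum.inr t) c • y (e c) = ∑ j, (if j = T t then (1 : ℂ) else 0) • y j :=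
          e.sum_comp fun j => (if j = T t then (1 : ℂ) else 0) • y j
        rw [e1]
        refine ⟨X t, by simp [hφ, m, RingHom.mem_ker], ?_⟩
        simp [hφ, y]
    have hy : ∀ j, y j ∈ W φ J m 1 := by
      intro j
      have e1 : ∑ a, A⁻¹ (e.symm j) a • ∑ c, A a c • y (e c) = y j := by
        simp only [Finset.smul_sum, smul_smul]
        rw [Finset.sum_comm]
        simp only [← Finset.sum_smul, ← Matrix.mul_apply, hA, Matrix.one_apply, ite_smul, one_smul,
          zero_smul, Finset.sum_ite_eq, Finset.mem_univ, if_true, Equiv.apply_symm_apply]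
      rw [← e1]
      exact Submodule.sum_mem _ fun a _ => Submodule.smul_mem _ _ (hrow a)
    have t := taylor x g
    rw [(RingHom.mem_ker.1 hg : eval x g = 0), map_zero, sub_zero] at t
    rw [← sub_add_cancel g (∑ j, eval x (pderiv j g) • y j)]
    exact add_mem (h2 _ (Submodule.mem_sup_right t))
      (Submodule.sum_mem _ fun j _ => Submodule.smul_mem _ _ (hy j))

end Pool.Agent.Lib.PN
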