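import Pool.Agent.Lib.PN.Kit

/-! Project pn, block KRU: a polynomial vanishing on a germ of the manifold is locally in the
ideal. -/

open scoped Classical Topology ContDiff ComplexOrder Matrix
open Set Complex Filter MvPolynomial Asymptotics

noncomputable section

namespace Pool.Agent.Lib.PN

open Pool.Agent.Lib.SV (E nsq)
open Pool.Agent.Lib.HS32 Pool.Agent.Lib.MP_7fcda1_ag

namespace KRU17

variable {m : ℕ} {ι : Type} [Fintype ι] {Φ : E m → ι → ℂ} {u₀ : E m}

theorem small (h : DifferentiableAt ℂ Φ u₀) (k : ℕ) (f : MvPolynomial ι ℂ)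
    (hf : f ∈ RingHom.ker (eval (Φ u₀)) ^ k) :
    (fun u => eval (Φ u) f) =O[𝓝 u₀] (fun u => ‖u - u₀‖ ^ k) := by
  induction k generalizing f with
  | zero =>
    simp only [pow_zero]
    exact (fderiv_eval h f 0).1.continuousAt.tendsto.isBigO_one ℝ
  | succ k ih =>
    rw [pow_succ] at hf
    refine Submodule.mul_induction_on hf (fun a ha b hb => ?_) (fun a b ha hb => ?_)
    · have h1 := (fderiv_eval h b 0).1.isBigO_sub
      rw [RingHom.mem_ker.1 hb] at h1
      simp only [sub_zero] at h1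
      simpa only [map_mul, pow_succ] using (ih a ha).mul h1.norm_right
    · simpa only [map_add] using ha.add hb

omit [Fintype ι] in
theorem vanish {κ : Type} [Finite κ] {p : κ → MvPolynomial ι ℂ}
    (h : ∀ᶠ u in 𝓝 u₀, ∀ r, eval (Φ u) (p r) = 0) {f : MvPolynomial ι ℂ}
    (hf : f ∈ Ideal.span (range p)) : ∀ᶠ u in 𝓝 u₀, eval (Φ u) f = 0 := by
  filter_upwards [h] with u hu
  have h1 : Ideal.span (range p) ≤ RingHom.ker (eval (Φ u)) :=
    Ideal.span_le.2 (range_subset_iff.2 hu)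
  exact h1 hf

omit [Fintype ι] in
theorem eval_shift {κ : Type} (x y : ι → ℂ) (T : κ → ι) (q : MvPolynomial κ ℂ) :
    eval y (aeval (fun a => (X (T a) - C (x (T a)) : MvPolynomial ι ℂ)) q) =
      eval (fun a => y (T a) - x (T a)) q := by
  induction q using MvPolynomial.induction_on with
  | C a => simp
  | add p q hp hq => simp only [map_add, hp, hq]
  | mul_X p i hp => simp only [map_mul, hp, aeval_X, map_sub, eval_X, eval_C]

theorem krull {R : Type} [CommRing R] [IsNoetherianRing R] (J I : Ideal R) (g : R)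
    (h : ∀ k : ℕ, g ∈ J ⊔ I ^ k) : ∃ r ∈ I, (1 - r) * g ∈ J := by
  have h1 : Ideal.Quotient.mk J g ∈ (⨅ k : ℕ, I ^ k • ⊤ : Submodule R (R ⧸ J)) := by
    refine (Submodule.mem_iInf _).2 fun k => ?_
    obtain ⟨a, ha, b, hb, e⟩ := Submodule.mem_sup.1 (h k)
    have e1 : Ideal.Quotient.mk J g = b • (1 : R ⧸ J) := by
      rw [← e, map_add, Ideal.Quotient.eq_zero_iff_mem.2 ha, zero_add, Algebra.smul_def, mul_one]
      rfl
    rw [e1]
    exact Submodule.smul_mem_smul hb Submodule.mem_top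
  obtain ⟨r, hr⟩ := (Ideal.mem_iInf_smul_pow_eq_bot_iff I _).1 h1
  refine ⟨r, r.2, Ideal.Quotient.eq_zero_iff_mem.1 ?_⟩
  rw [sub_mul, one_mul, map_sub, map_mul, sub_eq_zero]
  exact hr.symm

end KRU17

open KRU17 in
theorem st_KRU (hDET : St_DET) (h1 : St_KR1) (h2 : St_KR2) : St_KRU := by
  intro ρ n p Φ u₀ hΦ hinj hp hli g hg
  have hd : DifferentiableAt ℂ Φ u₀ := hΦ.self_of_nhds
  obtain ⟨-, d2, d3⟩ := hDET ℂ ρ n fun r j => eval (Φ u₀) (pderiv j (p r))
  obtain ⟨T, hT⟩ := (d3 hli).1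
  set ψ : E (n + 1) → E (n + 1) := fun u a => Φ u (T a) - Φ u₀ (T a) with hψ
  have hol : HolN ψ u₀ := holN_pi fun a =>
    (holN_apply hΦ (T a)).mono fun w hw => hw.sub_const _
  have hder : ∀ v a, fderiv ℂ ψ u₀ v a = fderiv ℂ Φ u₀ v (T a) := by
    intro v a
    have e1 := congrArg (fun L : E (n + 1) →L[ℂ] ℂ => L v) (fderiv_apply hol.self_of_nhds a)
    have e2 := congrArg (fun L : E (n + 1) →L[ℂ] ℂ => L v) (fderiv_apply hd (T a))
    have e3 : fderiv ℂ (fun u => ψ u a) u₀ = fderiv ℂ (fun u => Φ u (T a)) u₀ :=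
      fderiv_sub_const _
    exact e1.symm.trans ((congrArg (fun L : E (n + 1) →L[ℂ] ℂ => L v) e3).trans e2)
  have hi : Function.Injective (fderiv ℂ ψ u₀) := by
    refine (injective_iff_map_eq_zero _).2 fun v hv => ?_
    refine (injective_iff_map_eq_zero _).1 hinj v (d2 T _ hT (fun r => ?_) fun a => ?_)
    · have e : (fun u => eval (Φ u) (p r)) =ᶠ[𝓝 u₀] fun _ => 0 := hp.mono fun u hu => hu r
      rw [← (fderiv_eval hd (p r) v).2, e.fderiv_eq, fderiv_fun_const]
      rfl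
    · rw [← hder, hv]
      rfl
  have key : ∀ k : ℕ, g ∈ Ideal.span (range p) ⊔ RingHom.ker (eval (Φ u₀)) ^ k := by
    intro k
    obtain ⟨q, hq⟩ := h1 ρ n p (Φ u₀) T hp.self_of_nhds hT k g
    set τ : MvPolynomial (Fin (n + 1)) ℂ →ₐ[ℂ] Pol (ρ + n) :=
      aeval fun a => (X (T a) - C (Φ u₀ (T a)) : Pol (ρ + n)) with hτ
    obtain ⟨a, ha, b, hb, e⟩ := Submodule.mem_sup.1 hq
    have hO : (fun u => eval (ψ u) q) =O[𝓝 u₀] (fun u => ‖u - u₀‖ ^ k) := by
      refine (small hd k b hb).neg_left.congr' ?_ EventuallyEq.rfl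
      filter_upwards [hg, vanish hp ha] with u e1 e2
      have e3 := congrArg (eval (Φ u)) e
      rw [map_add, map_sub, e1, e2, zero_add, zero_sub, hτ, eval_shift] at e3
      rw [e3, neg_neg]
    have hq2 := h2 (n + 1) k ψ u₀ q hol (funext fun a => sub_self _) hi hO
    have hle : (RingHom.ker (eval (0 : Fin (n + 1) → ℂ))).map τ ≤ RingHom.ker (eval (Φ u₀)) := by
      refine Ideal.map_le_iff_le_comap.2 fun s hs => ?_
      rw [Ideal.mem_comap, RingHom.mem_ker, hτ, eval_shift]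
      simp only [sub_self]
      exact hs
    have hq3 : τ q ∈ RingHom.ker (eval (Φ u₀)) ^ k := by
      have h3 := Ideal.mem_map_of_mem τ hq2
      rw [Ideal.map_pow] at h3
      exact Ideal.pow_right_mono hle k h3
    have e4 : g = (g - τ q) + τ q := (sub_add_cancel _ _).symm
    rw [e4]
    exact add_mem hq (Ideal.mem_sup_right hq3)
  obtain ⟨r, hr, h⟩ := krull _ _ g key
  refine ⟨1 - r, ?_, h⟩
  rw [map_sub, map_one, RingHom.mem_ker.1 hr, sub_zero]
  exact one_ne_zero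

end Pool.Agent.Lib.PN
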