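import Pool.Agent.Lib.PN.Blue
import Pool.Agent.Lib.PN68.NoP1

/-! Row LIO: no holomorphic spheres. -/

namespace Pool.Agent.Lib.PN

theorem st_LIO : St_LIO := fun _ _ _ _ _ hh hc hφ hψ e =>
  PN68.noP1 hh hc hφ.cont hφ.hol hψ.cont hψ.hol e

end Pool.Agent.Lib.PN
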