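import Pool.Agent.Lib.PN.Kit

/-! Project pn: the complex Hessian of the logarithm of a sum. -/

open scoped Topology ContDiff ComplexOrder Matrix
open Set Complex Filter

noncomputable section

namespace Pool.Agent.Lib.PN

open Pool.Agent.Lib.SV (E)
open Pool.Agent.Lib.HS32

namespace LSE96

variable {n : ℕ} {u w : E n → ℝ} {z : E n}

/-- The Levi form. -/
def lq (u : E n → ℝ) (z v : E n) : ℝ := nq (hess (fun x => (u x : ℂ)) z) v

/-- The derivative of type `(1,0)`. -/
def dl (u : E n → ℝ) (z v : E n) : ℂ := ∑ j, dz j (fun x => (u x : ℂ)) z * v j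

theorem nq_dd (hu : ContDiffAt ℝ ∞ u z) (v : E n) :
    nq (dd (fun x => (u x : ℂ)) (fun x => (u x : ℂ)) z) v = normSq (dl u z v) := by
  have h := fun j : Fin n => star_dz_ofReal (j := j) (cd_diff (cd_ofReal hu))
  have : star v ⬝ᵥ dd (fun x => (u x : ℂ)) (fun x => (u x : ℂ)) z *ᵥ v =
      star (dl u z v) * dl u z v := by
    simp only [dl, dotProduct, Matrix.mulVec, dd_apply, star_sum, star_mul', h, Pi.star_apply,
      Finset.sum_mul, Finset.mul_sum]
    rw [Finset.sum_comm]
    exact Finset.sum_congr rfl fun i _ => Finset.sum_congr rfl fun j _ => by ring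
  rw [nq, this, star_def, ← normSq_eq_conj_mul_self, ofReal_re]

theorem exp_rule (hu : ContDiffAt ℝ ∞ u z) (e : w =ᶠ[𝓝 z] fun x => Real.exp (u x)) (v : E n) :
    lq w z v = Real.exp (u z) * (lq u z v + normSq (dl u z v)) ∧
      dl w z v = Real.exp (u z) * dl u z v := by
  have e' : (fun x => (w x : ℂ)) =ᶠ[𝓝 z] fun x => (Real.exp (u x) : ℂ) :=
    e.mono fun x hx => congrArg ofReal hx
  constructor
  · rw [lq, hess_congr e', BLAP.hess_comp hu fun _ => Real.contDiff_exp.contDiffAt, nq_add,
      Real.deriv_exp, Real.deriv_exp, coe_smul, coe_smul, nq_smul, nq_smul, nq_dd hu, mul_add, lq]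
  · simp only [dl, dz_congr e', Finset.mul_sum,
      dz_comp_real (Real.hasDerivAt_exp (u z)) (hu.differentiableAt (by simp)), mul_assoc]

theorem add_rule (hu : ContDiffAt ℝ ∞ u z) (hw : ContDiffAt ℝ ∞ w z) (v : E n) :
    lq (fun x => u x + w x) z v = lq u z v + lq w z v ∧
      dl (fun x => u x + w x) z v = dl u z v + dl w z v := by
  constructor
  · simp only [lq, ofReal_add, hess_add (cd_ofReal hu) (cd_ofReal hw), nq_add]
  · simp only [dl, ofReal_add, dz_add (cd_diff (cd_ofReal hu)) (cd_diff (cd_ofReal hw)), add_mul,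
      Finset.sum_add_distrib]

theorem cvx (a e : ℝ) (x y t : ℂ) (ha : 0 < a) (he : 0 < e)
    (h : ((a + e : ℝ) : ℂ) * t = a * x + e * y) :
    (a + e) * normSq t ≤ a * normSq x + e * normSq y := by
  refine le_of_mul_le_mul_left ?_ (add_pos ha he)
  have h1 := congrArg normSq h
  rw [map_mul, normSq_ofReal] at h1
  have h2 := mul_nonneg (mul_pos ha he).le (normSq_nonneg (x - y))
  simp only [normSq_apply, add_re, add_im, re_ofReal_mul, im_ofReal_mul, sub_re, sub_im] at *
  nlinarith

end LSE96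

open LSE96 in
theorem st_LSE : St_LSE := by
  intro n A b z v hA hb h0
  have he := Real.exp_pos (b z)
  have hS : 0 < A z + Real.exp (b z) := add_pos_of_nonneg_of_pos h0.self_of_nhds he
  have hL : ContDiffAt ℝ ∞ (fun w => Real.log (A w + Real.exp (b w))) z := (hA.add hb.exp).log hS.ne'
  obtain ⟨r1, r2⟩ := exp_rule (w := fun w => A w + Real.exp (b w)) hL
    (h0.mono fun x hx => (Real.exp_log (add_pos_of_nonneg_of_pos hx (Real.exp_pos _))).symm) v
  obtain ⟨s1, s2⟩ := add_rule hA hb.exp v
  obtain ⟨t1, t2⟩ := exp_rule hb EventuallyEq.rfl v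
  rw [Real.exp_log hS] at r1 r2
  rw [r1, t1] at s1
  rw [r2, t2] at s2
  constructor
  · intro hz
    have hm : IsLocalMax (fun w => -A w) z := h0.mono fun x hx => by
      simpa only [hz, neg_zero, neg_nonpos] using hx
    obtain ⟨m1, m2⟩ := mMAXE n _ z hA.neg hm
    simp only [ofReal_neg, hess_neg, neg_neg, dz_neg, neg_eq_zero] at m1 m2
    have m3 : dl A z v = 0 := Finset.sum_eq_zero fun j _ => by rw [(m2 j).1, zero_mul]
    have m4 : 0 ≤ lq A z v := nq_nonneg m1 v
    rw [hz, zero_add] at s1 s2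
    rw [m3, zero_add] at s2
    rw [mul_left_cancel₀ (ofReal_ne_zero.2 he.ne') s2] at s1
    change lq b z v ≤ lq (fun w => Real.log (A w + Real.exp (b w))) z v
    refine le_of_mul_le_mul_left ?_ he
    nlinarith
  · intro hz
    obtain ⟨p1, p2⟩ := exp_rule (w := A) (hA.log hz.ne')
      ((hA.continuousAt.eventually (lt_mem_nhds hz)).mono fun x hx => (Real.exp_log hx).symm) v
    rw [Real.exp_log hz] at p1 p2
    rw [p1] at s1
    rw [p2] at s2
    have := cvx _ _ _ _ _ hz he s2
    change A z * lq (fun w => Real.log (A w)) z v + Real.exp (b z) * lq b z v ≤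
      (A z + Real.exp (b z)) * lq (fun w => Real.log (A w + Real.exp (b w))) z v
    nlinarith

end Pool.Agent.Lib.PN
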