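import Pool.Agent.Lib.PN.ABlue

/-! Project pn, row MIN: an irreducible component in an affine chart. -/

open MvPolynomial Set

namespace Pool.Agent.Lib.PN

namespace MIN57

/-- An element of all other minimal primes that is not in the given one. -/
theorem exists_other {R : Type} [CommRing R] [IsNoetherianRing R] {a P : Ideal R}
    (hP : P ∈ a.minimalPrimes) : ∃ f, f ∉ P ∧ ∀ q ∈ P, q * f ∈ a.radical := by
  classical
  have hfin := Ideal.finite_minimalPrimes_of_isNoetherianRing R a
  have hpr : P.IsPrime := hP.1.1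
  have h1 : ¬ (hfin.toFinset.erase P).inf id ≤ P := by
    rw [hpr.inf_le']
    rintro ⟨Q, hQ, hle⟩
    rw [Finset.mem_erase, hfin.mem_toFinset] at hQ
    exact hQ.1 (le_antisymm hle (hP.2 hQ.2.1 hle))
  obtain ⟨f, hf, hfP⟩ := SetLike.not_le_iff_exists.1 h1
  refine ⟨f, hfP, fun q hq => ?_⟩
  rw [← Ideal.sInf_minimalPrimes, Ideal.mem_sInf]
  intro Q hQ
  by_cases h : Q = P
  · rw [h]; exact Ideal.mul_mem_right _ _ hq
  · refine Ideal.mul_mem_left _ _ ?_
    exact (Finset.inf_le (f := id) (Finset.mem_erase.2 ⟨h, hfin.mem_toFinset.2 hQ⟩) :) hf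

theorem eval_of_sub {N : ℕ} {i : Fin (N + 1)} {y : Fin (N + 1) → ℂ} (hy : y i = 1) {g f : Pol N}
    (h : g - f ∈ Ideal.span {(X i - 1 : Pol N)}) : eval y g = eval y f := by
  obtain ⟨c, hc⟩ := Ideal.mem_span_singleton'.1 h
  have := congrArg (eval y) hc
  simp only [map_mul, map_sub, eval_X, hy, map_one, sub_self, mul_zero] at this
  exact (sub_eq_zero.1 this.symm)

theorem exists_homog {N : ℕ} (j : Fin (N + 1)) (f : Pol N) {D : ℕ} (h : f.totalDegree ≤ D) :
    ∃ g : Pol N, g.IsHomogeneous D ∧ g - f ∈ Ideal.span {(X j - 1 : Pol N)} := by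
  refine ⟨∑ i ∈ Finset.range (f.totalDegree + 1), X j ^ (D - i) * homogeneousComponent i f, ?_, ?_⟩
  · refine IsHomogeneous.sum _ _ _ fun i hi => ?_
    have := (isHomogeneous_X_pow (R := ℂ) j (D - i)).mul (homogeneousComponent_isHomogeneous i f)
    rwa [Nat.sub_add_cancel (by have := Finset.mem_range.1 hi; omega)] at this
  · conv => enter [2, 2]; rw [← sum_homogeneousComponent f]
    rw [← Finset.sum_sub_distrib]
    refine Ideal.sum_mem _ fun i _ => ?_
    rw [← sub_one_mul]
    exact Ideal.mul_mem_right _ _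
      (Ideal.mem_span_singleton.2 (by simpa using sub_dvd_pow_sub_pow (X j : Pol N) 1 (D - i)))

end MIN57

open MIN57

theorem st_MIN : St_MIN := by
  classical
  intro N S i x hx hS
  let a : Ideal (Pol N) := Ideal.span (insert (X i - 1) S)
  have hker : ∀ y : Fin (N + 1) → ℂ, y i = 1 → (∀ s ∈ S, eval y s = 0) →
      a ≤ RingHom.ker (eval y) := fun y h1 h2 => by
    refine Ideal.span_le.2 ?_
    rintro s (rfl | hs)
    · simp [RingHom.mem_ker, h1]
    · exact h2 s hs
  have : (RingHom.ker (eval x : Pol N →+* ℂ)).IsPrime := RingHom.ker_isPrime _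
  obtain ⟨P, hP, -⟩ := Ideal.exists_minimalPrimes_le (hker x hx hS)
  have hpr : P.IsPrime := hP.1.1
  have haP : a ≤ P := hP.1.2
  have hXP : (X i - 1 : Pol N) ∈ P := haP (Ideal.subset_span (mem_insert _ _))
  have hsp : Ideal.span {(X i - 1 : Pol N)} ≤ P := (Ideal.span_singleton_le_iff_mem _).2 hXP
  obtain ⟨r, t, ht⟩ := Submodule.fg_iff_exists_fin_generating_family.1
    (IsNoetherian.noetherian P)
  let d : ℕ := Finset.univ.sup fun k => (t k).totalDegree
  have hg : ∀ k, ∃ g : Pol N, g.IsHomogeneous d ∧ g - t k ∈ Ideal.span {(X i - 1 : Pol N)} :=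
    fun k => exists_homog i (t k)
      (Finset.le_sup (f := fun k => (t k).totalDegree) (Finset.mem_univ k))
  choose g hg1 hg2 using hg
  have htP : ∀ k, t k ∈ P := fun k => ht ▸ Submodule.subset_span (mem_range_self k)
  obtain ⟨f₁, hf₁, hf₂⟩ := exists_other hP
  refine ⟨P, d, r, g, hpr, fun s hs => haP (Ideal.subset_span (mem_insert_of_mem _ hs)), hXP,
    fun k => ⟨hg1 k, ?_⟩, ?_, fun p hp => ?_⟩
  · simpa using P.add_mem (hsp (hg2 k)) (htP k)
  · rw [← ht]
    refine Submodule.span_le.2 ?_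
    rintro _ ⟨k, rfl⟩
    have h1 : g k ∈ Ideal.span (insert (X i - 1 : Pol N) (range g)) :=
      Ideal.subset_span (mem_insert_of_mem _ (mem_range_self k))
    have h2 : g k - t k ∈ Ideal.span (insert (X i - 1 : Pol N) (range g)) :=
      Ideal.span_mono (singleton_subset_iff.2 (mem_insert _ _)) (hg2 k)
    simpa using Ideal.sub_mem _ h1 h2
  · obtain ⟨w, hw1, hw2⟩ := exists_homog i (p * f₁) le_rfl
    refine ⟨_, X i * w, (isHomogeneous_X ℂ i).mul hw1, fun h => ?_, fun y hy => by simp [hy],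
      fun y h1 h2 h3 => ?_⟩
    · rcases hpr.mem_or_mem h with h | h
      · exact hpr.ne_top ((Ideal.eq_top_iff_one _).2 (by simpa using P.sub_mem h hXP))
      · have : p * f₁ ∈ P := by simpa using P.sub_mem h (hsp hw2)
        rcases hpr.mem_or_mem this with h | h
        · exact hp h
        · exact hf₁ h
    · rw [map_mul, eval_X, h1, one_mul, eval_of_sub h1 hw2, map_mul] at h3
      refine ⟨left_ne_zero_of_mul h3, fun q hq => ?_⟩
      have : (RingHom.ker (eval y : Pol N →+* ℂ)).IsPrime := RingHom.ker_isPrime _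
      have h4 : q * f₁ ∈ RingHom.ker (eval y : Pol N →+* ℂ) :=
        (Ideal.IsPrime.radical_le_iff inferInstance).2 (hker y h1 h2) (hf₂ q hq)
      rw [RingHom.mem_ker, map_mul] at h4
      exact (mul_eq_zero.1 h4).resolve_right (right_ne_zero_of_mul h3)

end Pool.Agent.Lib.PN
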