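import Pool.Agent.Lib.PN.Kit

/-! Project pn: the squared norm of a family of forms. -/

open scoped Classical Topology ContDiff ComplexOrder Matrix
open Set Complex Filter MvPolynomial

noncomputable section

namespace Pool.Agent.Lib.PN

open Pool.Agent.Lib.SV (E nsq)
open Pool.Agent.Lib.HS32

namespace X48

theorem phi_ev {n : ℕ} {M : Mf n} {ι κ : Type} [Fintype ι] [Fintype κ] {f : M.X → ι → ℂ}
    {p : κ → MvPolynomial ι ℂ} {d : ℕ} (hp : ∀ k, (p k).IsHomogeneous d)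
    {c : M.Ch} {z : E n} {F : E n → ι → ℂ} (h : Lift M f c z F) : ∀ᶠ w in 𝓝 z,
      ph f p d (c.symm w) = nsq (fun k => eval (F w) (p k)) * (nsq (F w) ^ d)⁻¹ := by
  filter_upwards [h.ev] with w ⟨a, ha, e⟩
  have h1 : (fun k => eval (F w) (p k)) = a ^ d • fun k => eval (f (c.symm w)) (p k) :=
    funext fun k => by rw [e, eval_smul_hom (hp k)]; rfl
  have h2 : normSq a ^ d ≠ 0 := pow_ne_zero _ (normSq_pos.2 ha).ne'
  rw [h1, e, nsq_smul, nsq_smul, map_pow, mul_pow, ph, mul_inv, mul_mul_mul_comm,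
    mul_inv_cancel₀ h2, one_mul, div_eq_mul_inv]

end X48

open X48

theorem st_PHI (hLG : St_LG) (hFS : St_FS) : St_PHI := by
  intro n M ι κ _ _ f p d hf hp
  have hA : ∀ {c z F}, Lift M f c z F → HolN (fun w k => eval (F w) (p k)) z := fun h =>
    holN_pi fun k => holN_eval h.hol _
  have hg : ∀ {c z F}, Lift M f c z F → ContDiffAt ℝ ∞ (fun w => (nsq (F w) ^ d)⁻¹) z := fun h =>
    ((hLG n ι _ _ h.hol).1.pow d).inv (pow_pos (nsq_pos (h.ne hf.ne)) d).ne'
  refine ⟨fun c hc z hz => ?_, fun x => div_nonneg (nsq_nn _) (pow_nonneg (nsq_nn _) _),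
    fun x => ?_, fun c z F h => ?_⟩
  · obtain ⟨F, h⟩ := hf.ex c hc z hz
    exact ((hLG n κ _ _ (hA h)).1.mul (hg h)).congr_of_eventuallyEq (phi_ev hp h)
  · rw [ph, div_eq_zero_iff, or_iff_left (pow_pos (nsq_pos (hf.ne x)) d).ne', nsq_eq_zero,
      funext_iff]
    rfl
  have hF := h.ne hf.ne
  have h0 : 0 < (nsq (F z) ^ d)⁻¹ := inv_pos.2 (pow_pos (nsq_pos hF) d)
  have h1 : ph f p d (c.symm z) = 0 ↔ (fun k => eval (F z) (p k)) = 0 := by
    rw [(phi_ev hp h).self_of_nhds, mul_eq_zero, or_iff_left h0.ne', nsq_eq_zero]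
  refine ⟨h1.trans funext_iff, fun h2 => ?_, fun h2 v hv k => ?_⟩
  · have h3 := mt h1.2 h2
    have e : M.lc (fun x => Real.log (ph f p d x)) c =ᶠ[𝓝 z]
        fun w => lg (fun w k => eval (F w) (p k)) w - (d : ℂ) * lg F w := by
      filter_upwards [phi_ev hp h, holN_ne (hA h) h3, holN_ne h.hol hF] with w a b b'
      rw [Mf.lc, a, Real.log_mul (nsq_pos b).ne' (inv_pos.2 (pow_pos (nsq_pos b') d)).ne',
        Real.log_inv, Real.log_pow, lg, lg]
      push_cast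
      ring
    have s1 := ((hLG n κ _ _ (hA h)).2.2 h3).1
    have s2 := ((hLG n ι _ _ h.hol).2.2 hF).1
    rw [Mf.hs, hess_congr e, hess_sub s1 (contDiffAt_const.mul s2), hess_const_mul _ s2,
      (hFS n M ι f hf).2 c z F h]
    ext i j
    simp
  · have e : M.lc (ph f p d) c =ᶠ[𝓝 z]
        fun w => ((nsq (fun k => eval (F w) (p k)) * (nsq (F w) ^ d)⁻¹ : ℝ) : ℂ) := by
      filter_upwards [phi_ev hp h] with w a
      rw [Mf.lc, a]
    rw [Mf.hs, hess_congr e, (hLG n κ _ _ (hA h)).2.1 (h1.1 h2) _ (hg h) v, mul_eq_zero,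
      or_iff_left h0.ne', nsq_eq_zero] at hv
    rw [fderiv_apply (hA h).self_of_nhds k]
    exact congrFun hv k

end Pool.Agent.Lib.PN
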