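import Pool.Agent.Lib.PN.Blue
import Pool.Agent.Lib.PN68.Par

/-! Row POL: base point free parametrisations of a rational curve. -/

namespace Pool.Agent.Lib.PN

theorem st_POL : St_POL := fun _ e _ _ _ _ hG h =>
  let ⟨p, q, h1, h2, h3, h4, h5, h6, h7, h8⟩ := PN68.par (e := fun _ => e) hG h
  ⟨p, q, h1, h2, fun t => ⟨h3 t, h4 t⟩, fun t l => ⟨h5 t l, h6 t l⟩, h7, h8⟩

end Pool.Agent.Lib.PN
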