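import Pool.Agent.Lib.PN.ABlue

/-! Project pn, row SEC: pseudo-effectivity in terms of polynomials. -/

open MvPolynomial Set

noncomputable section

namespace Pool.Agent.Lib.PN

open Pool.Agent.Lib.MP_7fcda1_ag Pool.Agent.Lib.UR Pool.Agent.Lib.UR.M

namespace SEC53

section
variable {k L τ : Type} [Field k] [Field L] [Algebra k L]

theorem prod_mem_pow (q : τ → L) (m : ℕ) (f : Fin m → τ) : ∏ v, q (f v) ∈ sys k q ^ m := by
  induction m with
  | zero => simp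
  | succ m ih =>
    rw [Fin.prod_univ_castSucc, pow_succ]
    exact Submodule.mul_mem_mul (ih _) (mem_sys q _)

theorem forms (h : τ → L) (p₀ : τ) (h1 : h p₀ = 1) (a : ℕ) :
    ∀ z ∈ sys k h ^ a, ∃ R : MvPolynomial τ k, R.IsHomogeneous a ∧ aeval h R = z := by
  have key : sys k h ^ a ≤ (homogeneousSubmodule τ k a).map (aeval h).toLinearMap := by
    induction a with
    | zero =>
      rw [pow_zero, Submodule.one_eq_span, Submodule.span_le]
      rintro _ rfl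
      exact ⟨1, isHomogeneous_one τ k, map_one (aeval h)⟩
    | succ a ih =>
      have h2 : sys k h ≤ (homogeneousSubmodule τ k 1).map (aeval h).toLinearMap :=
        sys_le ⟨X p₀, isHomogeneous_X k p₀, (aeval_X h p₀).trans h1⟩
          fun j => ⟨X j, isHomogeneous_X k j, aeval_X h j⟩
      rw [pow_succ]
      refine Submodule.mul_le.2 fun x hx y hy => ?_
      obtain ⟨R, hR, rfl⟩ := ih hx
      obtain ⟨R', hR', rfl⟩ := h2 hy
      exact ⟨R * R', IsHomogeneous.mul hR hR', map_mul (aeval h) R R'⟩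
  intro z hz
  obtain ⟨R, hR, h3⟩ := key hz
  exact ⟨R, hR, h3⟩

end

/-- The generic point of a prime ideal. -/
theorem generic {N : ℕ} (P : Ideal (Pol N)) (hP : P.IsPrime) :
    ∃ (L : Type) (_ : Field L) (_ : Algebra ℂ L) (y : Fin (N + 1) → L),
      (∀ g, aeval y g = 0 ↔ g ∈ P) ∧
        ∀ z : L, ∃ σ τ : Pol N, aeval y τ ≠ 0 ∧ z = aeval y σ / aeval y τ := by
  let φ : Pol N →ₐ[ℂ] FractionRing (Pol N ⧸ P) :=
    (IsScalarTower.toAlgHom ℂ (Pol N ⧸ P) (FractionRing (Pol N ⧸ P))).comp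
      (Ideal.Quotient.mkₐ ℂ P)
  have e : ∀ g, aeval (fun j => φ (X j)) g = φ g := fun g =>
    (DFunLike.congr_fun (aeval_unique φ) g).symm
  have e2 : ∀ g, φ g =
      algebraMap (Pol N ⧸ P) (FractionRing (Pol N ⧸ P)) (Ideal.Quotient.mk P g) := fun g => rfl
  refine ⟨FractionRing (Pol N ⧸ P), inferInstance, inferInstance, fun j => φ (X j),
    fun g => ?_, fun z => ?_⟩
  · rw [e, e2, FaithfulSMul.algebraMap_eq_zero_iff, Ideal.Quotient.eq_zero_iff_mem]
  · obtain ⟨a, b, hb, hz⟩ := IsFractionRing.div_surjective (A := Pol N ⧸ P) z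
    obtain ⟨σ, rfl⟩ := Ideal.Quotient.mk_surjective a
    obtain ⟨τ, rfl⟩ := Ideal.Quotient.mk_surjective b
    refine ⟨σ, τ, ?_, ?_⟩
    · rw [e, e2, Ne, FaithfulSMul.algebraMap_eq_zero_iff]
      exact nonZeroDivisors.ne_zero hb
    · rw [e, e, e2, e2, hz]

theorem gen_of {N : ℕ} {L τ : Type} [Field L] [Algebra ℂ L] (y : Fin (N + 1) → L) (h : τ → L)
    (hs : ∀ z : L, ∃ σ τ : Pol N, aeval y τ ≠ 0 ∧ z = aeval y σ / aeval y τ)
    (hy : ∀ j, ∃ p, h p = y j) : Gen ℂ h := by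
  have h1 : ∀ g : Pol N, aeval y g ∈ IntermediateField.adjoin ℂ (range h) := fun g => by
    induction g using MvPolynomial.induction_on with
    | C c => rw [algHom_C]; exact IntermediateField.algebraMap_mem _ c
    | add p q hp hq => rw [map_add]; exact add_mem hp hq
    | mul_X p j hp =>
      rw [map_mul, aeval_X]
      exact mul_mem hp (IntermediateField.subset_adjoin ℂ _ (hy j))
  refine eq_top_iff.2 fun z _ => ?_
  obtain ⟨σ, τ, -, rfl⟩ := hs z
  exact div_mem (h1 σ) (h1 τ)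

theorem ineq (n N₀ t e₀ : ℕ) (ht : 0 < t) :
    N₀ * ((n + 2) * ((e₀ + 1) * (t * (2 * N₀) * 1 + t) + e₀)) ≤
      (n + 2) * ((e₀ + 1) * (t * (2 * N₀) * 1 + t) + e₀) +
        N₀ * ((e₀ + 1) * (t * (2 * N₀) * (n + 2))) := by
  have h1 : e₀ ≤ (e₀ + 1) * t := by nlinarith
  have h2 : N₀ * ((e₀ + 1) * (t * (2 * N₀) * 1 + t) + e₀) ≤
      ((e₀ + 1) * (t * (2 * N₀) * 1 + t) + e₀) + N₀ * ((e₀ + 1) * (t * (2 * N₀))) := by
    have h3 := Nat.mul_le_mul_left N₀ h1
    nlinarith [Nat.zero_le ((e₀ + 1) * t), Nat.zero_le e₀]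
  have h4 := Nat.mul_le_mul_left (n + 2) h2
  calc _ = (n + 2) * (N₀ * ((e₀ + 1) * (t * (2 * N₀) * 1 + t) + e₀)) := by ring
    _ ≤ _ := h4
    _ = _ := by ring

end SEC53

open SEC53 in
theorem st_SEC (hBIG : St_BIG) (hCND : St_CND) (hDET : St_DET) : St_SEC := by
  intro ρ n e Λ _ G hA hR P i N₀ hP hG hi
  obtain ⟨L, _, _, y, hker, hsur⟩ := generic P hP
  have hyi : y i = 1 := by
    have h1 := (hker _).2 hi
    rwa [map_sub, aeval_X, map_one, sub_eq_zero] at h1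
  have hy0 : y ≠ 0 := fun h => one_ne_zero (hyi.symm.trans (congrFun h i))
  have hGy : ∀ l, aeval y (G l) = 0 := fun l => (hker _).2 (hG l)
  obtain ⟨I, S, δ, hC⟩ := hA.cert L y hy0 hGy
  obtain ⟨T₀, hT⟩ := ((hDET L ρ n _).2.2 (Cert.indep hC.min)).1
  rw [← aeval_bm] at hT
  obtain ⟨t, ht, hne⟩ := hBIG ρ n e Λ G hA hR L y i I S δ T₀ (2 * N₀) hyi
    (gen_of y y hsur fun j => ⟨j, rfl⟩) hGy hC hT
  generalize hh : (fun p : Ix ρ n × Fin (ρ + n + 1) => aeval y (bm G I p.1) * y p.2 /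
    (aeval y (bm G I T₀) * y i)) = h at hne
  have hh1 : ∀ j, h (T₀, j) = y j := fun j => by
    rw [← hh]
    simp only [hyi, mul_one]
    exact mul_div_cancel_left₀ _ hT
  have hh2 : (fun p => aeval y (hp G I p)) = aeval y (bm G I T₀) • h := by
    funext p
    rw [← hh]
    simp only [hyi, mul_one, hp, map_mul, aeval_X, Pi.smul_apply, smul_eq_mul]
    exact (mul_div_cancel₀ _ hT).symm
  obtain ⟨s, hs, hs0⟩ := Submodule.exists_mem_ne_zero_of_ne_bot hne
  obtain ⟨c, e₀, hc, hc'⟩ := hCND ℂ L _ (Fin (t * (2 * N₀)) → Fin (n + 2) → Fin (ρ + n + 1)) h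
    (fun α => s * ∏ v, qK n y i (α v)) (t * (2 * N₀) * 1 + t)
    (gen_of y h hsur fun j => ⟨_, hh1 j⟩)
    fun α => Submodule.mem_div_iff_forall_mul_mem.1 hs _ (prod_mem_pow _ _ α)
  let E : Fin (e₀ + 1) × Fin (t * (2 * N₀)) × Fin (n + 2) ≃
      Fin ((e₀ + 1) * (t * (2 * N₀) * (n + 2))) := Fintype.equivFinOfCardEq (by simp)
  have key : ∀ β : Fin ((e₀ + 1) * (t * (2 * N₀) * (n + 2))) → Fin (ρ + n + 1),
      ∃ R : MvPolynomial (Ix ρ n × Fin (ρ + n + 1)) ℂ,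
        R.IsHomogeneous ((e₀ + 1) * (t * (2 * N₀) * 1 + t) + e₀) ∧
          aeval h R = c * s ^ (e₀ + 1) * ∏ b, y (β b) := fun β => by
    refine forms h (T₀, i) ((hh1 i).trans hyi) _ _ ?_
    have h1 := hc' (e₀ + 1) fun u v r => β (E (u, v, r))
    have h2 : ∏ u : Fin (e₀ + 1), (s * ∏ v, qK n y i fun r => β (E (u, v, r))) =
        s ^ (e₀ + 1) * ∏ b, y (β b) := by
      rw [Finset.prod_mul_distrib, Finset.prod_const, Finset.card_univ, Fintype.card_fin,
        ← E.prod_comp fun b => y (β b), Fintype.prod_prod_type]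
      refine congrArg _ (Finset.prod_congr rfl fun u _ => ?_)
      rw [Fintype.prod_prod_type]
      refine Finset.prod_congr rfl fun v _ => ?_
      rw [qK, hyi, one_pow, div_one]
    rw [h2, ← mul_assoc c] at h1
    exact h1
  choose R hR1 hR2 using key
  obtain ⟨σ, τ, hτ, hστ⟩ := hsur
    (aeval y (bm G I T₀) ^ ((e₀ + 1) * (t * (2 * N₀) * 1 + t) + e₀) * (c * s ^ (e₀ + 1)))
  have hσ : aeval y σ ≠ 0 := fun h0 => by
    rw [h0, zero_div] at hστ
    exact mul_ne_zero (pow_ne_zero _ hT) (mul_ne_zero hc (pow_ne_zero _ hs0)) hστ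
  refine ⟨I, T₀, _, _, R, σ, τ, ⟨hR1, fun β => (hker _).1 ?_⟩, by positivity,
    ineq n N₀ t e₀ ht, fun h0 => ?_⟩
  · rw [map_sub, map_mul, map_mul, map_prod, comp_aeval_apply, hh2, plc1_aeval_smul (hR1 β),
      hR2, ← mul_assoc (_ ^ _), hστ]
    simp only [aeval_X]
    rw [← mul_assoc, mul_div_cancel₀ _ hτ, sub_self]
  · have h1 := (hker _).2 h0
    rw [map_mul, map_mul] at h1
    exact mul_ne_zero (mul_ne_zero hσ hτ) hT h1

end Pool.Agent.Lib.PN
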