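import Pool.Agent.Lib.PN.Kit

/-! The Levi form in a direction tangent to the subvariety. -/

open scoped Classical Topology ContDiff ComplexOrder Matrix
open Set Complex Filter MvPolynomial

noncomputable section

namespace Pool.Agent.Lib.PN

open Pool.Agent.Lib.SV (E nsq)
open Pool.Agent.Lib.HS32 Pool.Agent.Lib.MP_7fcda1_ag

namespace TAN1

theorem ker {n e : ℕ} {ι : Type} [Fintype ι] {F : E n → ι → ℂ} {z : E n} {g : MvPolynomial ι ℂ}
    (hg : g.IsHomogeneous e) (hF : DifferentiableAt ℂ F z) (h0 : ∀ᶠ x in 𝓝 z, eval (F x) g = 0)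
    (a : Fin (n + 1)) : ∑ j, eval (F z) (pderiv j g) *
      (Fin.cons (F z) fun a => fderiv ℂ F z (Pi.single a 1) : Fin (n + 1) → ι → ℂ) a j = 0 := by
  refine Fin.cases ?_ (fun a => ?_) a
  · have h1 := congrArg (eval (F z)) hg.sum_X_mul_pderiv
    simp only [map_sum, map_mul, eval_X, map_nsmul, h0.self_of_nhds, smul_zero] at h1
    simpa only [Fin.cons_zero, mul_comm] using h1
  · have h1 : (fun x => eval (F x) g) =ᶠ[𝓝 z] fun _ => 0 := h0
    simp only [Fin.cons_succ]
    rw [← (fderiv_eval hF g _).2, h1.fderiv_eq]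
    simp

end TAN1

theorem st_TAN (hDET : St_DET) (hLG : St_LG) (hLG2 : St_LG2) : St_TAN := by
  intro ρ n e Λ G P I T₀ a w R σ τ F z hG hS hF hF0 hg hz hP h0
  simp only [map_mul, mul_ne_zero_iff] at h0
  obtain ⟨⟨hσ, hτ⟩, hb⟩ := h0
  obtain ⟨T₁, hT⟩ := Function.ne_iff.1 hg
  replace hT : gv F z T₁ ≠ 0 := hT
  have hΓ := holN_gv hF
  have hne : ∀ᶠ x in 𝓝 z, gv F x T₁ ≠ 0 :=
    (holN_apply hΓ T₁).self_of_nhds.continuousAt.eventually_ne hT
  let lam : E n → ℂ := fun x => eval (F x) (bm G I T₁) / gv F x T₁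
  have hl : ∀ᶠ x in 𝓝 z, ∀ T, eval (F x) (bm G I T) = lam x * gv F x T := by
    filter_upwards [hF, hz.eventually_nhds, hne] with x h1 h2 h3 T
    have h4 := (hDET ℂ ρ n fun r j => eval (F x) (pderiv j (G (I r)))).1 _
      (fun r a => TAN1.ker (hG (I r)) h1 (h2.mono fun y hy => hy (I r)) a) T T₁
    rw [← eval_bm, ← eval_bm] at h4
    rw [div_mul_eq_mul_div, eq_div_iff h3]
    exact h4
  have hl0 : lam z ≠ 0 := fun h => hb (by rw [hl.self_of_nhds, h, zero_mul])
  have hlh : HolN lam z := by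
    filter_upwards [holN_eval hF (bm G I T₁), holN_apply hΓ T₁, hne] with x h1 h2 h3
    simpa only [lam, div_eq_mul_inv] using h1.fun_mul (h2.fun_inv h3)
  have ht : HolN (fun x => tns (gv F x) (F x)) z := holN_pi fun p => by
    filter_upwards [holN_apply hΓ p.1, holN_apply hF p.2] with x h1 h2 using h1.fun_mul h2
  let A : E n → (Fin w → Fin (ρ + n + 1)) → ℂ := fun x β => eval (tns (gv F x) (F x)) (R β)
  let B : E n → (Fin w → Fin (ρ + n + 1)) → ℂ := fun x β => ∏ b, F x (β b)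
  let A' : E n → (Fin w → Fin (ρ + n + 1)) → ℂ := fun x β =>
    eval (F x) (τ * aeval (hp G I) (R β))
  let B' : E n → (Fin w → Fin (ρ + n + 1)) → ℂ := fun x β => eval (F x) (σ * ∏ b, X (β b))
  have hA : HolN A z := holN_pi fun β => holN_eval ht _
  have hA' : HolN A' z := holN_pi fun β => holN_eval hF _
  have hB' : HolN B' z := holN_pi fun β => holN_eval hF _
  have hB : HolN B z := holN_pi fun β => by
    simpa only [map_prod, eval_X] using holN_eval hF (∏ b, X (β b))
  have eA : ∀ᶠ x in 𝓝 z, A' x = (eval (F x) τ * lam x ^ a) • A x := by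
    filter_upwards [hl] with x h1
    funext β
    have h2 : (fun p => eval (F x) (hp G I p)) = lam x • tns (gv F x) (F x) := funext fun p => by
      simp only [hp, map_mul, eval_X, h1, Pi.smul_apply, tns, smul_eq_mul, mul_assoc]
    have h3 : eval (F x) (aeval (hp G I) (R β)) = eval (fun p => eval (F x) (hp G I p)) (R β) := by
      simpa only [aeval_eq_eval] using comp_aeval_apply (f := hp G I) (aeval (F x) : _ →ₐ[ℂ] ℂ) (R β)
    simp only [A', A, map_mul, h3, h2, eval_smul_hom (hS.hom β), Pi.smul_apply, smul_eq_mul,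
      mul_assoc]
  have eB : ∀ x, B' x = eval (F x) σ • B x := fun x => funext fun β => by
    simp only [B', B, map_mul, map_prod, eval_X, Pi.smul_apply, smul_eq_mul]
  have e0 : A' z = B' z := funext fun β => by
    have := hP _ (hS.mem β)
    rwa [map_sub, sub_eq_zero] at this
  have hB0 : B z ≠ 0 := by
    obtain ⟨i, hi⟩ := Function.ne_iff.1 hF0
    exact Function.ne_iff.2 ⟨fun _ => i, Finset.prod_ne_zero_iff.2 fun _ _ => hi⟩
  have hB'0 : B' z ≠ 0 := eB z ▸ smul_ne_zero hσ hB0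
  have hA0 : A z ≠ 0 := fun h => hB'0 (by rw [← e0, eA.self_of_nhds, h, smul_zero])
  refine ⟨hA0, fun v hv => ?_⟩
  have e1 : fderiv ℂ A' z v = fderiv ℂ B' z v := funext fun β => by
    have h1 := hv _ (hS.mem β)
    have d1 := (holN_apply hA' β).self_of_nhds
    have d2 := (holN_apply hB' β).self_of_nhds
    simp only [map_sub] at h1
    rw [fderiv_fun_sub d1 d2, sub_apply, sub_eq_zero, fderiv_apply hA'.self_of_nhds,
      fderiv_apply hB'.self_of_nhds] at h1
    exact h1
  have k1 := (hLG2 n _ A z hA hA0).1 (fun x => eval (F x) τ * lam x ^ a) A' (by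
    filter_upwards [holN_eval hF τ, hlh] with x h1 h2 using h1.fun_mul (h2.fun_pow a))
    (mul_ne_zero hτ (pow_ne_zero _ hl0)) eA
  have k2 := (hLG2 n _ B z hB hB0).1 _ B' (holN_eval hF σ) hσ (Eventually.of_forall eB)
  have k3 := (hLG2 n _ F z hF hF0).2.2.1 w
  have k4 := ((hLG n _ A' z hA').2.2 (e0 ▸ hB'0)).2 v
  have k5 := ((hLG n _ B' z hB').2.2 hB'0).2 v
  rw [e0, e1, ← k5, k1, k2, k3, nq_smul] at k4
  exact k4

end Pool.Agent.Lib.PN
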