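import Pool.Agent.Lib.PN.Kit

open scoped Topology
open Set Filter MvPolynomial

noncomputable section

namespace Pool.Agent.Lib.PN

theorem st_ZAR : St_ZAR := by
  intro n N r F z v i g f₀ hF h1 hg h0 hd q hq
  have d := hF.self_of_nhds
  have key : eval (F z) q = 0 ∧ ∑ j, eval (F z) (pderiv j q) * fderiv ℂ F z v j = 0 := by
    have mul (a b : Pol N) : ∑ j, eval (F z) (pderiv j (a * b)) * fderiv ℂ F z v j =
        eval (F z) a * ∑ j, eval (F z) (pderiv j b) * fderiv ℂ F z v j +
          eval (F z) b * ∑ j, eval (F z) (pderiv j a) * fderiv ℂ F z v j := by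
      rw [Finset.mul_sum, Finset.mul_sum, ← Finset.sum_add_distrib]
      refine Finset.sum_congr rfl fun j _ => ?_
      rw [pderiv_mul, map_add, map_mul, map_mul]
      ring
    induction hq using Submodule.span_induction with
    | mem x hx =>
      rcases hx with rfl | ⟨a, rfl⟩
      · refine ⟨by simp [h1.self_of_nhds], ?_⟩
        rw [← (fderiv_eval d _ v).2, EventuallyEq.fderiv_eq (f := fun _ => (0 : ℂ))
          (h1.mono fun w hw => by simp [hw])]
        simp
      · have := hd a
        rw [(fderiv_eval d _ v).2, mul, hg a, zero_mul, add_zero] at this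
        exact ⟨hg a, (mul_eq_zero.1 this).resolve_left h0⟩
    | zero => simp
    | add x y _ _ hx hy =>
      simp only [map_add, add_mul, Finset.sum_add_distrib, hx.1, hx.2, hy.1, hy.2, add_zero,
        and_self]
    | smul a x _ hx => rw [smul_eq_mul, mul, map_mul, hx.1, hx.2]; simp
  rw [(fderiv_eval d q v).2, key.2]

end Pool.Agent.Lib.PN
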