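import Pool.Agent.Lib.PN.Glue
import Pool.Agent.Lib.PN.B_ADJ
import Pool.Agent.Lib.PN.B_ALG
import Pool.Agent.Lib.PN.B_BIG
import Pool.Agent.Lib.PN.B_BR
import Pool.Agent.Lib.PN.B_CMP
import Pool.Agent.Lib.PN.B_CND
import Pool.Agent.Lib.PN.B_CPT
import Pool.Agent.Lib.PN.B_DET
import Pool.Agent.Lib.PN.B_FS
import Pool.Agent.Lib.PN.B_GAU
import Pool.Agent.Lib.PN.B_GLU
import Pool.Agent.Lib.PN.B_INV
import Pool.Agent.Lib.PN.B_KR1
import Pool.Agent.Lib.PN.B_KR2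
import Pool.Agent.Lib.PN.B_KRU
import Pool.Agent.Lib.PN.B_LG
import Pool.Agent.Lib.PN.B_LG2
import Pool.Agent.Lib.PN.B_LIO
import Pool.Agent.Lib.PN.B_LSE
import Pool.Agent.Lib.PN.B_MIN
import Pool.Agent.Lib.PN.B_MOR
import Pool.Agent.Lib.PN.B_MR0
import Pool.Agent.Lib.PN.B_MR1
import Pool.Agent.Lib.PN.B_PHI
import Pool.Agent.Lib.PN.B_POL
import Pool.Agent.Lib.PN.B_RAT
import Pool.Agent.Lib.PN.B_SEC
import Pool.Agent.Lib.PN.B_SPC
import Pool.Agent.Lib.PN.B_STP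
import Pool.Agent.Lib.PN.B_SWP
import Pool.Agent.Lib.PN.B_TAN
import Pool.Agent.Lib.PN.B_ZAR

/-! Project pn: assembly. -/

namespace Pool.Agent.Lib.PN

theorem aLG2 : St_LG2 := st_LG2 st_LG

theorem aFS : St_FS := st_FS st_LG aLG2 st_CMP

theorem aGAU : St_GAU := st_GAU st_LG st_CMP aFS

theorem aADJ : St_ADJ := st_ADJ st_LG st_CMP aFS

theorem aALG : St_ALG := st_ALG st_SPC (st_KRU st_DET st_KR1 st_KR2)

theorem aMOR : St_MOR := st_MOR st_DET (st_MR0 (st_RAT st_SPC)) st_MR1 st_SWP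

theorem aSTP : St_STP :=
  st_STP (st_SEC (st_BIG aMOR) st_CND st_DET) st_MIN st_ZAR (st_TAN st_DET st_LG aLG2)
    (st_PHI st_LG aFS) aFS aLG2 (st_GLU st_LSE st_CPT)

theorem aBR : St_BR := st_BR st_CMP

theorem aMAIN : St_MAIN := main_of aGAU aADJ aSTP aALG st_POL st_INV st_LIO

end Pool.Agent.Lib.PN
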