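import Pool.Agent.Lib.PN.Blue

/-! Project pn, block KR2: a polynomial that is small along a local biholomorphism. -/

open scoped Topology
open Set Filter Asymptotics

noncomputable section

namespace Pool.Agent.Lib.PN

open Pool.Agent.Lib.SV (E)
open Pool.Agent.Lib.HS32

namespace KR267

theorem one_var (k : ℕ) : ∀ P : Polynomial ℂ,
    (fun t => P.eval t) =O[𝓝[≠] (0 : ℂ)] (fun t => t ^ k) → Polynomial.X ^ k ∣ P := by
  induction k with
  | zero => intro P _; simp
  | succ k ih =>
    intro P h
    have h1 : Tendsto (fun t : ℂ => t ^ (k + 1)) (𝓝[≠] 0) (𝓝 0) := by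
      have := (continuous_pow (k + 1) (M := ℂ)).tendsto 0
      rw [zero_pow k.succ_ne_zero] at this
      exact this.mono_left nhdsWithin_le_nhds
    have h2 : P.eval 0 = 0 :=
      tendsto_nhds_unique ((P.continuous.tendsto 0).mono_left nhdsWithin_le_nhds)
        (h.trans_tendsto h1)
    obtain ⟨Q, rfl⟩ : Polynomial.X ∣ P := by
      rwa [Polynomial.X_dvd_iff, Polynomial.coeff_zero_eq_eval_zero]
    rw [pow_succ']
    refine mul_dvd_mul_left _ (ih Q ?_)
    have h3 := h.mul (isBigO_refl (fun t : ℂ => t⁻¹) _)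
    refine h3.congr' ?_ ?_ <;> filter_upwards [self_mem_nhdsWithin] with t ht <;>
      have ht' : t ≠ 0 := ht
    · simp only [Polynomial.eval_mul, Polynomial.eval_X]; field_simp
    · rw [pow_succ, mul_inv_cancel_right₀ ht']

theorem coeff_line {m : ℕ} (w : Fin m → ℂ) (d : ℕ) (q : MvPolynomial (Fin m) ℂ) :
    (MvPolynomial.aeval (fun i => Polynomial.C (w i) * Polynomial.X) q).coeff d =
      MvPolynomial.eval w (MvPolynomial.homogeneousComponent d q) := by
  induction q using MvPolynomial.induction_on' with
  | add p q hp hq => simp only [map_add, Polynomial.coeff_add, hp, hq]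
  | monomial s a =>
    have h1 : MvPolynomial.homogeneousComponent d (MvPolynomial.monomial s a) =
        if s.degree = d then MvPolynomial.monomial s a else 0 := by
      ext t
      rw [MvPolynomial.coeff_homogeneousComponent]
      by_cases h : s = t
      · subst h; split_ifs <;> simp
      · split_ifs <;> simp [MvPolynomial.coeff_monomial, h]
    have h2 : MvPolynomial.aeval (fun i => Polynomial.C (w i) * Polynomial.X)
        (MvPolynomial.monomial s a) =
        Polynomial.C (a * s.prod fun i e => w i ^ e) * Polynomial.X ^ s.degree := by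
      simp only [MvPolynomial.aeval_monomial, Finsupp.prod, mul_pow, Finset.prod_mul_distrib,
        Finset.prod_pow_eq_pow_sum, Finsupp.degree_apply, map_mul, map_prod, map_pow, mul_assoc]
      rfl
    rw [h1, h2, Polynomial.coeff_C_mul_X_pow]
    by_cases h : s.degree = d
    · simp [h, MvPolynomial.eval_monomial]
    · simp [h, Ne.symm h]

theorem eval_line {m : ℕ} (w : Fin m → ℂ) (t : ℂ) (q : MvPolynomial (Fin m) ℂ) :
    (MvPolynomial.aeval (fun i => Polynomial.C (w i) * Polynomial.X) q).eval t =
      MvPolynomial.eval (t • w) q := by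
  induction q using MvPolynomial.induction_on with
  | C a => simp
  | add p q hp hq => simp only [map_add, Polynomial.eval_add, hp, hq]
  | mul_X p i hp =>
    simp only [map_mul, Polynomial.eval_mul, hp, MvPolynomial.aeval_X, Polynomial.eval_C,
      Polynomial.eval_X, MvPolynomial.eval_X, Pi.smul_apply, smul_eq_mul, mul_comm t]

end KR267

open KR267 in
theorem st_KR2 : St_KR2 := by
  intro m k ψ u₀ q hψ h0 hi hO
  have hc := (mCHN m ψ u₀ hψ).1
  have hs := hc.hasStrictFDerivAt (by simp)
  have hd : fderiv ℝ ψ u₀ = (fderiv ℂ ψ u₀).restrictScalars ℝ :=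
    hψ.self_of_nhds.fderiv_restrictScalars ℝ
  have hi' : Function.Injective (fderiv ℝ ψ u₀).toLinearMap := by
    rw [hd]; exact hi
  let e : E m ≃L[ℝ] E m :=
    (LinearEquiv.ofInjectiveEndo (fderiv ℝ ψ u₀).toLinearMap hi').toContinuousLinearEquiv
  have he : HasStrictFDerivAt ψ (e : E m →L[ℝ] E m) u₀ :=
    hs.congr_fderiv (ContinuousLinearMap.ext fun v => rfl)
  have h1 : (fun u => u - u₀) =O[𝓝 u₀] ψ := by
    simpa [h0] using (he.hasFDerivAt.isTheta_sub e.toHomeomorph.isInducing).isBigO_symm
  have h2 : (fun w => MvPolynomial.eval w q) =O[𝓝 (0 : E m)] fun w => ‖w‖ ^ k := by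
    rw [← h0, ← he.map_nhds_eq_of_equiv, isBigO_map]
    exact hO.trans (h1.norm_norm.pow k)
  have h3 : ∀ d < k, MvPolynomial.homogeneousComponent d q = 0 := by
    intro d hd
    refine MvPolynomial.funext fun w => ?_
    rw [← coeff_line, map_zero]
    refine Polynomial.X_pow_dvd_iff.1 (one_var k _ ?_) d hd
    have ht : Tendsto (fun t : ℂ => t • w) (𝓝 0) (𝓝 0) := by
      have hw : Continuous fun t : ℂ => t • w := by fun_prop
      simpa using hw.tendsto 0
    simp only [eval_line]
    refine ((h2.comp_tendsto ht).trans ?_).mono nhdsWithin_le_nhds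
    refine IsBigO.of_bound (‖w‖ ^ k) (Eventually.of_forall fun t => ?_)
    simp [norm_smul, mul_pow, mul_comm]
  have h4 : q ∈ MvPolynomial.idealOfVars (Fin m) ℂ ^ k := by
    rw [MvPolynomial.mem_pow_idealOfVars_iff']
    intro x hx
    have := MvPolynomial.coeff_homogeneousComponent (n := x.degree) (φ := q) x
    rw [h3 _ hx] at this
    simpa using this.symm
  refine Ideal.pow_right_mono ?_ k h4
  rw [Ideal.span_le]
  rintro _ ⟨i, rfl⟩
  simp [RingHom.mem_ker]

end Pool.Agent.Lib.PN
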