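import Pool.Agent.Lib.PN.Kit

/-! Project pn: the step of the Noetherian induction. -/

open scoped Classical Topology ContDiff ComplexOrder Matrix
open Set Complex Filter MvPolynomial

noncomputable section

namespace Pool.Agent.Lib.PN

open Pool.Agent.Lib.SV (E nsq)
open Pool.Agent.Lib.HS32 Pool.Agent.Lib.MP_7fcda1_ag

namespace STP25

theorem hs_log {n : ℕ} {M : Mf n} {A B : M.X → ℝ} (hA : M.Sm A) (hB : M.Sm B) (k : ℕ) {c : M.Ch}
    {z : E n} (hc : c ∈ M.C) (hz : z ∈ c.target) (h1 : A (c.symm z) ≠ 0) (h2 : B (c.symm z) ≠ 0) :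
    M.hs (fun x => Real.log (A x * B x ^ k)) c z = M.hs (fun x => Real.log (A x)) c z +
      (k : ℝ) • M.hs (fun x => Real.log (B x)) c z := by
  have a1 := hA c hc z hz
  have a2 := hB c hc z hz
  have b1 : ContDiffAt ℝ ∞ (M.lc (fun x => Real.log (A x)) c) z := cd_ofReal (a1.log h1)
  have b2 : ContDiffAt ℝ ∞ (M.lc (fun x => Real.log (B x)) c) z := cd_ofReal (a2.log h2)
  have e : M.lc (fun x => Real.log (A x * B x ^ k)) c =ᶠ[𝓝 z] fun w =>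
      M.lc (fun x => Real.log (A x)) c w + ((k : ℝ) : ℂ) * M.lc (fun x => Real.log (B x)) c w := by
    filter_upwards [a1.continuousAt.eventually_ne h1, a2.continuousAt.eventually_ne h2] with w p q
    simp only [Mf.lc]
    rw [Real.log_mul (x := A (c.symm w)) (y := B (c.symm w) ^ k) p (pow_ne_zero k q), Real.log_pow,
      ofReal_add, ofReal_mul]
  simp only [Mf.hs]
  rw [hess_congr e, hess_add b1 (contDiffAt_const.mul b2), hess_const_mul _ b2]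
  rfl

theorem num {n a w d N k : ℕ} {ε : ℝ} (hε : 0 < ε) (ha : 0 < a)
    (hw : N * ((n + 2) * a) ≤ (n + 2) * a + N * w) (hN : 2 * ((n : ℝ) + 2) / ε ≤ N)
    (hk : 2 * ((d : ℝ) + 1) / ε ≤ k) :
    0 < k ∧ (1 : ℝ) ≤ k * (w - (n + 2) * a + ε * a) - d := by
  rw [div_le_iff₀ hε] at hN hk
  have h1 : (1 : ℝ) ≤ a := Nat.one_le_cast.2 ha
  have h2 : (N : ℝ) * ((n + 2) * a) ≤ (n + 2) * a + N * w := by exact_mod_cast hw
  have h3 : (0 : ℝ) < N := (mul_pos_iff_of_pos_right hε).1 (lt_of_lt_of_le (by positivity) hN)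
  have h4 : (0 : ℝ) < k := (mul_pos_iff_of_pos_right hε).1 (lt_of_lt_of_le (by positivity) hk)
  have h5 : (0 : ℝ) ≤ w - (n + 2) * a + ε * a / 2 := by
    refine le_of_mul_le_mul_left ?_ h3
    nlinarith [mul_le_mul_of_nonneg_right hN (zero_le_one.trans h1)]
  refine ⟨Nat.cast_pos.1 h4, ?_⟩
  nlinarith [mul_nonneg h4.le h5, mul_le_mul_of_nonneg_left h1 (mul_pos h4 hε).le]

end STP25

open STP25 in
theorem st_STP (hSEC : St_SEC) (hMIN : St_MIN) (hZAR : St_ZAR) (hTAN : St_TAN) (hPHI : St_PHI)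
    (hFS : St_FS) (hLG2 : St_LG2) (hGLU : St_GLU) : St_STP := by
  rintro ρ n e M _ Λ _ G f γ ε S hP hA hN hγ hM hε hS ⟨x₀, hx₀⟩
  have sc : ∀ x ∈ Zs f S, ∀ t : ℂ, ∀ s ∈ S ∪ range G, eval (t • f x) s = 0 := by
    rintro x hx t s (hs | ⟨l, rfl⟩)
    · obtain ⟨d, hd⟩ := hS s hs
      rw [eval_smul_hom hd, hx s hs, mul_zero]
    · rw [eval_smul_hom (hP.hom l), hP.zero, mul_zero]
  obtain ⟨i, hi⟩ := Function.ne_iff.1 (hP.map.ne x₀)
  obtain ⟨P, d, r, g, hPp, hSP, hXP, hg, hPle, hf⟩ := hMIN _ (S ∪ range G) i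
    ((f x₀ i)⁻¹ • f x₀) (inv_mul_cancel₀ hi) (sc x₀ hx₀ _)
  obtain ⟨N₀, hN₀⟩ := exists_nat_ge (2 * ((n : ℝ) + 2) / ε)
  obtain ⟨I, T₀, a, w, R, σ, τ, hSc, ha, hw, hp⟩ := hSEC ρ n e Λ G hA hN P i N₀ hPp
    (fun l => hSP (Or.inr ⟨l, rfl⟩)) hXP
  obtain ⟨d', f₀, hf₀, hf₀P, hf1, hf2⟩ := hf _ hp
  obtain ⟨k, hk⟩ := exists_nat_ge (2 * ((d' : ℝ) + 1) / ε)
  obtain ⟨hk0, hnum⟩ := num hε ha hw hN₀ hk
  refine ⟨f₀, d', hf₀, fun h => hf₀P (Ideal.span_le.2 (subset_union_left.trans hSP) h),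
    fun u hu => ?_⟩
  obtain ⟨s1, n1, z1, l1⟩ := hPHI n M _ Unit f (fun _ => f₀) d' hP.map fun _ => hf₀
  obtain ⟨s2, n2, -, l2⟩ :=
    hPHI n M _ _ (fun x => tns (γ x) (f x)) R a (hγ.map.tns hP.map) hSc.hom
  obtain ⟨s3, n3, z3, l3⟩ := hPHI n M _ (Fin r) f (fun b => f₀ * g b) (d' + d) hP.map
    fun b => hf₀.mul (hg b).1
  have key : ∀ c ∈ M.C, ∀ z ∈ c.target, c.symm z ∈ Zs f S → eval (f (c.symm z)) f₀ ≠ 0 →
      ∃ F, Lift M f c z F ∧ (∀ᶠ x in 𝓝 z, F x i = 1) ∧ eval (F z) f₀ ≠ 0 ∧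
        (∀ q ∈ P, eval (F z) q = 0) ∧
        ph (fun x => tns (γ x) (f x)) R a (c.symm z) ≠ 0 ∧
        ∀ v, (∀ q ∈ P, fderiv ℂ (fun x => eval (F x) q) z v = 0) →
          nq (hess (lg fun x β => eval (tns (gv F x) (F x)) (R β)) z) v =
            w * nq (hess (lg F) z) v := fun c hc z hz hV h0 => by
    have h1 : ∀ F, Lift M f c z F → eval (F z) f₀ ≠ 0 := fun F hF => by
      obtain ⟨t, ht, e⟩ := hF.ev.self_of_nhds
      rw [e, eval_smul_hom hf₀]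
      exact mul_ne_zero (pow_ne_zero _ ht) h0
    obtain ⟨F₀, hF₀⟩ := hP.map.ex c hc z hz
    obtain ⟨hF, hi1⟩ := hF₀.norm (i := i) fun h => h1 F₀ hF₀ (hf1 _ h)
    obtain ⟨F, hF, hi2⟩ : ∃ F, Lift M f c z F ∧ ∀ᶠ x in 𝓝 z, F x i = 1 := ⟨_, hF, hi1⟩
    obtain ⟨t, -, ht⟩ := hF.ev.self_of_nhds
    obtain ⟨h2, h3⟩ := hf2 (F z) hi2.self_of_nhds (ht ▸ sc _ hV t) (h1 F hF)
    obtain ⟨h4, h5⟩ := hTAN ρ n e Λ G P I T₀ a w R σ τ F z hP.hom hSc hF.hol (hF.ne hP.map.ne)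
      ((hγ.lift c z F hF).ne hγ.map.ne) (hF.ev.mono fun x ⟨t, _, ht⟩ l => by
        rw [ht, eval_smul_hom (hP.hom l), hP.zero, mul_zero]) h3 h2
    exact ⟨F, hF, hi2, h1 F hF, h3,
      fun h => h4 (funext ((l2 c z _ ((hγ.lift c z F hF).tns hF)).1.1 h)), h5⟩
  have hΨ : ∀ c ∈ M.C, ∀ z ∈ c.target, c.symm z ∈ Zs f S →
      ph f (fun b => f₀ * g b) (d' + d) (c.symm z) = 0 := fun c hc z hz hV => by
    by_cases h0 : eval (f (c.symm z)) f₀ = 0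
    · exact (z3 _).2 fun b => by rw [map_mul, h0, zero_mul]
    · obtain ⟨F, hF, -, -, h3, -⟩ := key c hc z hz hV h0
      exact (l3 c z F hF).1.2 fun b => h3 _ (P.mul_mem_left _ (hg b).2)
  have hC := (hFS n M _ f hP.map).1.toForm
  refine hGLU n M (fs M f) _ (Zs f S) (fun x => ph f (fun _ : Unit => f₀) d' x *
    ph (fun x => tns (γ x) (f x)) R a x ^ k) _ u ((k : ℝ) * a) hM
    ((hFS n M _ γ hγ.map).1.toForm.sub (hC.smul _)) ?_ (s1.mul (s2.pow k)) s3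
    (fun x => mul_nonneg (n1 x) (pow_nonneg (n2 x) k)) n3 (fun x hx => ?_) (by positivity)
    ⟨hu.1, fun c hc z hz h => hu.2 c hc z hz ?_⟩ fun c hc z hz hV h0 v hv => ?_
  · have : Zs f S = ⋂ s ∈ S, {x | eval (f x) s = 0} := by
      ext x
      simp [Zs]
    rw [this]
    refine isClosed_biInter fun s hs => ?_
    obtain ⟨m, hm⟩ := hS s hs
    obtain ⟨p1, -, p2, -⟩ := hPHI n M _ Unit f (fun _ => s) m hP.map fun _ => hm
    convert isClosed_eq p1.continuous (continuous_const (y := 0)) using 2 with x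
    simp [p2]
  · simpa only [Mf.ch_symm] using hΨ _ (Mf.ch_mem x) _ (Mf.ch_tgt x) (by rwa [Mf.ch_symm])
  · refine forall_mem_insert.2 ⟨by_contra fun h0 => ?_, h.1⟩
    obtain ⟨F, -, -, -, -, h4, -⟩ := key c hc z hz h.1 h0
    exact mul_ne_zero (fun h5 => h0 ((z1 _).1 h5 ())) (pow_ne_zero k h4) h.2
  · have h1 := left_ne_zero_of_mul h0
    obtain ⟨F, hF, hi2, h2, h3, h4, h5⟩ := key c hc z hz hV fun h => h1 ((z1 _).2 fun _ => h)
    have hΓ := hγ.lift c z F hF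
    have h6 := h5 v fun q hq => hZAR n _ r F z v i g f₀ hF.hol hi2 (fun b => h3 _ (hg b).2) h2
      ((l3 c z F hF).2.2 (hΨ c hc z hz hV) v hv) q (hPle hq)
    have h7 := (hLG2 n Unit (fun x _ => eval (F x) f₀) z (holN_pi fun _ => holN_eval hF.hol _)
      (Function.ne_iff.2 ⟨(), h2⟩)).2.2.2 inferInstance
    have h8 : fs M (fun x => tns (γ x) (f x)) c z = fs M γ c z + fs M f c z := by
      rw [(hFS n M _ _ (hγ.map.tns hP.map)).2 c z _ (hΓ.tns hF), (hFS n M _ γ hγ.map).2 c z _ hΓ,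
        (hFS n M _ f hP.map).2 c z F hF]
      exact (hLG2 n _ (gv F) z hΓ.hol (hΓ.ne hγ.map.ne)).2.1 _ F hF.hol (hF.ne hP.map.ne)
    rw [← (hFS n M _ f hP.map).2 c z F hF] at h6
    rw [hs_log s1 s2 k hc hz h1 h4, (l1 c z F hF).2.1 h1, (l2 c z _ (hΓ.tns hF)).2.1 h4, h7, h8]
    simp only [Pi.sub_apply, Pi.smul_apply, zero_sub, nq_add, nq_sub, nq_smul, ← neg_smul, h6]
    nlinarith [mul_le_mul_of_nonneg_right hnum (nq_nonneg (hM.pos c hc z hz).posSemidef v)]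

end Pool.Agent.Lib.PN
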