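import Pool.Agent.Lib.HW.Br

/-! Project pn: from the manifold layer back to the statement. -/

open scoped Classical Topology ContDiff ComplexOrder Matrix Manifold
open Set Complex Filter

noncomputable section

namespace Pool.Agent.Lib.PN

open Pool.Agent.Lib.SV (E)
open Pool.Agent.Lib.HS32 Pool.Agent.Lib.GH Pool.Agent.Lib.HS.BBR Pool.Agent.Lib.HW

theorem back {n : ℕ} {X : Type} [TopologicalSpace X] [ChartedSpace (E n) X]
    [IsManifold 𝓘(ℂ, E n) ω X] {H : (mf n X).Fam (Mat n)} (hH : (mf n X).Kae H)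
    (hN : W86.Nef (mf n X) H) : ∃ g : X → Mat n, Kaehler g ∧ CanNef g := by
  let M : Mf n := mf n X
  let c : M.X → M.Ch := chartAt (M := X) (E n)
  have hc : ∀ x, c x ∈ M.C := ch_mem (X := X)
  have hs : ∀ x, x ∈ (c x).source := mem_chart_source (M := X) (E n)
  have hz := fun x => (c x).map_source (hs x)
  let g : M.X → Mat n := fun x => H (c x) (c x x)
  have e : ∀ x, HS.inChart (X := X) g x =ᶠ[𝓝 (c x x)] H (c x) := fun x => by
    filter_upwards [(c x).open_target.mem_nhds (hz x)] with w hw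
    have h1 : H (c x) (c x ((c x).symm w)) = _ :=
      hH.cmp _ (hc ((c x).symm w)) _ (hc x) _ (hs _) ((c x).map_target hw)
    rw [Mf.J, (c x).right_inv hw] at h1
    exact h1.symm
  have sm : ∀ x, SmM (HS.inChart (X := X) g x) (c x x) := fun x i j =>
    (hH.sm _ (hc x) _ (hz x) i j).congr_of_eventuallyEq ((e x).mono fun w hw => by simp only [hw])
  refine ⟨g, ⟨⟨fun x => hH.pos _ (hc x) _ (hz x), sm⟩, fun x v w => ?_⟩, fun ε hε => ?_⟩
  · ext i
    have h1 : ∀ k, dM k (HS.inChart (X := X) g x) (chartAt (E n) x x) = dM k (H (c x)) (c x x) :=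
      fun k => dM_congr (e x)
    simp only [del_eq, h1, Matrix.mulVec, dotProduct, Matrix.sum_apply, Matrix.smul_apply,
      smul_eq_mul, Finset.sum_mul]
    rw [Finset.sum_comm]
    refine Finset.sum_congr rfl fun k _ => Finset.sum_congr rfl fun j _ => ?_
    rw [hH.cl _ (hc x) _ (hz x) i j k]
    ring
  · obtain ⟨u, su, hu⟩ := hN ε hε
    refine ⟨u, fun x => ⟨su _ (hc x) _ (hz x), fun v => ?_⟩⟩
    have s1 := su _ (hc x) _ (hz x)
    have p := Mf.AllOn.ev hH.pos (hc x) (hz x)
    have s2 := (mCOF n _ _ (sm x)).2.2.2.2.2 (by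
      filter_upwards [p, e x] with w a b using b ▸ a)
    have h3 : hess (fun w => ((u ((c x).symm w) +
        Real.log (HS.inChart (X := X) g x w).det.re : ℝ) : ℂ)) (c x x) =
        M.hs u (c x) (c x x) - M.ric H (c x) (c x x) := by
      simp only [ofReal_add]
      refine (hess_add (cd_ofReal s1) (cd_ofReal s2.2.1)).trans ?_
      rw [Mf.ric, sub_neg_eq_add]
      exact congrArg _ (hess_congr ((e x).mono fun w hw => by simp only [hw, ld]))
    have h5 : M.gE H ε u (c x) (c x x) =
        ε • g x + (M.hs u (c x) (c x x) - M.ric H (c x) (c x x)) := by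
      simp only [Mf.gE, Pi.add_apply, Pi.sub_apply, Pi.smul_apply, g]
      abel
    have h6 := (Complex.nonneg_iff.1
      ((hu _ (hc x) _ (hz x)).posSemidef.dotProduct_mulVec_nonneg v)).1
    refine le_of_le_of_eq ?_ (levi_eq (s1.add s2.2.1) v).symm
    rw [h5, Matrix.add_mulVec, dotProduct_add, add_re, Matrix.smul_mulVec, dotProduct_smul,
      smul_re, smul_eq_mul, ← h3] at h6
    exact neg_le_iff_add_nonneg'.2 h6

end Pool.Agent.Lib.PN
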