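import Pool.Agent.Lib.PN.Blue

/-! Project pn: the theorem from the blocks. -/

open scoped Classical Topology ContDiff ComplexOrder Matrix Manifold
open Set Complex Filter MvPolynomial

noncomputable section

namespace Pool.Agent.Lib.PN

open Pool.Agent.Lib.SV (E nsq)
open Pool.Agent.Lib.HS32 Pool.Agent.Lib.MP_7fcda1_ag Pool.Agent.Lib.UR.M

theorem noRat_of (hPOL : St_POL) (hINV : St_INV) (hLIO : St_LIO) {ρ n e : ℕ} {M : Mf n} [M.Cpt]
    {Λ : Type} {G : Λ → Pol (ρ + n)} {f : M.X → Fin (ρ + n + 1) → ℂ} {h : M.Fam (Mat n)}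
    (hP : Prj M e G f) (hh : M.Met h) (hc : M.Hsc h) : NoRat G := by
  intro x D hR
  obtain ⟨p, q, dp, dq, h0, hz, hpq, t, ht⟩ := hPOL _ e Λ G x D hP.hom hR
  have key : ∀ y : Fin (ρ + n + 1) → ℂ, y ≠ 0 → (∀ l, eval y (G l) = 0) →
      ∃ x, ∃ a : ℂ, a ≠ 0 ∧ y = a • f x := fun y h1 h2 => by
    obtain ⟨x, a, e⟩ := hP.onto y h1 h2
    exact ⟨x, a, fun h3 => h1 (by rw [e, h3, zero_smul]), e⟩
  choose φ hφ using fun t => key (p t) (h0 t).1 fun l => (hz t l).1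
  choose ψ hψ using fun t => key (q t) (h0 t).2 fun l => (hz t l).2
  have h1 := hLIO n M h φ ψ hh hc (hINV ρ n e M Λ G f p φ hP dp hφ)
    (hINV ρ n e M Λ G f q ψ hP dq hψ) (fun s hs => by
      obtain ⟨a, ha⟩ := hpq s hs
      obtain ⟨b, -, hb⟩ := hφ s⁻¹
      obtain ⟨c, hc0, hc⟩ := hψ s
      refine hP.inj _ _ (c⁻¹ * a * b) ?_
      rw [mul_smul, mul_smul, ← hb, ← ha, hc, inv_smul_smul₀ hc0]) t
  obtain ⟨a, -, ha⟩ := hφ t
  obtain ⟨b, hb0, hb⟩ := hφ 0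
  exact ht (a * b⁻¹) (by rw [mul_smul, hb, inv_smul_smul₀ hb0, ha, h1])

theorem nef_of (hGAU : St_GAU) (hADJ : St_ADJ) (hSTP : St_STP) (hALG : St_ALG) {ρ n e : ℕ}
    {M : Mf n} [M.Cpt] {Λ : Type} [Fintype Λ] {G : Λ → Pol (ρ + n)}
    {f : M.X → Fin (ρ + n + 1) → ℂ} (hP : Prj M e G f) (hN : NoRat G) :
    M.Kae (fs M f) ∧ ∀ ε : ℝ, 0 < ε → ∃ w, M.Sm w ∧
      M.All fun c z => (M.gE (fs M f) ε w c z).PosDef := by
  obtain ⟨hK, γ, hγ⟩ := hGAU n M _ f hP.map hP.imm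
  obtain ⟨ψ, sψ, hψ⟩ := hADJ n M _ f γ hP.map hγ hK.toMet
  refine ⟨hK, fun ε hε => ?_⟩
  have key : ∀ (J : Ideal (Pol (ρ + n))) (S : Set (Pol (ρ + n))), Ideal.span S = J →
      (∀ s ∈ S, ∃ d, s.IsHomogeneous d) →
      ∃ u, Good M (fs M γ - ((n : ℝ) + 1 - ε) • fs M f) u (Zs f S) := fun J => by
    induction J using WellFoundedGT.induction with
    | ind J ih =>
      rintro S rfl hS
      rcases (Zs f S).eq_empty_or_nonempty with h0 | h0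
      · exact ⟨fun _ => 0, Mf.sm_const 0, fun c _ z _ hz => absurd (h0 ▸ hz) (notMem_empty _)⟩
      obtain ⟨f₀, d, h1, h2, h3⟩ :=
        hSTP ρ n e M Λ G f γ ε S hP (hALG ρ n e M Λ G f hP) hN hγ hK.toMet hε hS h0
      obtain ⟨u, hu⟩ := ih (Ideal.span (insert f₀ S))
        (lt_of_le_of_ne (Ideal.span_mono (subset_insert _ _))
          fun h4 => h2 (h4 ▸ Ideal.subset_span (mem_insert _ _))) _ rfl
        (forall_mem_insert.2 ⟨⟨d, h1⟩, hS⟩)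
      exact h3 u hu
  obtain ⟨u, su, hu⟩ := key _ ∅ rfl (by simp)
  refine ⟨fun x => u x - ψ x, su.sub sψ, fun c hc z hz => ?_⟩
  have h1 := hu c hc z hz fun s hs => hs.elim
  have h2 := (((mLAP n M u ψ su sψ).1 0) c hc z hz).2.2.1
  have h3 : M.gE (fs M f) ε (fun x => u x - ψ x) c z =
      (fs M γ - ((n : ℝ) + 1 - ε) • fs M f) c z + M.hs u c z := by
    simp only [Mf.gE, Pi.add_apply, Pi.sub_apply, Pi.smul_apply]
    rw [h2, sub_eq_add_neg, hψ c hc z hz, sub_smul]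
    abel
  rw [← h3] at h1
  exact h1

theorem main_of (hGAU : St_GAU) (hADJ : St_ADJ) (hSTP : St_STP) (hALG : St_ALG) (hPOL : St_POL)
    (hINV : St_INV) (hLIO : St_LIO) : St_MAIN := fun _ _ _ _ _ _ _ _ _ _ hP hh hc =>
  nef_of hGAU hADJ hSTP hALG hP (noRat_of hPOL hINV hLIO hP hh hc)

end Pool.Agent.Lib.PN
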