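import Pool.Agent.Lib.PN.All
import Pool.Agent.Lib.PN.Back
import Pool.Agent.Lib.HN.Main

/-! Project pn: the theorems at the level of the statements. -/

open scoped Manifold ContDiff

namespace Pool.Agent.Lib.PN

open Pool.Agent.Lib.SV (E)
open Pool.Agent.Lib.HS32 Pool.Agent.Lib.GH Pool.Agent.Lib.HS.BBR Pool.Agent.Lib.HW
  Pool.Agent.Lib.RB.R32 Pool.Agent.Lib.HN

variable {n : ℕ} {X : Type} [TopologicalSpace X] [ChartedSpace (E n) X]
  [IsManifold 𝓘(ℂ, E n) ω X] [CompactSpace X] [T2Space X] [ConnectedSpace X] {h : X → Mat n}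

/-- A projective manifold with a Hermitian metric of non-positive holomorphic sectional curvature
has nef canonical bundle. -/
theorem canNef (hX : Projective n X) (hh : Hermitian h) (hc : ∀ x v, curvAt h x v v ≤ 0) :
    ∃ g : X → Mat n, Kaehler g ∧ CanNef g := by
  let M : Mf n := mf n X
  have : M.Cpt := ⟨‹T2Space X›, ‹CompactSpace X›, ‹ConnectedSpace X›⟩
  let c : M.X → M.Ch := chartAt (M := X) (E n)
  have hm : ∀ x, c x ∈ M.C := ch_mem (X := X)
  have hs : ∀ x, x ∈ (c x).source := mem_chart_source (M := X) (E n)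
  have hk : M.Met (fam h) := (fam_ok hh).1
  obtain ⟨ρ, r, e, G, f, hP⟩ := aBR n X hX
  obtain ⟨h1, h2⟩ := aMAIN ρ n e M _ G f _ hP hk (B81.hsc_of hk fun x => ⟨c x, hm x, hs x,
    fun v => (congrArg Complex.re (rm_curv (hk.sm.at (hm x) (hs x))
      (hk.det_ne.at (hm x) (hs x)) v v)).trans_le (hc x v)⟩)
  exact back h1 h2

theorem main (hX : Projective n X) (hh : Hermitian h) (hc : ∀ x v, curvAt h x v v ≤ 0) :
    ∃ k ≤ n, FlatDirs h k ∧ KodGe n X (n - k) :=
  let ⟨g, hg, hK⟩ := canNef hX hh hc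
  HN.main n X g h hg hK hh hc

end Pool.Agent.Lib.PN
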